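import Pool.Agent.RelC.MEAS
import Pool.Agent.RelC.DENT
import Pool.Agent.RelB.ACC

/-!
# Locality and certificates of acceptance
-/

set_option autoImplicit false

namespace Pool.Agent.RelC

open MeasureTheory Set
open scoped ENNReal
open Pool.Agent.RelT (Fast)
open Pool.Agent.RelB (ML lcode mcs xacc qbs BH md md_pos md_spec qf ee Hist ix ix_str seto T_ENT
  xacc_congr str_len_le qbs_mono qb_le_qbs DD WW WW_lt WW_mid gg cert iot iot_inj pi_real PF_xor)
open Pool.Agent.RelM (Lang Instr Cfg run Halts pair triple str pre hq wq sq0 sq1 Asks code qb)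
open Pool.Agent.RelO (lev st)
open Pool.Agent.RelS (Z Rl orcV orc acc Idx Om Dep mixP gf PF Low Cert Upw orcV_imp Rl_congr
  lev_lt_sq1 oloc mixP_pos mixP_neg wt PF_def up_diff low_not_upw PF_nonneg PF_le_one bern_true
  bern_false)

theorem Wd_lt {Φ : Par} {j t : ℕ} (h : t ∈ Wd Φ j) : t < 2 ^ (nn Φ j + j) :=
  (Finset.mem_Ico.1 h).2

theorem qb_small {Φ : Par} {j t : ℕ} (h : t ∈ Wd Φ j) :
    qbs (mcs j) (str t).length < nn Φ (j + 1) ∧ qbs (mcs j) (str t).length < 2 ^ nn Φ j ∧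
    2 * (qbs (mcs j) (str t).length : ℝ) * Φ.B (j + 1) ≤ md j * 2 ^ nn Φ j := by
  have h1 := qbs_mono (mcs j) (str_len_le (Wd_lt h))
  have h2 := nnq Φ j (nn Φ j) le_rfl
  have h3 := nnmd Φ j (nn Φ j) le_rfl
  refine ⟨h1.trans_lt (nnnext Φ j), by omega, le_trans ?_ h3⟩
  have h4 : (qbs (mcs j) (str t).length : ℝ) ≤ qbs (mcs j) (nn Φ j + j) := by exact_mod_cast h1
  gcongr

theorem accl : T_ACC := by
  intro Φ j t h h' ω ω' ht ho hK hh hw
  obtain ⟨q1, q2, -⟩ := qb_small ht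
  unfold ans oh orc
  refine xacc_congr fun q hq => ?_
  refine oloc _ _ _ _ _ (qbs (mcs j) (str t).length) ?_ ?_ q hq
  · intro κ x y h1 h2
    have h4 : jj Φ (lev κ x) ≤ j + 1 := jj_le (by omega)
    unfold zz
    rw [← ho _ h4]
    exact hw _ ⟨by show lev κ x < _; omega, h2, hK _ h4⟩
  · intro u hu
    refine bloc Φ _ _ u fun j' hj' => hh j' ?_
    by_contra h5
    have h6 : 2 ^ nn Φ j ≤ 2 ^ nn Φ j' :=
      Nat.pow_le_pow_right (by norm_num) ((nnmono Φ).monotone (by omega))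
    omega

/-- Acceptance of the word number `t` at stage `j` as a function of the new coins. -/
def ga (Φ : Par) (j : ℕ) (h : Hist) (ω : Om) (t : ℕ)
    (z : DD (nn Φ j) (nn Φ (j + 1)) → Bool) : Prop :=
  xacc (orc (bitsOf Φ h.2) (WW (nn Φ j) (nn Φ (j + 1)) (zz Φ h.1 ω) z)) (mcs j) (str t)

theorem ans_iff {Φ : Par} {j : ℕ} {h : Hist} (hK : ∀ i, i ≤ j → h.1 i < Φ.K i) {ω τ : Om}
    {t i : ℕ} (ht : t ∈ Wd Φ j) :
    ans Φ j (seto h j i) (mixP (Old Φ j) ω τ) t ↔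
      ga Φ j h ω t fun d => τ (iot (nn Φ j) (nn Φ (j + 1)) i d) := by
  unfold ans ga oh orc
  refine xacc_congr fun q hq => ?_
  refine oloc _ _ _ _ _ (qbs (mcs j) (str t).length) ?_ (fun u _ => rfl) q hq
  intro κ x y h1 h2
  have h3 := (qb_small ht).1
  by_cases h4 : lev κ x < nn Φ j
  · rw [WW_lt h4]
    unfold zz seto
    simp only
    have h5 := jj_le h4
    rw [Function.update_of_ne (by omega)]
    exact mixP_pos ⟨h4, h2, hK _ h5⟩
  · have hd : nn Φ j ≤ lev κ x ∧ lev κ x < nn Φ (j + 1) ∧ y.length = lev κ x :=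
      ⟨by omega, by omega, h2⟩
    have h5 := WW_mid (z0 := zz Φ h.1 ω)
      (z := fun d => τ (iot (nn Φ j) (nn Φ (j + 1)) i d)) ⟨(κ, x, y), hd⟩
    rw [h5]
    unfold zz seto
    simp only
    rw [jj_eq hd.1 hd.2.1, Function.update_self]
    exact mixP_neg fun h6 => h4 h6.1

theorem pa_eq {Φ : Par} {j : ℕ} {h : Hist} (hK : ∀ i, i ≤ j → h.1 i < Φ.K i) {ω : Om}
    {t i : ℕ} (ht : t ∈ Wd Φ j) :
    pa Φ j h ω t i =
      PF (fun d => sv Φ (iot (nn Φ j) (nn Φ (j + 1)) i d)) {z | ga Φ j h ω t z} := by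
  rw [← pi_real (fun d => (sv_pos Φ _).le) (fun d => sv_le_one Φ _)]
  unfold pa
  simp only [ans_iff hK ht]
  have h1 := coin_map Φ (iot (nn Φ j) (nn Φ (j + 1)) i) (iot_inj _ _ i)
  rw [← h1, Measure.real, Measure.real, Measure.map_apply
    (measurable_pi_lambda _ fun d => measurable_pi_apply _) MeasurableSet.of_discrete]
  rfl

/-- The probability of a new coin to be `true`. -/
theorem sv_eps {Φ : Par} {j i : ℕ} (hi : i < Φ.K (j + 1)) (d : DD (nn Φ j) (nn Φ (j + 1))) :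
    1 - sv Φ (iot (nn Φ j) (nn Φ (j + 1)) i d) ≤ Φ.B (j + 1) / 2 ^ nn Φ j := by
  have h1 : ex Φ (iot (nn Φ j) (nn Φ (j + 1)) i d) ≤ Φ.B (j + 1) / 2 ^ nn Φ j := by
    unfold ex iot
    simp only
    have h2 := Φ.bd (j + 1) i d.1.1 (ix d.1.2.1) hi
    have h4 : (2 : ℝ) ^ nn Φ j ≤ 2 ^ lev d.1.1 d.1.2.1 :=
      pow_le_pow_right₀ (by norm_num) d.2.1
    gcongr
  refine le_trans ?_ h1
  unfold sv
  generalize ex Φ (iot (nn Φ j) (nn Φ (j + 1)) i d) = e
  have h6 := Real.add_one_le_exp (-e)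
  linarith

/-- The mean entropy of the answer of one machine. -/
theorem uni_one (Φ : Par) (j t : ℕ) (h : Hist) (ω : Om) (ht : t ∈ Wd Φ j)
    {v : List Instr × ℕ × ℕ} (hv : v ∈ mcs j) :
    ∑ i ∈ Finset.range (Φ.K (j + 1)), Φ.pv (j + 1) i * Real.binEntropy
      (PF (fun d => sv Φ (iot (nn Φ j) (nn Φ (j + 1)) i d))
        {z | gg (nn Φ j) (nn Φ (j + 1)) (bitsOf Φ h.2) (zz Φ h.1 ω) v (str t) z}) ≤
      Φ.av (j + 1) * Real.log 2 + 1 / (((j : ℝ) + 1) * (((mcs j).length : ℝ) + 1)) := by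
  obtain ⟨g, hg⟩ : ∃ g : (DD (nn Φ j) (nn Φ (j + 1)) → Bool) → Prop,
    g = gg (nn Φ j) (nn Φ (j + 1)) (bitsOf Φ h.2) (zz Φ h.1 ω) v (str t) := ⟨_, rfl⟩
  obtain ⟨A, hA⟩ : ∃ A : Set (DD (nn Φ j) (nn Φ (j + 1)) → Bool),
    A = {z | ¬ Upw g z} := ⟨_, rfl⟩
  obtain ⟨e, he⟩ : ∃ e : DD (nn Φ j) (nn Φ (j + 1)) → ℝ,
      ∀ d, e d = Φ.mu d.1.1 (ix d.1.2.1) / 2 ^ lev d.1.1 d.1.2.1 := ⟨_, fun _ => rfl⟩
  have he0 : ∀ d, 0 ≤ e d := by
    intro d
    rw [he]
    have := Φ.mu0 d.1.1 (ix d.1.2.1)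
    positivity
  have hsv : ∀ i, (fun d => sv Φ (iot (nn Φ j) (nn Φ (j + 1)) i d)) =
      fun d => Real.exp (-(Φ.lam i * e d)) := by
    intro i
    funext d
    unfold sv ex iot
    simp only
    rw [he, mul_div_assoc]
  have hcov := Φ.cov (j + 1) (DD (nn Φ j) (nn Φ (j + 1))) inferInstance e A he0 (by
    rw [hA]
    exact low_not_upw _)
  obtain ⟨-, q2, q3⟩ := qb_small ht
  have hq := qb_le_qbs hv (str t).length
  have hC : Cert g (qb v (str t).length) := by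
    rw [hg]
    exact cert (nn Φ j) (nn Φ (j + 1)) (bitsOf Φ h.2) (zz Φ h.1 ω) v (str t)
      (hq.trans_lt q2)
  have q3' : 2 * (qb v (str t).length : ℝ) * Φ.B (j + 1) ≤ md j * 2 ^ nn Φ j := by
    refine le_trans ?_ q3
    have : (qb v (str t).length : ℝ) ≤ qbs (mcs j) (str t).length := by exact_mod_cast hq
    gcongr
  have hB : (Φ.B (j + 1) : ℝ) / 2 ^ nn Φ j ≤ 1 / 2 := by
    have h1 := nnb Φ j
    have h2 : Φ.B (j + 1) < 2 ^ Φ.B (j + 1) := Nat.lt_two_pow_self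
    have h3 : 2 ^ (Φ.B (j + 1) + 1) ≤ 2 ^ nn Φ j := Nat.pow_le_pow_right (by norm_num) (by omega)
    have h4 : 2 * Φ.B (j + 1) ≤ 2 ^ nn Φ j := by
      rw [pow_succ] at h3
      omega
    have h5 : 2 * (Φ.B (j + 1) : ℝ) ≤ 2 ^ nn Φ j := by exact_mod_cast h4
    rw [div_le_iff₀ (by positivity)]
    linarith
  obtain ⟨η, hη⟩ : ∃ η : ℝ, η = 1 / (((j : ℝ) + 1) * (((mcs j).length : ℝ) + 1)) := ⟨_, rfl⟩
  have hH : ∀ i ∈ Finset.range (Φ.K (j + 1)), Φ.pv (j + 1) i * Real.binEntropy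
      (PF (fun d => sv Φ (iot (nn Φ j) (nn Φ (j + 1)) i d)) {z | g z}) ≤
      Φ.pv (j + 1) i * Real.binEntropy (PF (fun d => Real.exp (-(Φ.lam i * e d))) A) +
        Φ.pv (j + 1) i * η := by
    intro i hi
    rw [Finset.mem_range] at hi
    have hd := up_diff (q := fun d => sv Φ (iot (nn Φ j) (nn Φ (j + 1)) i d))
      (fun d => by linarith [sv_eps hi d]) (fun d => sv_le_one Φ _) (fun d => sv_eps hi d)
      (by positivity) hC
    have hp0 := PF_nonneg (q := fun d => sv Φ (iot (nn Φ j) (nn Φ (j + 1)) i d))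
      (fun d => (sv_pos Φ _).le) (fun d => sv_le_one Φ _) {z | g z}
    have hp1 := PF_le_one (q := fun d => sv Φ (iot (nn Φ j) (nn Φ (j + 1)) i d))
      (fun d => (sv_pos Φ _).le) (fun d => sv_le_one Φ _) {z | g z}
    have hq0 := PF_nonneg (q := fun d => sv Φ (iot (nn Φ j) (nn Φ (j + 1)) i d))
      (fun d => (sv_pos Φ _).le) (fun d => sv_le_one Φ _) A
    have hq1 := PF_le_one (q := fun d => sv Φ (iot (nn Φ j) (nn Φ (j + 1)) i d))
      (fun d => (sv_pos Φ _).le) (fun d => sv_le_one Φ _) A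
    have hd' : |PF (fun d => sv Φ (iot (nn Φ j) (nn Φ (j + 1)) i d)) {z | g z} -
        (1 - PF (fun d => sv Φ (iot (nn Φ j) (nn Φ (j + 1)) i d)) A)| ≤ md j := by
      rw [hA]
      refine hd.trans ?_
      rw [← mul_div_assoc, div_le_iff₀ (by positivity)]
      exact q3'
    have h2 := md_spec j ⟨hp0, hp1⟩ ⟨by linarith, by linarith⟩ hd'
    rw [Real.binEntropy_one_sub, ← hη] at h2
    rw [← mul_add, ← hsv]
    refine mul_le_mul_of_nonneg_left ?_ (Φ.pv0 (j + 1) i)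
    linarith [(abs_le.1 h2).2]
  rw [← hη]
  calc ∑ i ∈ Finset.range (Φ.K (j + 1)), Φ.pv (j + 1) i * Real.binEntropy
        (PF (fun d => sv Φ (iot (nn Φ j) (nn Φ (j + 1)) i d))
          {z | gg (nn Φ j) (nn Φ (j + 1)) (bitsOf Φ h.2) (zz Φ h.1 ω) v (str t) z})
      ≤ ∑ i ∈ Finset.range (Φ.K (j + 1)),
        (Φ.pv (j + 1) i * Real.binEntropy (PF (fun d => Real.exp (-(Φ.lam i * e d))) A) +
          Φ.pv (j + 1) i * η) := by
        rw [hg] at hH
        exact Finset.sum_le_sum hH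
    _ = ∑ i ∈ Finset.range (Φ.K (j + 1)),
        Φ.pv (j + 1) i * Real.binEntropy (PF (fun d => Real.exp (-(Φ.lam i * e d))) A) + η := by
        rw [Finset.sum_add_distrib, ← Finset.sum_mul, Φ.pv1 (j + 1), one_mul]
    _ ≤ _ := by linarith

/-- The mean entropy of the answer of a list of machines. -/
theorem uni_list (hENT : T_ENT) (Φ : Par) (j t : ℕ) (h : Hist) (ω : Om) (ht : t ∈ Wd Φ j)
    (vs : ML) (hv : ∀ v ∈ vs, v ∈ mcs j) :
    ∑ i ∈ Finset.range (Φ.K (j + 1)), Φ.pv (j + 1) i * Real.binEntropy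
      (PF (fun d => sv Φ (iot (nn Φ j) (nn Φ (j + 1)) i d))
        {z | xacc (orc (bitsOf Φ h.2) (WW (nn Φ j) (nn Φ (j + 1)) (zz Φ h.1 ω) z)) vs
          (str t)}) ≤
      vs.length *
        (Φ.av (j + 1) * Real.log 2 + 1 / (((j : ℝ) + 1) * (((mcs j).length : ℝ) + 1))) := by
  induction vs with
  | nil =>
    have h1 : ∀ i, PF (fun d => sv Φ (iot (nn Φ j) (nn Φ (j + 1)) i d))
        {z | xacc (orc (bitsOf Φ h.2) (WW (nn Φ j) (nn Φ (j + 1)) (zz Φ h.1 ω) z)) []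
          (str t)} = 0 := by
      intro i
      classical
      rw [PF_def]
      refine Finset.sum_eq_zero fun V _ => ?_
      rw [if_neg]
      exact fun h => h
    simp only [h1, Real.binEntropy_zero, mul_zero, Finset.sum_const_zero, List.length_nil,
      Nat.cast_zero, zero_mul, le_refl]
  | cons v vs ih =>
    have ih' := ih fun u hu => hv u (List.mem_cons_of_mem _ hu)
    have h1 := uni_one Φ j t h ω ht (hv v List.mem_cons_self)
    have h2 : ∀ i ∈ Finset.range (Φ.K (j + 1)), Φ.pv (j + 1) i * Real.binEntropy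
        (PF (fun d => sv Φ (iot (nn Φ j) (nn Φ (j + 1)) i d))
          {z | xacc (orc (bitsOf Φ h.2) (WW (nn Φ j) (nn Φ (j + 1)) (zz Φ h.1 ω) z)) (v :: vs)
            (str t)}) ≤
        Φ.pv (j + 1) i * Real.binEntropy
          (PF (fun d => sv Φ (iot (nn Φ j) (nn Φ (j + 1)) i d))
            {z | gg (nn Φ j) (nn Φ (j + 1)) (bitsOf Φ h.2) (zz Φ h.1 ω) v (str t) z}) +
        Φ.pv (j + 1) i * Real.binEntropy
          (PF (fun d => sv Φ (iot (nn Φ j) (nn Φ (j + 1)) i d))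
            {z | xacc (orc (bitsOf Φ h.2) (WW (nn Φ j) (nn Φ (j + 1)) (zz Φ h.1 ω) z)) vs
              (str t)}) := by
      intro i _
      rw [← mul_add]
      refine mul_le_mul_of_nonneg_left ?_ (Φ.pv0 (j + 1) i)
      exact PF_xor (fun d => (sv_pos Φ _).le) (fun d => sv_le_one Φ _) hENT _ _
    refine (Finset.sum_le_sum h2).trans ?_
    rw [Finset.sum_add_distrib, List.length_cons]
    push_cast
    linarith

theorem uni_of (hENT : T_ENT) : T_UNI := by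
  intro Φ j t h ω ht hK
  have h1 := uni_list hENT Φ j t h ω ht (mcs j) fun v hv => hv
  have h2 : ∀ i, pa Φ j h ω t i = PF (fun d => sv Φ (iot (nn Φ j) (nn Φ (j + 1)) i d))
      {z | xacc (orc (bitsOf Φ h.2) (WW (nn Φ j) (nn Φ (j + 1)) (zz Φ h.1 ω) z)) (mcs j)
        (str t)} := fun i => pa_eq hK ht
  simp only [h2]
  refine h1.trans ?_
  have h3 : ((mcs j).length : ℝ) * (1 / (((j : ℝ) + 1) * (((mcs j).length : ℝ) + 1))) ≤
      1 / ((j : ℝ) + 1) := by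
    have a1 : (0 : ℝ) < (j : ℝ) + 1 := by positivity
    have a2 : (0 : ℝ) < ((mcs j).length : ℝ) + 1 := by positivity
    rw [mul_one_div, div_le_div_iff₀ (by positivity) a1]
    nlinarith
  linarith

end Pool.Agent.RelC
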