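import Pool.Agent.RelB.P_XOR
import Pool.Agent.RelB.P_APP

/-!
# RelC: the machine part: definitions and targets

New theorem in preparation (`MP_a0edbc_lc`, extension of `BooleanHierarchy` to `0 ≤ a < 1`): for every
real `a` with `0 ≤ a < 1` there is an oracle such that (as landed) the levels of the Boolean hierarchy
have dimension at most `m * a` (at `a = 0`: the WHOLE hierarchy has dimension `0`), while `Δ_2^p` is
never null in `E` or `E_2`.

The language in `Δ_2^p` is `XL A` with `A` in `NP`: `XL A x` is the symmetric difference of the bits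
`A (x ++ 0^(n-1-i) 1 0^i)`, `i < n = |x|`. This file holds the definitions and the targets for its
machines. Every target `T_X` is to be proved as `theorem p_X : T_X` (or `p_X_of` with the targets named
in brackets as hypotheses) in a NEW file `Pool/Agent/RelC/P_X.lean`, namespace `Pool.Agent.RelC`,
helper lemmas in `X_`.
-/

set_option autoImplicit false

namespace Pool.Agent.RelC

open MeasureTheory Set
open scoped ENNReal
open Pool.Agent.RelM (Lang Instr Cfg step run Halts Decides E1 E2 NP pair triple)
open Pool.Agent.RelB.XOR_ (stk emb)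

/-- The tail of the special word number `i` of a word of length `n`: `0^(n-1-i) 1 0^i`. -/
def sw (n i : ℕ) : List Bool := List.replicate (n - 1 - i) false ++ true :: List.replicate i false

/-- The symmetric difference of the bits of the first `m` special words of `x`. -/
def XR (A : Lang) (x : List Bool) : ℕ → Bool
  | 0 => false
  | i + 1 => xor (A (x ++ sw x.length i)) (XR A x i)

/-- The symmetric difference of the bits of the special words of `x`. -/
def XL (A : Lang) : Lang := fun x => XR A x x.length

/-- Polynomial time relative to `A`. -/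
def PT (A : Lang) : Set Lang :=
  {L | ∃ (P : List Instr) (c : ℕ), Decides A P L (fun n => (n + 2) ^ c)}

/-- The class `Δ_2^p = P^NP` relative to `O`. -/
def D2 (O : Lang) : Set Lang := {L | ∃ A ∈ NP O, L ∈ PT A}

/-! ### segments of programs -/

/-- The stack `s` is moved (reversed) to the stacks `0` and `t`; `e` is an empty stack. -/
def cp (s t e p : ℕ) : List Instr :=
  [Instr.pop s (p + 1) (p + 4) (p + 7), Instr.push 0 false, Instr.push t false,
    Instr.pop e p p p, Instr.push 0 true, Instr.push t true, Instr.pop e p p p]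

/-- The stack `s` is moved (reversed) to the stack `t`; `e` is an empty stack. -/
def mv (s t e p : ℕ) : List Instr :=
  [Instr.pop s (p + 1) (p + 3) (p + 5), Instr.push t false, Instr.pop e p p p,
    Instr.push t true, Instr.pop e p p p]

/-- The stacks `0, ..., M - 1` are cleared. -/
def clr (M p : ℕ) : List Instr :=
  (List.range M).map fun s => Instr.pop s (p + s) (p + s) (p + s + 1)

/-- **CP** (30 min; template `RelB/P_XOR.lean`, `loop2_run`; induction on `f s`). -/
def T_CP : Prop := ∀ (O : Lang) (R : List Instr) (p s t e : ℕ), s ≠ 0 → t ≠ 0 → e ≠ 0 → s ≠ t →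
  s ≠ e → t ≠ e → (∀ i < 7, R[p + i]? = (cp s t e p)[i]?) → ∀ f : ℕ → List Bool, f e = [] →
  (step O R)^[4 * (f s).length + 1] ⟨p, f⟩ = ⟨p + 7, Function.update (Function.update
    (Function.update f s []) t ((f s).reverse ++ f t)) 0 ((f s).reverse ++ f 0)⟩

/-- **MV** (template `RelB/P_APP.lean`, `loop_run`, which is this with `e = 9`). -/
def T_MV : Prop := ∀ (O : Lang) (R : List Instr) (p s t e : ℕ), s ≠ t → s ≠ e → t ≠ e →
  (∀ i < 5, R[p + i]? = (mv s t e p)[i]?) → ∀ f : ℕ → List Bool, f e = [] →
  (step O R)^[3 * (f s).length + 1] ⟨p, f⟩ = ⟨p + 5, Function.update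
    (Function.update f s []) t ((f s).reverse ++ f t)⟩

/-- **CLR**: induction on `M`, inside on the length of the stack. -/
def T_CLR : Prop := ∀ (O : Lang) (R : List Instr) (M p : ℕ),
  (∀ i < M, R[p + i]? = (clr M p)[i]?) → ∀ f : ℕ → List Bool,
  (step O R)^[∑ s ∈ Finset.range M, ((f s).length + 1)] ⟨p, f⟩ =
    ⟨p + M, fun s => if s < M then [] else f s⟩

/-- **GROW**: a stack grows by at most one symbol at a step. -/
def T_GROW : Prop := ∀ (O : Lang) (P : List Instr) (c : Cfg) (s t : ℕ),
  (((step O P)^[t] c).st s).length ≤ (c.st s).length + t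

/-- The loop. Stacks: `M` holds `x` reversed, `M + 1` holds `0^i`, `M + 2` holds `0^(n-i)`, `M + 3`
holds the bit `XR A x i`, `M + 4`, `M + 5`, `M + 6` are scratch, `M + 7` is empty. -/
def lp (M : ℕ) (P : List Instr) : List Instr :=
  -- 0: the input is moved to stack `M`, its length to stack `M + 2`
  [Instr.pop 0 1 4 7, Instr.push M false, Instr.push (M + 2) false, Instr.pop (M + 7) 0 0 0,
    Instr.push M true, Instr.push (M + 2) false, Instr.pop (M + 7) 0 0 0,
    Instr.push (M + 3) false] ++
  -- 8: the head of the loop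
  ([Instr.pop (M + 2) 9 9 (53 + M + P.length)] ++
  -- 9: the stacks of `P` are cleared, the word `x ++ sw n i` is built on stack `0`
  (clr M 9 ++ (cp (M + 1) (M + 4) (M + 7) (9 + M) ++ ([Instr.push 0 true] ++
    (cp (M + 2) (M + 5) (M + 7) (17 + M) ++ (cp M (M + 6) (M + 7) (24 + M) ++
    (mv (M + 4) (M + 1) (M + 7) (31 + M) ++ (mv (M + 5) (M + 2) (M + 7) (36 + M) ++
    (mv (M + 6) M (M + 7) (41 + M) ++
  -- 46 + M: the program `P`
  (P.map (emb 0 P.length (46 + M)) ++
  -- 46 + M + P.length: the bit is combined with stack `M + 3`, `i` is increased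
  ([Instr.pop 1 (51 + M + P.length) (47 + M + P.length) (51 + M + P.length),
    Instr.pop (M + 3) (48 + M + P.length) (50 + M + P.length) (51 + M + P.length),
    Instr.push (M + 3) true,
    Instr.pop (M + 7) (51 + M + P.length) (51 + M + P.length) (51 + M + P.length),
    Instr.push (M + 3) false, Instr.push (M + 1) false, Instr.pop (M + 7) 8 8 8] ++
  -- 53 + M + P.length: output
  [Instr.pop (M + 3) (54 + M + P.length) (56 + M + P.length) (57 + M + P.length),
    Instr.push 1 false,
    Instr.pop (M + 7) (57 + M + P.length) (57 + M + P.length) (57 + M + P.length),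
    Instr.push 1 true])))))))))))

/-- **LOOP** (90 min; from T_CP, T_MV, T_CLR, T_GROW; templates `RelB/P_XOR.lean`: `stk_bound`, `emb`,
`rel`, `run_rel`, `prog_length`, `prog1` ..., `main`). The program `lp M P` with `M ≥ 10`, all stacks of `P`
below `M`. Invariant at the head `⟨8, f⟩` of the loop number `i ≤ n = |x|`: `f M = x.reverse`,
`f (M + 1) = replicate i false`, `f (M + 2) = replicate (n - i) false`, `f (M + 3) = [XR A x i]`,
`f (M + 4) = ... = f (M + 7) = []`, `f 1 = []`, `(f s).length ≤ 2 n + T (2 n)` for `s < M`. One loop takes at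
most `1 + M (2 n + T (2 n) + 1) + (14 n + 8) + T (2 n) + 6` steps (use `∃ t ≤ ..., (step O R)^[t] ⟨8, f⟩ =
⟨8, f'⟩`), as in `XOR_.main` by `run_rel` with `rel 0 M P.length (46 + M) F ⟨0, update (fun _ => []) 0 (x ++ sw n i)⟩`
and `hP (x ++ sw n i)`, `(x ++ sw n i).length = 2 n`. The end by `halts_mono`, `stay`. -/
def T_LOOP : Prop := ∀ (O A : Lang) (P : List Instr) (T : ℕ → ℕ), Decides O P A T →
  ∃ (P' : List Instr) (C : ℕ), ∀ T' : ℕ → ℕ,
    (∀ n, C * (n + 1) * (T (2 * n) + n + 1) ≤ T' n) → Decides O P' (XL A) T'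

/-- **LOOPA** (30 min; from T_LOOP): `E`, `E_2` and polynomial time relative to an oracle are closed under
`XL` (templates for the estimates: `XOR_.time1`, `XOR_.time2`). -/
def T_LOOPA : Prop := ∀ O A : Lang, (A ∈ E1 O → XL A ∈ E1 O) ∧ (A ∈ E2 O → XL A ∈ E2 O) ∧
  (A ∈ PT O → XL A ∈ PT O)

/-- **PX** (30 min): polynomial time relative to `A` contains `A` (the program asks: `ask 0 ..`) and the
empty language, and it is closed under `x ↦ x ++ c` (`APP_.decides`) and under symmetric differences
(`XOR_.main`). -/
def T_PX : Prop := ∀ A : Lang, A ∈ PT A ∧ (fun _ => false) ∈ PT A ∧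
  (∀ (L : Lang) (c : List Bool), L ∈ PT A → (fun x => L (x ++ c)) ∈ PT A) ∧
  (∀ L M : Lang, L ∈ PT A → M ∈ PT A → (fun x => xor (L x) (M x)) ∈ PT A)

end Pool.Agent.RelC
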