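import Pool.Agent.RelB.Targets
import Pool.Agent.RelC.Mach

/-!
# An oracle relative to which the Boolean hierarchy over `NP` has dimension `0` and `Δ_2^p` is not null

The oracle is the one of `Pool.Agent.RelB.Core`, with one change: the number of the options depends
on the stage and tends to infinity, and the multiplier of a pair is not periodic: among the words
`x ++ u` with `|u| = |x| = n` there are `n` special words, the `i`-th of them is fair if the option is
`i`.
-/

set_option autoImplicit false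

namespace Pool.Agent.RelC

open MeasureTheory Set
open scoped ENNReal
open Pool.Agent.RelM (Lang Instr Cfg step run Halts Decides E1 E2 NP pair triple binVal outVal
  Approx IsDensity str pre IsNullCover Null1 Null2 wq sq0 sq1 Asks hq code qb)
open Pool.Agent.RelO (lev IsGale IsGaleCover GaleNull1 GaleNull2 st)
open Pool.Agent.RelS (Z Rl orcV orc acc Idx Om bern bern_prob Dep mixP gf PF Low)
open Pool.Agent.RelB (ML lcode mcs xacc qbs BH md md_pos md_spec qf ee Hist ix ix_str seto)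

/-! ## Parameters -/

/-- The number of the `i`-th special word of the word number `t`: `x ++ 0^(n-1-i) 1 0^i` for
`x = str t`, `n = |x|`. -/
def wn (t i : ℕ) : ℕ := (t + 1) * 2 ^ Nat.log 2 (t + 1) + 2 ^ i - 1

/-- The parameters: `K v` options for the coins that are old for the first time at stage `v`, the
factors `lam i` of the options, the multipliers `mu κ t` of the word number `t` in the family `κ`,
weights of the options and a bound `av v * log 2` for the mean entropy. -/
structure Par : Type where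
  K : ℕ → ℕ
  av : ℕ → ℝ
  lam : ℕ → ℝ
  mu : ℕ → ℕ → ℝ
  B : ℕ → ℕ
  pv : ℕ → ℕ → ℝ
  av0 : ∀ v, 0 ≤ av v
  avl : Filter.Tendsto av Filter.atTop (nhds 0)
  K1 : ∀ v, 1 ≤ K v
  Kl : ∀ v, K v ≤ v + 1
  lam0 : ∀ i, 0 ≤ lam i
  mu0 : ∀ κ t, 0 ≤ mu κ t
  bd : ∀ v i κ t, i < K v → lam i * mu κ t ≤ B v
  pv0 : ∀ v i, 0 ≤ pv v i
  pv1 : ∀ v, ∑ i ∈ Finset.range (K v), pv v i = 1
  cov : ∀ (v : ℕ) (D : Type) (_ : Fintype D) (e : D → ℝ) (A : Set (D → Bool)), (∀ d, 0 ≤ e d) →
    Low A → ∑ i ∈ Finset.range (K v), pv v i *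
      Real.binEntropy (PF (fun d => Real.exp (-(lam i * e d))) A) ≤ av v * Real.log 2
  sp : ∀ κ t i : ℕ, i < Nat.log 2 (t + 1) → lam i * mu κ (wn t i) = Real.log 2

/-! ## Stages -/

/-- Stage `j` must begin at least here. -/
noncomputable def thr (Φ : Par) (j : ℕ) : ℕ :=
  sInf {N | j + 2 ≤ N ∧ 2 * Φ.B (j + 1) + 2 ≤ N ∧ 2 ^ j ≤ N ∧ ∀ n, N ≤ n →
    qbs (mcs j) (n + j) + 2 < 2 ^ n ∧ 2 * (qbs (mcs j) (n + j) : ℝ) * Φ.B (j + 1) ≤ md j * 2 ^ n}

/-- The beginning of stage `j`. The gambler of stage `j` bets on the words with the numbers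
`2 ^ nn Φ j, ..., 2 ^ (nn Φ j + j) - 1`. -/
noncomputable def nn (Φ : Par) : ℕ → ℕ
  | 0 => thr Φ 0
  | j + 1 => max (max (qbs (mcs j) (nn Φ j + j)) (nn Φ j + j) + 1) (thr Φ (j + 1))

/-- The coins of cost `m` are old for the first time at stage `jj Φ m`. -/
noncomputable def jj (Φ : Par) (m : ℕ) : ℕ := sInf {j | m < nn Φ j}

/-! ## Coins -/

/-- The exponent of a coin. -/
noncomputable def ex (Φ : Par) (a : Idx) : ℝ :=
  Φ.lam a.2.2.2 * Φ.mu a.1 (ix a.2.1) / 2 ^ lev a.1 a.2.1

/-- The probability that a coin is `false`. -/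
noncomputable def sv (Φ : Par) (a : Idx) : ℝ := Real.exp (-ex Φ a)

theorem sv_pos (Φ : Par) (a : Idx) : 0 < sv Φ a := Real.exp_pos _

theorem ex_nonneg (Φ : Par) (a : Idx) : 0 ≤ ex Φ a := by
  unfold ex
  have h1 := Φ.lam0 a.2.2.2
  have h2 := Φ.mu0 a.1 (ix a.2.1)
  positivity

theorem sv_le_one (Φ : Par) (a : Idx) : sv Φ a ≤ 1 :=
  Real.exp_le_one_iff.2 (by linarith [ex_nonneg Φ a])

/-- The measure of a coin. -/
noncomputable def cm (Φ : Par) (a : Idx) : Measure Bool := bern (sv Φ a)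

instance (Φ : Par) (a : Idx) : IsProbabilityMeasure (cm Φ a) :=
  bern_prob (sv_pos Φ a).le (sv_le_one Φ a)

/-- Independent coins. -/
noncomputable def coin (Φ : Par) : Measure Om := Measure.infinitePi (cm Φ)

instance (Φ : Par) : IsProbabilityMeasure (coin Φ) := by unfold coin; infer_instance

/-- The coins older than stage `j`. -/
def Old (Φ : Par) (j : ℕ) : Set Idx :=
  {a | lev a.1 a.2.1 < nn Φ j ∧ a.2.2.1.length = lev a.1 a.2.1 ∧
    a.2.2.2 < Φ.K (jj Φ (lev a.1 a.2.1))}

/-- The world of the sample `ω` with the options `o`. -/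
noncomputable def zz (Φ : Par) (o : ℕ → ℕ) (ω : Om) : Z := fun κ x y =>
  ω (κ, x, y, o (jj Φ (lev κ x)))

/-! ## The supergales -/

/-- The probabilities of `true` that are used. -/
noncomputable def hv (Φ : Par) (η : ℕ → ℕ → ℝ) (j t : ℕ) : ℝ :=
  if 2 ^ nn Φ j ≤ t ∧ t < 2 ^ (nn Φ j + j) then max 0 (min 1 (η j t)) else 1 / 2

/-- The probability given to `w` at stage `j`. -/
noncomputable def Pw (Φ : Par) (η : ℕ → ℕ → ℝ) (j : ℕ) (w : List Bool) : ℝ :=
  ∏ t ∈ Finset.range w.length, qf (hv Φ η j t) (w.getD t false)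

/-- The probability given to `w`. -/
noncomputable def PP (Φ : Par) (η : ℕ → ℕ → ℝ) (w : List Bool) : ℝ :=
  ∑ j ∈ Finset.range w.length, (1 / 2 : ℝ) ^ (j + 1) * Pw Φ η j w +
    (1 / 2 : ℝ) ^ w.length * (1 / 2 : ℝ) ^ w.length

/-- The parameter of the supergale number `k`. -/
noncomputable def sK (_ : Par) (k : ℕ) : ℝ := min 2 (1 / (((ee k).2 : ℝ) + 1))

/-- The supergale number `k`. -/
noncomputable def dd (Φ : Par) (η : ℕ → ℕ → ℝ) (k : ℕ) (w : List Bool) : ℝ :=
  (1 / 2 : ℝ) ^ k * (2 : ℝ) ^ (sK Φ k * w.length) * PP Φ η w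

/-- The numerator of the approximation. -/
noncomputable def num (Φ : Par) (η : ℕ → ℕ → ℝ) (k r : ℕ) (w : List Bool) : ℕ :=
  ⌊(2 : ℝ) ^ (r + 1) * dd Φ η k w⌋₊

open Classical in
/-- The bits of the numerators of the approximations. -/
noncomputable def bitsOf (Φ : Par) (η : ℕ → ℕ → ℝ) : Lang := fun u => decide (
  (∃ j k r w, u = hq false false j k r w ∧ j < Nat.size (num Φ η k r w)) ∨
  (∃ j k r w, u = hq false true j k r w ∧ Nat.testBit (num Φ η k r w) j = true) ∨
  (∃ j k r w, u = hq true false j k r w ∧ j < r + 1))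

/-! ## Options and probabilities -/

/-- The oracle of a history. -/
noncomputable def oh (Φ : Par) (h : Hist) (ω : Om) : Lang := orc (bitsOf Φ h.2) (zz Φ h.1 ω)

/-- An odd number of the machines of stage `j` accept the word number `t`. -/
def ans (Φ : Par) (j : ℕ) (h : Hist) (ω : Om) (t : ℕ) : Prop := xacc (oh Φ h ω) (mcs j) (str t)

/-- The probability that the word number `t` is accepted with the option `i`, given the coins
older than stage `j`. -/
noncomputable def pa (Φ : Par) (j : ℕ) (h : Hist) (ω : Om) (t i : ℕ) : ℝ :=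
  (coin Φ).real {τ | ans Φ j (seto h j i) (mixP (Old Φ j) ω τ) t}

/-- The words on which the gambler of stage `j` bets. -/
noncomputable def Wd (Φ : Par) (j : ℕ) : Finset ℕ := Finset.Ico (2 ^ nn Φ j) (2 ^ (nn Φ j + j))

/-- The sum of the entropies of stage `j` with the option `i`. -/
noncomputable def He (Φ : Par) (j : ℕ) (h : Hist) (ω : Om) (i : ℕ) : ℝ :=
  ∑ t ∈ Wd Φ j, Real.binEntropy (pa Φ j h ω t i)

open Classical in
/-- The best option for stage `j`. -/
noncomputable def best (Φ : Par) (j : ℕ) (h : Hist) (ω : Om) : ℕ :=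
  if hx : ∃ i < Φ.K (j + 1), He Φ j h ω i ≤
      (((mcs j).length : ℝ) * Φ.av (j + 1) * Real.log 2 + 1 / ((j : ℝ) + 1)) *
        2 ^ (nn Φ j + j) then
    hx.choose else 0

/-- The history after the stages before `j`. -/
noncomputable def hs (Φ : Par) (ω : Om) : ℕ → Hist
  | 0 => (fun _ => 0, fun _ _ => 1 / 2)
  | j + 1 => (Function.update (hs Φ ω j).1 (j + 1) (best Φ j (hs Φ ω j) ω),
      Function.update (hs Φ ω j).2 j fun t => pa Φ j (hs Φ ω j) ω t (best Φ j (hs Φ ω j) ω))

/-- The options and the probabilities. -/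
noncomputable def hf (Φ : Par) (ω : Om) : Hist :=
  (fun j => (hs Φ ω j).1 j, fun j => (hs Φ ω (j + 1)).2 j)

/-- The world. -/
noncomputable def zo (Φ : Par) (ω : Om) : Z := zz Φ (hf Φ ω).1 ω

/-- The oracle. -/
noncomputable def oo (Φ : Par) (ω : Om) : Lang := oh Φ (hf Φ ω) ω

/-! ## Hiding -/

/-- The stage at which the coins of the pair κ, x become old. -/
noncomputable def bl (Φ : Par) (κ : ℕ) (x : List Bool) : ℕ := jj Φ (lev κ x)

/-- The pairs visible to a gambler who bets on the word number `t` of `Rl z κ`. -/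
def SS (Φ : Par) (κ t : ℕ) : ℕ → List Bool → Prop := fun κ' x =>
  lev κ' x < nn Φ (bl Φ κ (str t)) ∧ ¬ (κ' = κ ∧ ∃ t', t ≤ t' ∧ x = str t')

/-- The oracle in which only these pairs are visible, and only the part `11` that can be read. -/
noncomputable def ov (Φ : Par) (κ t : ℕ) (ω : Om) : Lang :=
  orcV (SS Φ κ t) (bitsOf Φ (hs Φ ω (bl Φ κ (str t))).2) (zz Φ (hs Φ ω (bl Φ κ (str t))).1 ω)

/-- The probability that the word number `t` has no key, given the visible coins. -/
noncomputable def rt (Φ : Par) (κ t : ℕ) (ω : Om) : ℝ :=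
  Real.exp (-(Φ.lam ((hs Φ ω (bl Φ κ (str t))).1 (bl Φ κ (str t))) * Φ.mu κ t))

end Pool.Agent.RelC
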