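import Pool.Agent.RelC.NN
import Pool.Agent.RelC.MEAS
import Pool.Agent.RelM.HIT
import Pool.Agent.RelM.LOC

/-!
# Finding a hidden key
-/

set_option autoImplicit false

namespace Pool.Agent.RelC

open MeasureTheory Set
open scoped ENNReal
open Pool.Agent.RelT (Fast)
open Pool.Agent.RelB (ML lcode mcs xacc qbs BH md md_pos md_spec qf ee Hist ix ix_str seto)
open Pool.Agent.RelM (Lang Instr Cfg step run Halts pair str pre wq sq0 sq1 Asks hq)
open Pool.Agent.RelO (lev levmono)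
open Pool.Agent.RelS (Z Rl orcV orc Idx Om Dep mixP fd meas_of_dep ovis ocut bern)

namespace HIT_

/-- Hidden pairs are expensive. -/
lemma hidden_ge (Φ : Par) (κ t : ℕ) {κ' : ℕ} {x' : List Bool}
    (h : ¬ SS Φ κ t κ' x') : lev κ (str t) ≤ lev κ' x' := by
  by_cases h1 : lev κ' x' < nn Φ (bl Φ κ (str t))
  · have h2 : κ' = κ ∧ ∃ t', t ≤ t' ∧ x' = str t' := by
      by_contra h3
      exact h ⟨h1, h3⟩
    obtain ⟨rfl, t', ht, rfl⟩ := h2
    refine levmono _ _ _ ?_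
    rw [Pool.Agent.RelM.strlen, Pool.Agent.RelM.strlen]
    exact Nat.log_mono_right (by omega)
  · have := (jjspec Φ (lev κ (str t))).1
    unfold bl at h1
    omega

/-- The stage of a cost. -/
lemma stage (Φ : Par) {m l : ℕ} (h0 : nn Φ 0 ≤ m) (hl : m ≤ l) :
    ∃ i, nn Φ i ≤ l ∧ l < nn Φ (i + 1) ∧ jj Φ m ≤ i + 1 := by
  obtain ⟨h1, h2⟩ := jjspec Φ l
  have hpos : jj Φ l ≠ 0 := by
    intro h
    rw [h] at h1
    omega
  refine ⟨jj Φ l - 1, h2 _ (by omega), ?_, ?_⟩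
  · rw [show jj Φ l - 1 + 1 = jj Φ l by omega]
    exact h1
  · by_contra h3
    have := (jjspec Φ m).2 (jj Φ l) (by omega)
    omega

lemma bl_succ (Φ : Par) (κ t : ℕ) (h0 : nn Φ 0 ≤ lev κ (str t)) :
    ∃ J, bl Φ κ (str t) = J + 1 ∧ nn Φ J ≤ lev κ (str t) ∧ lev κ (str t) < nn Φ (J + 1) := by
  obtain ⟨i, h1, h2, _⟩ := stage Φ h0 le_rfl
  exact ⟨i, jj_eq h1 h2, h1, h2⟩

/-- The coins of the pair κ, x. -/
def pc (κ : ℕ) (x : List Bool) : Set Idx := {a | a.1 = κ ∧ a.2.1 = x}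

/-- The hidden oracle depends only on the visible coins. -/
lemma ov_dep (Φ : Par) (κ t : ℕ) (h0 : nn Φ 0 ≤ lev κ (str t)) {ω ω' : Om}
    (h : ∀ a ∈ Vis Φ κ t, ω a = ω' a) : ov Φ κ t ω = ov Φ κ t ω' := by
  obtain ⟨J, hJ, hJ1, hJ2⟩ := bl_succ Φ κ t h0
  have hh : hs Φ ω (J + 1) = hs Φ ω' (J + 1) := by
    refine hsdep Φ J ω ω' fun a ha => h a ⟨?_, ?_⟩
    · rw [hJ]
      exact old_mono Φ (Nat.le_succ J) ha
    · rintro ⟨h1, t', ht', h2⟩
      have h3 : lev a.1 a.2.1 < nn Φ J := ha.1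
      rw [h1, h2] at h3
      have h4 : lev κ (str t) ≤ lev κ (str t') := by
        refine levmono _ _ _ ?_
        rw [Pool.Agent.RelM.strlen, Pool.Agent.RelM.strlen]
        exact Nat.log_mono_right (by omega)
      omega
  funext q
  unfold ov
  rw [hJ, hh]
  refine ovis _ _ _ _ (fun κ₁ x₁ y₁ hs₁ hy₁ => ?_) q
  unfold zz
  refine h _ ⟨⟨hs₁.1, hy₁, ?_⟩, ?_⟩
  · exact opt Φ ω' (J + 1) _
  · rintro ⟨h1, t', ht', h2⟩
    exact hs₁.2 ⟨h1, t', ht', h2⟩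

/-- The event that `wq κ' x' y` with a hidden pair is asked at step `s`. -/
def A (Φ : Par) (κ t : ℕ) (Pr : List Instr) (X : Om → List Bool) (s : ℕ)
    (i : ℕ × List Bool × List Bool) : Set Om :=
  {ω | ¬ SS Φ κ t i.1 i.2.1 ∧ Asks (ov Φ κ t ω) Pr (X ω) s (wq i.1 i.2.1 i.2.2)}

lemma visfin (Φ : Par) (κ t : ℕ) : (Vis Φ κ t).Finite :=
  (oldfin Φ _).subset fun _ h => h.1

lemma A_iff (Φ : Par) (κ t : ℕ) (h0 : nn Φ 0 ≤ lev κ (str t)) {Pr : List Instr}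
    {X : Om → List Bool} (hX : Dep (Vis Φ κ t) X) (s : ℕ) (i : ℕ × List Bool × List Bool)
    {ω ω' : Om} (h : ∀ a ∈ Vis Φ κ t, ω a = ω' a) :
    ω ∈ A Φ κ t Pr X s i ↔ ω' ∈ A Φ κ t Pr X s i := by
  show (_ ∧ Asks (ov Φ κ t ω) Pr (X ω) s _) ↔ (_ ∧ Asks (ov Φ κ t ω') Pr (X ω') s _)
  rw [ov_dep Φ κ t h0 h, hX ω ω' h]

lemma A_meas (Φ : Par) (κ t : ℕ) (h0 : nn Φ 0 ≤ lev κ (str t)) {Pr : List Instr}
    {X : Om → List Bool} (hX : Dep (Vis Φ κ t) X) (s : ℕ) (i : ℕ × List Bool × List Bool) :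
    MeasurableSet (A Φ κ t Pr X s i) :=
  fd (visfin Φ κ t) fun _ _ h => A_iff Φ κ t h0 hX s i h

/-- The coins of a hidden pair are not visible. -/
lemma hidden_notMem (Φ : Par) (κ t : ℕ) {κ' : ℕ} {x' : List Bool} (hS : ¬ SS Φ κ t κ' x')
    {a : Idx} (ha : a ∈ Vis Φ κ t) : a ∉ pc κ' x' := by
  rintro ⟨h1, h2⟩
  apply hS
  rw [← h1, ← h2]
  exact ⟨ha.1.1, fun h => ha.2 h⟩

lemma one_sub_sv_le (Φ : Par) {κ' : ℕ} {x' y : List Bool} {o m i : ℕ} (ho : o < Φ.K (i + 1))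
    (hm0 : nn Φ i ≤ lev κ' x') (hm : m ≤ lev κ' x') :
    ENNReal.ofReal (1 - sv Φ (κ', x', y, o)) ≤ (2⁻¹ : ℝ≥0∞) ^ (m / 2) := by
  have h1 : 1 - sv Φ (κ', x', y, o) ≤ ex Φ (κ', x', y, o) := by
    unfold sv
    have := Real.add_one_le_exp (-ex Φ (κ', x', y, o))
    linarith
  have h2 : ex Φ (κ', x', y, o) ≤ (Φ.B (i + 1) : ℝ) / 2 ^ lev κ' x' := by
    unfold ex
    exact div_le_div_of_nonneg_right (Φ.bd (i + 1) o κ' _ ho) (by positivity)
  have h3 : (Φ.B (i + 1) : ℝ) / 2 ^ lev κ' x' ≤ (2⁻¹ : ℝ) ^ (m / 2) := by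
    have h4 := nnb Φ i
    have h5 : (Φ.B (i + 1) : ℝ) * 2 ^ (m / 2) ≤ 2 ^ lev κ' x' := by
      have h6 : Φ.B (i + 1) * 2 ^ (m / 2) ≤ 2 ^ lev κ' x' := by
        calc Φ.B (i + 1) * 2 ^ (m / 2) ≤ 2 ^ Φ.B (i + 1) * 2 ^ (m / 2) :=
              Nat.mul_le_mul_right _ Nat.lt_two_pow_self.le
          _ = 2 ^ (Φ.B (i + 1) + m / 2) := (pow_add _ _ _).symm
          _ ≤ 2 ^ lev κ' x' := Nat.pow_le_pow_right (by norm_num) (by omega)
      exact_mod_cast h6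
    rw [div_le_iff₀ (by positivity)]
    have h7 : (2⁻¹ : ℝ) ^ (m / 2) * 2 ^ (m / 2) = 1 := by
      rw [← mul_pow]; norm_num
    have h8 : (Φ.B (i + 1) : ℝ) = (2⁻¹ : ℝ) ^ (m / 2) * (Φ.B (i + 1) * 2 ^ (m / 2)) := by
      calc (Φ.B (i + 1) : ℝ) = Φ.B (i + 1) * ((2⁻¹ : ℝ) ^ (m / 2) * 2 ^ (m / 2)) := by
            rw [h7, mul_one]
        _ = _ := by ring
    rw [h8]
    exact mul_le_mul_of_nonneg_left h5 (by positivity)
  calc ENNReal.ofReal (1 - sv Φ (κ', x', y, o)) ≤ ENNReal.ofReal ((2⁻¹ : ℝ) ^ (m / 2)) :=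
        ENNReal.ofReal_le_ofReal ((h1.trans h2).trans h3)
    _ = (2⁻¹ : ℝ≥0∞) ^ (m / 2) := by
        rw [ENNReal.ofReal_pow (by norm_num), ENNReal.ofReal_inv_of_pos (by norm_num)]
        norm_num

/-- A hidden key is hit with small probability. -/
lemma hit_one (Φ : Par) (κ t : ℕ) (h0 : nn Φ 0 ≤ lev κ (str t)) {Pr : List Instr}
    {X : Om → List Bool} (hX : Dep (Vis Φ κ t) X) (s : ℕ) (i : ℕ × List Bool × List Bool) :
    coin Φ (A Φ κ t Pr X s i ∩ {ω | zo Φ ω i.1 i.2.1 i.2.2 = true}) ≤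
      (2⁻¹ : ℝ≥0∞) ^ (lev κ (str t) / 2) * coin Φ (A Φ κ t Pr X s i) := by
  obtain ⟨κ', x', y⟩ := i
  by_cases hS : SS Φ κ t κ' x'
  · have : A Φ κ t Pr X s (κ', x', y) = ∅ := by
      ext ω
      constructor
      · intro h
        exact (h.1 hS).elim
      · intro h
        exact h.elim
    rw [this]
    simp
  have hge := hidden_ge Φ κ t hS
  obtain ⟨i, h1, h2, h3⟩ := stage Φ h0 hge
  have hjj : jj Φ (lev κ' x') = i + 1 := jj_eq h1 h2
  -- the option of the pair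
  let O : Om → ℕ := fun ω => (hs Φ ω (i + 1)).1 (i + 1)
  have hO : ∀ ω, (hf Φ ω).1 (i + 1) = O ω := fun ω => rfl
  have hOd : Dep (Old Φ i) O := by
    intro ω ω' h
    show (hs Φ ω (i + 1)).1 (i + 1) = (hs Φ ω' (i + 1)).1 (i + 1)
    rw [hsdep Φ i ω ω' h]
  have hOK : ∀ ω, O ω < Φ.K (i + 1) := fun ω => opt Φ ω (i + 1) (i + 1)
  let B : ℕ → Set Om := fun o => A Φ κ t Pr X s (κ', x', y) ∩ {ω | O ω = o}
  have hAm := A_meas Φ κ t h0 (Pr := Pr) hX s (κ', x', y)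
  have hOm : Measurable O := meas_of_dep (oldfin Φ i) hOd
  have hBm : ∀ o, MeasurableSet (B o) := fun o => hAm.inter (hOm (measurableSet_singleton o))
  have hBd : ∀ o, Dep (pc κ' x')ᶜ ((B o).indicator (1 : Om → ℝ≥0∞)) := by
    intro o ω ω' h
    have hA : ω ∈ A Φ κ t Pr X s (κ', x', y) ↔ ω' ∈ A Φ κ t Pr X s (κ', x', y) :=
      A_iff Φ κ t h0 hX s _ fun a ha => h a (hidden_notMem Φ κ t hS ha)
    have hO' : O ω = O ω' := by
      refine hOd ω ω' fun a ha => h a ?_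
      rintro ⟨e1, e2⟩
      have : lev a.1 a.2.1 < nn Φ i := ha.1
      rw [e1, e2] at this
      omega
    have hB : ω ∈ B o ↔ ω' ∈ B o := by
      show (_ ∧ O ω = o) ↔ (_ ∧ O ω' = o)
      rw [hA, hO']
    by_cases hω : ω ∈ B o
    · rw [Set.indicator_of_mem hω, Set.indicator_of_mem (hB.1 hω)]
      rfl
    · rw [Set.indicator_of_notMem hω, Set.indicator_of_notMem fun h => hω (hB.2 h)]
  have hCm : ∀ o, MeasurableSet {ω : Om | ω (κ', x', y, o) = true} := fun o =>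
    fd (Set.finite_singleton ((κ', x', y, o) : Idx)) fun ω ω' h => by
      show ω (κ', x', y, o) = true ↔ ω' (κ', x', y, o) = true
      rw [h _ rfl]
  have hCd : ∀ o, Dep (pc κ' x') (({ω : Om | ω (κ', x', y, o) = true}).indicator
      (1 : Om → ℝ≥0∞)) := by
    intro o ω ω' h
    have : ω (κ', x', y, o) = ω' (κ', x', y, o) := h _ ⟨rfl, rfl⟩
    by_cases hω : ω (κ', x', y, o) = true
    · rw [Set.indicator_of_mem (show ω ∈ {ω : Om | ω (κ', x', y, o) = true} from hω),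
        Set.indicator_of_mem
          (show ω' ∈ {ω : Om | ω (κ', x', y, o) = true} from this.symm.trans hω)]
      rfl
    · rw [Set.indicator_of_notMem (show ω ∉ {ω : Om | ω (κ', x', y, o) = true} from hω),
        Set.indicator_of_notMem
          (show ω' ∉ {ω : Om | ω (κ', x', y, o) = true} from fun h' => hω (this.trans h'))]
  have hsub : A Φ κ t Pr X s (κ', x', y) ∩ {ω | zo Φ ω κ' x' y = true} ⊆
      ⋃ o ∈ Finset.range (Φ.K (i + 1)), (B o ∩ {ω : Om | ω (κ', x', y, o) = true}) := by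
    rintro ω ⟨hA, hz⟩
    simp only [Set.mem_iUnion, Finset.mem_range]
    refine ⟨O ω, hOK ω, ⟨hA, rfl⟩, ?_⟩
    have hz' : ω (κ', x', y, (hf Φ ω).1 (jj Φ (lev κ' x'))) = true := hz
    rw [hjj] at hz'
    exact hz'
  calc coin Φ (A Φ κ t Pr X s (κ', x', y) ∩ {ω | zo Φ ω κ' x' y = true})
      ≤ coin Φ (⋃ o ∈ Finset.range (Φ.K (i + 1)), (B o ∩ {ω : Om | ω (κ', x', y, o) = true})) :=
        measure_mono hsub
    _ ≤ ∑ o ∈ Finset.range (Φ.K (i + 1)), coin Φ (B o ∩ {ω : Om | ω (κ', x', y, o) = true}) :=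
        measure_biUnion_finset_le _ _
    _ ≤ ∑ o ∈ Finset.range (Φ.K (i + 1)), (2⁻¹ : ℝ≥0∞) ^ (lev κ (str t) / 2) * coin Φ (B o) := by
        refine Finset.sum_le_sum fun o ho => ?_
        have hi := indep Φ (p := pc κ' x')
          (F := ({ω : Om | ω (κ', x', y, o) = true}).indicator 1) (G := (B o).indicator 1)
          (measurable_one.indicator (hCm o)) (measurable_one.indicator (hBm o)) (hCd o) (hBd o)
        rw [lintegral_indicator_one (hCm o), lintegral_indicator_one (hBm o), coin_true] at hi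
        have hmul : ∀ ω : Om, ({ω : Om | ω (κ', x', y, o) = true}).indicator (1 : Om → ℝ≥0∞) ω *
            (B o).indicator 1 ω =
            (B o ∩ {ω : Om | ω (κ', x', y, o) = true}).indicator 1 ω := by
          intro ω
          by_cases ha : ω ∈ B o <;> by_cases hb : ω (κ', x', y, o) = true <;>
            simp [Set.indicator, ha, hb]
        simp only [hmul] at hi
        rw [lintegral_indicator_one ((hBm o).inter (hCm o))] at hi
        rw [hi]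
        gcongr
        exact one_sub_sv_le Φ (Finset.mem_range.1 ho) h1 hge
    _ = (2⁻¹ : ℝ≥0∞) ^ (lev κ (str t) / 2) * ∑ o ∈ Finset.range (Φ.K (i + 1)), coin Φ (B o) := by
        rw [Finset.mul_sum]
    _ ≤ (2⁻¹ : ℝ≥0∞) ^ (lev κ (str t) / 2) * coin Φ (A Φ κ t Pr X s (κ', x', y)) := by
        gcongr
        rw [← measure_biUnion_finset]
        · refine measure_mono ?_
          intro ω hω
          simp only [Set.mem_iUnion] at hω
          obtain ⟨o, _, hω⟩ := hω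
          exact hω.1
        · intro o _ o' _ hne
          rw [Function.onFun, Set.disjoint_left]
          rintro ω ⟨_, e1⟩ ⟨_, e2⟩
          have e1' : O ω = o := e1
          have e2' : O ω = o' := e2
          exact hne (e1'.symm.trans e2')
        · exact fun o _ => hBm o

end HIT_

open HIT_ in
/-- Finding a hidden key. -/
theorem hit (bloc : T_BLOC) : T_HIT := by
  intro Φ κ t Pr X τ hm0 hXd hXl
  set m := lev κ (str t) with hm
  -- the events that a hidden key is asked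
  have hsub : {ω | ∃ s ≤ τ, run (oo Φ ω) Pr (X ω) s ≠ run (ov Φ κ t ω) Pr (X ω) s} ⊆
      ⋃ s ∈ Finset.range τ, ⋃ i : ℕ × List Bool × List Bool,
        (A Φ κ t Pr X s i ∩ {ω | zo Φ ω i.1 i.2.1 i.2.2 = true}) := by
    intro ω hω
    by_contra hcon
    simp only [Set.mem_iUnion, Finset.mem_range, not_exists, exists_prop, not_and] at hcon
    obtain ⟨s, hsτ, hne⟩ := hω
    apply hne
    refine Pool.Agent.RelM.loc _ _ Pr (X ω) τ (fun s' hs' q hq => ?_) s hsτ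
    by_contra hne'
    have hlen := Pool.Agent.RelM.len _ _ _ _ _ hq
    have hXl' := hXl ω
    have hz : ∀ κ₁ x₁ y₁, SS Φ κ t κ₁ x₁ → y₁.length = lev κ₁ x₁ →
        zz Φ (hf Φ ω).1 ω κ₁ x₁ y₁ = zz Φ (hs Φ ω (bl Φ κ (str t))).1 ω κ₁ x₁ y₁ := by
      intro κ₁ x₁ y₁ hS _
      unfold zz
      rw [(hsval Φ ω (bl Φ κ (str t))).1 (jj Φ (lev κ₁ x₁)) ?_]
      by_contra hlt
      have h5 := (jjspec Φ (lev κ₁ x₁)).2 (bl Φ κ (str t)) (by omega)
      have := hS.1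
      omega
    rcases ocut (SS Φ κ t) (bitsOf Φ (hf Φ ω).2) (bitsOf Φ (hs Φ ω (bl Φ κ (str t))).2)
      (zz Φ (hf Φ ω).1 ω) (zz Φ (hs Φ ω (bl Φ κ (str t))).1 ω) hz q
      (fun h => hne' h.symm) with
      ⟨κ', x', y', hS, hy', hq', hz'⟩ | ⟨κ', x', m', hS, hq', hm'⟩ | ⟨u, hq', hu⟩
    · refine hcon s' hs' (κ', x', y') ⟨⟨hS, ?_⟩, hz'⟩
      rw [← hq']
      exact hq
    · have h2 := Pool.Agent.RelM.HitJob.le_length_sq1 κ' x' m'
      rw [← hq'] at h2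
      have h4 : 2 ^ m ≤ 2 ^ lev κ' x' :=
        Nat.pow_le_pow_right (by norm_num) (hidden_ge Φ κ t hS)
      omega
    · apply hu
      refine bloc Φ _ _ u fun j hj => ?_
      have h5 : j < bl Φ κ (str t) := by
        by_contra h6
        have h7 : nn Φ (bl Φ κ (str t)) ≤ nn Φ j := (nnmono Φ).monotone (by omega)
        have h10 : m < nn Φ (bl Φ κ (str t)) := (jjspec Φ m).1
        have h8 : 2 ^ m ≤ 2 ^ nn Φ j := Nat.pow_le_pow_right (by norm_num) (by omega)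
        have h9 : q.length = u.length + 2 := by rw [hq']; simp
        omega
      exact ((hsval Φ ω (bl Φ κ (str t))).2 j h5).symm
  have hdisj : ∀ s, Pairwise (Function.onFun Disjoint (A Φ κ t Pr X s)) := by
    intro s i j hij
    rw [Function.onFun, Set.disjoint_left]
    rintro ω ⟨_, h1⟩ ⟨_, h2⟩
    apply hij
    obtain ⟨e1, e2, e3⟩ := Pool.Agent.RelM.HitJob.wq_inj' (Pool.Agent.RelM.one _ _ _ _ _ _ h1 h2)
    exact Prod.ext e1 (Prod.ext e2 e3)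
  calc coin Φ {ω | ∃ s ≤ τ, run (oo Φ ω) Pr (X ω) s ≠ run (ov Φ κ t ω) Pr (X ω) s}
      ≤ coin Φ (⋃ s ∈ Finset.range τ, ⋃ i : ℕ × List Bool × List Bool,
        (A Φ κ t Pr X s i ∩ {ω | zo Φ ω i.1 i.2.1 i.2.2 = true})) := measure_mono hsub
    _ ≤ ∑ s ∈ Finset.range τ, coin Φ (⋃ i : ℕ × List Bool × List Bool,
        (A Φ κ t Pr X s i ∩ {ω | zo Φ ω i.1 i.2.1 i.2.2 = true})) :=
        measure_biUnion_finset_le _ _
    _ ≤ ∑ _s ∈ Finset.range τ, (2⁻¹ : ℝ≥0∞) ^ (m / 2) := by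
        refine Finset.sum_le_sum fun s _ => ?_
        calc coin Φ (⋃ i : ℕ × List Bool × List Bool,
              (A Φ κ t Pr X s i ∩ {ω | zo Φ ω i.1 i.2.1 i.2.2 = true}))
            ≤ ∑' i : ℕ × List Bool × List Bool,
              coin Φ (A Φ κ t Pr X s i ∩ {ω | zo Φ ω i.1 i.2.1 i.2.2 = true}) :=
              measure_iUnion_le _
          _ ≤ ∑' i, (2⁻¹ : ℝ≥0∞) ^ (m / 2) * coin Φ (A Φ κ t Pr X s i) :=
              ENNReal.tsum_le_tsum fun i => hit_one Φ κ t hm0 hXd s i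
          _ = (2⁻¹ : ℝ≥0∞) ^ (m / 2) * coin Φ (⋃ i, A Φ κ t Pr X s i) := by
              rw [ENNReal.tsum_mul_left, measure_iUnion (hdisj s) fun i =>
                A_meas Φ κ t hm0 hXd s i]
          _ ≤ (2⁻¹ : ℝ≥0∞) ^ (m / 2) * 1 := by
              gcongr
              exact prob_le_one
          _ = (2⁻¹ : ℝ≥0∞) ^ (m / 2) := mul_one _
    _ = τ * (2⁻¹ : ℝ≥0∞) ^ (m / 2) := by
        rw [Finset.sum_const, Finset.card_range, nsmul_eq_mul]

end Pool.Agent.RelC
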