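import Pool.Agent.RelC.STGT
import Pool.Agent.RelB.IO

/-!
# The gambler succeeds infinitely often
-/

set_option autoImplicit false

namespace Pool.Agent.RelC

open MeasureTheory Set
open scoped ENNReal
open Pool.Agent.RelT (Fast)
open Pool.Agent.RelB (ML lcode mcs xacc qbs BH md md_pos md_spec qf ee Hist ix ix_str seto T_ENT
  qf_nonneg qf_sum pre_length pre_getD mcs_pair)
open Pool.Agent.RelM (Lang Instr Cfg run Halts pair triple str pre hq wq sq0 sq1 Asks code qb)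
open Pool.Agent.RelO (lev st)
open Pool.Agent.RelS (Z Rl orcV orc acc Idx Om Dep mixP gf PF Low fd meas_of_dep mixP_pos
  mixP_neg mixP_meas)

/-- The history of stage `j`. -/
noncomputable def hb (Φ : Par) (j : ℕ) (ω : Om) : Hist :=
  seto (hs Φ ω j) j (best Φ j (hs Φ ω j) ω)

/-- The probability of acceptance used at stage `j`. -/
noncomputable def pp (Φ : Par) (j t : ℕ) (ω : Om) : ℝ :=
  pa Φ j (hs Φ ω j) ω t (best Φ j (hs Φ ω j) ω)

theorem pp_eq (Φ : Par) (j t : ℕ) (ω : Om) : (hf Φ ω).2 j t = pp Φ j t ω := by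
  show (hs Φ ω (j + 1)).2 j t = _
  rw [hs_succ]
  show (Function.update (hs Φ ω j).2 j
    (fun t => pa Φ j (hs Φ ω j) ω t (best Φ j (hs Φ ω j) ω))) j t = _
  rw [Function.update_self]
  rfl

theorem pp0 (Φ : Par) (j t : ℕ) (ω : Om) : 0 ≤ pp Φ j t ω := by
  unfold pp pa
  exact measureReal_nonneg

theorem pp1 (Φ : Par) (j t : ℕ) (ω : Om) : pp Φ j t ω ≤ 1 := by
  unfold pp pa
  exact measureReal_le_one

theorem hf1_lt (Φ : Par) (ω : Om) (i : ℕ) : (hf Φ ω).1 i < Φ.K i := opt Φ ω i i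

theorem hb_lt (Φ : Par) (j : ℕ) (ω : Om) (i : ℕ) : (hb Φ j ω).1 i < Φ.K i := by
  show Function.update (hs Φ ω j).1 (j + 1) (best Φ j (hs Φ ω j) ω) i < Φ.K i
  by_cases h : i = j + 1
  · subst h
    rw [Function.update_self]
    exact best_lt _ _ _ _
  · rw [Function.update_of_ne h]
    exact opt Φ ω j i

/-- The machine of stage `j` accepts the word number `t` in the end. -/
def Tr (Φ : Par) (j t : ℕ) (ω : Om) : Prop := xacc (oo Φ ω) (mcs j) (str t)

/-- The answers do not change after stage `j`. -/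
theorem truth_iff {Φ : Par} {j : ℕ} (ω : Om) {t : ℕ} (ht : t ∈ Wd Φ j) :
    Tr Φ j t ω ↔ ans Φ j (hb Φ j ω) ω t := by
  refine accl Φ j t (hf Φ ω) (hb Φ j ω) ω ω ht (fun i hi => ?_) (fun i _ => hf1_lt Φ ω i)
    (fun i hi => ?_) fun _ _ => rfl
  · exact ((hsval Φ ω (j + 1)).1 i hi).symm
  · exact ((hsval Φ ω j).2 i hi).symm

theorem hs_congr {Φ : Par} {j : ℕ} {ω ω' : Om} (h : ∀ a ∈ Old Φ j, ω a = ω' a) :
    hs Φ ω j = hs Φ ω' j := by
  cases j with
  | zero => rfl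
  | succ j => exact hsdep Φ j ω ω' fun a ha => h a (old_mono Φ (Nat.le_succ j) ha)

theorem hb_congr {Φ : Par} {j : ℕ} {ω ω' : Om} (h : ∀ a ∈ Old Φ j, ω a = ω' a) :
    hb Φ j ω = hb Φ j ω' := by
  unfold hb
  rw [hs_congr h, best_congr h]

theorem pp_congr {Φ : Par} {j t : ℕ} {ω ω' : Om} (h : ∀ a ∈ Old Φ j, ω a = ω' a) :
    pp Φ j t ω = pp Φ j t ω' := by
  unfold pp
  rw [hs_congr h, best_congr h, pa_congr h]

theorem tr_dep {Φ : Par} {j : ℕ} {ω ω' : Om} {t : ℕ} (ht : t ∈ Wd Φ j)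
    (hw : ∀ a ∈ Old Φ (j + 1), ω a = ω' a) : Tr Φ j t ω ↔ Tr Φ j t ω' := by
  rw [truth_iff ω ht, truth_iff ω' ht,
    hb_congr fun a ha => hw a (old_mono Φ (Nat.le_succ j) ha)]
  exact accl Φ j t _ _ ω ω' ht (fun _ _ => rfl) (fun i _ => hb_lt Φ j ω' i) (fun _ _ => rfl) hw

open Classical in
/-- The probability given to the answer on the word number `t`. -/
noncomputable def ql (Φ : Par) (j t : ℕ) (ω : Om) : ℝ := qf (pp Φ j t ω) (decide (Tr Φ j t ω))

theorem ql_dep {Φ : Par} {j : ℕ} {ω ω' : Om} {t : ℕ} (ht : t ∈ Wd Φ j)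
    (hw : ∀ a ∈ Old Φ (j + 1), ω a = ω' a) : ql Φ j t ω = ql Φ j t ω' := by
  unfold ql
  rw [pp_congr fun a ha => hw a (old_mono Φ (Nat.le_succ j) ha),
    decide_eq_decide.2 (tr_dep ht hw)]

theorem ql0 (Φ : Par) (j t : ℕ) (ω : Om) : 0 ≤ ql Φ j t ω :=
  qf_nonneg (pp0 Φ j t ω) (pp1 Φ j t ω) _

theorem ql1 (Φ : Par) (j t : ℕ) (ω : Om) : ql Φ j t ω ≤ 1 := by
  unfold ql qf
  have h0 := pp0 Φ j t ω
  have h1 := pp1 Φ j t ω
  split_ifs <;> linarith

/-- The loss of stage `j`. -/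
noncomputable def loss (Φ : Par) (j : ℕ) (ω : Om) : ℝ := ∑ t ∈ Wd Φ j, -Real.log (ql Φ j t ω)

/-- Stage `j` fails. -/
def fail (Φ : Par) (δ : ℝ) (j : ℕ) : Set Om :=
  {ω | δ * 2 ^ (nn Φ j + j) ≤ loss Φ j ω ∨ ∃ t ∈ Wd Φ j, ql Φ j t ω = 0}

theorem fail_dep {Φ : Par} {δ : ℝ} {j : ℕ} {ω ω' : Om} (hw : ∀ a ∈ Old Φ (j + 1), ω a = ω' a) :
    ω ∈ fail Φ δ j ↔ ω' ∈ fail Φ δ j := by
  have h1 : loss Φ j ω = loss Φ j ω' := by
    unfold loss
    refine Finset.sum_congr rfl fun t ht => ?_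
    rw [ql_dep ht hw]
  unfold fail
  simp only [Set.mem_ofPred_eq]
  rw [h1]
  refine or_congr Iff.rfl ?_
  refine exists_congr fun t => and_congr_right fun ht => ?_
  rw [ql_dep ht hw]

theorem fail_meas (Φ : Par) (δ : ℝ) (j : ℕ) : MeasurableSet (fail Φ δ j) :=
  fd (oldfin Φ (j + 1)) fun _ _ h => fail_dep h

/-- The conditional law of an answer. -/
theorem tr_prob {Φ : Par} {j t : ℕ} (ht : t ∈ Wd Φ j) (ω : Om) :
    MeasurableSet {τ | Tr Φ j t (mixP (Old Φ j) ω τ)} ∧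
    (coin Φ).real {τ | Tr Φ j t (mixP (Old Φ j) ω τ)} = pp Φ j t ω := by
  have h0 : ∀ τ, ∀ a ∈ Old Φ j, mixP (Old Φ j) ω τ a = ω a := fun τ a ha => mixP_pos ha
  constructor
  · refine fd (oldfin Φ (j + 1)) fun τ τ' h => ?_
    refine tr_dep ht fun a ha => ?_
    by_cases h3 : a ∈ Old Φ j
    · rw [mixP_pos h3, mixP_pos h3]
    · rw [mixP_neg h3, mixP_neg h3]
      exact h a ha
  · have h1 : {τ | Tr Φ j t (mixP (Old Φ j) ω τ)} =
        {τ | ans Φ j (hb Φ j ω) (mixP (Old Φ j) ω τ) t} := by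
      ext τ
      show Tr Φ j t (mixP (Old Φ j) ω τ) ↔ _
      rw [truth_iff _ ht, hb_congr (h0 τ)]
      rfl
    rw [h1]
    rfl

open Classical in
/-- The mean of a function of an answer. -/
theorem tr_lint {Φ : Par} {j t : ℕ} (ht : t ∈ Wd Φ j) (ω : Om) (f : Bool → ℝ≥0∞) :
    ∫⁻ τ, f (decide (Tr Φ j t (mixP (Old Φ j) ω τ))) ∂(coin Φ) =
      f true * ENNReal.ofReal (pp Φ j t ω) + f false * ENNReal.ofReal (1 - pp Φ j t ω) := by
  obtain ⟨hm, hp⟩ := tr_prob ht ω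
  obtain ⟨S, hS⟩ : ∃ S, S = {τ | Tr Φ j t (mixP (Old Φ j) ω τ)} := ⟨_, rfl⟩
  rw [← hS] at hm hp
  have h1 : ∀ τ, f (decide (Tr Φ j t (mixP (Old Φ j) ω τ))) =
      f true * S.indicator 1 τ + f false * Sᶜ.indicator 1 τ := by
    intro τ
    by_cases h : τ ∈ S
    · have h' : Tr Φ j t (mixP (Old Φ j) ω τ) := by rw [hS] at h; exact h
      rw [indicator_of_mem h, indicator_of_notMem (by simpa using h)]
      simp [h']
    · have h' : ¬ Tr Φ j t (mixP (Old Φ j) ω τ) := by rw [hS] at h; exact h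
      rw [indicator_of_notMem h, indicator_of_mem (by simpa using h)]
      simp [h']
  simp only [h1]
  rw [lintegral_add_left ((measurable_one.indicator hm).const_mul _),
    lintegral_const_mul _ (measurable_one.indicator hm),
    lintegral_const_mul _ (measurable_one.indicator hm.compl),
    lintegral_indicator_one hm, lintegral_indicator_one hm.compl]
  have h2 : coin Φ S = ENNReal.ofReal (pp Φ j t ω) := by
    rw [← hp, Measure.real, ENNReal.ofReal_toReal (measure_ne_top _ _)]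
  have h3 : coin Φ Sᶜ = ENNReal.ofReal (1 - pp Φ j t ω) := by
    rw [← hp, ← probReal_compl_eq_one_sub hm, Measure.real,
      ENNReal.ofReal_toReal (measure_ne_top _ _)]
  rw [h2, h3]

/-- The mean loss. -/
theorem loss_lint {Φ : Par} {j t : ℕ} (ht : t ∈ Wd Φ j) (ω : Om) :
    ∫⁻ τ, ENNReal.ofReal (-Real.log (ql Φ j t (mixP (Old Φ j) ω τ))) ∂(coin Φ) =
      ENNReal.ofReal (Real.binEntropy (pp Φ j t ω)) := by
  classical
  have h0 : ∀ τ, pp Φ j t (mixP (Old Φ j) ω τ) = pp Φ j t ω := fun τ =>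
    pp_congr fun a ha => mixP_pos ha
  have h1 : ∀ τ, ENNReal.ofReal (-Real.log (ql Φ j t (mixP (Old Φ j) ω τ))) =
      (fun b : Bool => ENNReal.ofReal (-Real.log (qf (pp Φ j t ω) b)))
        (decide (Tr Φ j t (mixP (Old Φ j) ω τ))) := by
    intro τ
    show ENNReal.ofReal (-Real.log (ql Φ j t (mixP (Old Φ j) ω τ))) =
      ENNReal.ofReal (-Real.log (qf (pp Φ j t ω) (decide (Tr Φ j t (mixP (Old Φ j) ω τ)))))
    unfold ql
    rw [h0]
  simp only [h1]
  refine (tr_lint ht ω fun b => ENNReal.ofReal (-Real.log (qf (pp Φ j t ω) b))).trans ?_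
  have hp0 := pp0 Φ j t ω
  have hp1 := pp1 Φ j t ω
  generalize pp Φ j t ω = p at hp0 hp1
  have e1 : qf p true = p := by simp [qf]
  have e2 : qf p false = 1 - p := by simp [qf]
  have l1 : 0 ≤ -Real.log p := by
    have := Real.log_nonpos hp0 hp1
    linarith
  have l2 : 0 ≤ -Real.log (1 - p) := by
    have := Real.log_nonpos (x := 1 - p) (by linarith) (by linarith)
    linarith
  rw [e1, e2, ← ENNReal.ofReal_mul l1, ← ENNReal.ofReal_mul l2,
    ← ENNReal.ofReal_add (mul_nonneg l1 hp0) (mul_nonneg l2 (by linarith))]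
  congr 1
  rw [Real.binEntropy, Real.log_inv, Real.log_inv]
  ring

/-- Stage `j` fails with probability less than one, given the old coins. -/
theorem fail_prob (hENT : T_ENT) {Φ : Par} {δ : ℝ} (hδ : 0 < δ) {j : ℕ} (hj : ((mcs j).length : ℝ) * Φ.av (j + 1) * Real.log 2 + 1 / ((j : ℝ) + 1) ≤ δ / 2)
    (ω : Om) : coin Φ {τ | mixP (Old Φ j) ω τ ∈ fail Φ δ j} ≤
      ENNReal.ofReal (1 / 2) := by
  classical
  obtain ⟨R, hR⟩ : ∃ R, R = δ * 2 ^ (nn Φ j + j) := ⟨_, rfl⟩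
  have hR0 : 0 < R := by rw [hR]; positivity
  -- the measurability
  have hmm : Measurable fun τ => mixP (Old Φ j) ω τ :=
    (mixP_meas (Old Φ j)).comp (measurable_const.prodMk measurable_id)
  have hlm : ∀ t ∈ Wd Φ j, Measurable fun ω => ql Φ j t ω := fun t ht =>
    meas_of_dep (oldfin Φ (j + 1)) fun ω ω' h => ql_dep ht h
  have hlm' : ∀ t ∈ Wd Φ j, Measurable fun τ =>
      ENNReal.ofReal (-Real.log (ql Φ j t (mixP (Old Φ j) ω τ))) := fun t ht =>
    (((Real.measurable_log.comp ((hlm t ht).comp hmm))).neg).ennreal_ofReal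
  have hnn : ∀ τ, ∀ t ∈ Wd Φ j, 0 ≤ -Real.log (ql Φ j t (mixP (Old Φ j) ω τ)) := by
    intro τ t _
    have := Real.log_nonpos (ql0 Φ j t (mixP (Old Φ j) ω τ)) (ql1 Φ j t _)
    linarith
  -- the mean loss
  have hmean : ∫⁻ τ, ENNReal.ofReal (loss Φ j (mixP (Old Φ j) ω τ)) ∂(coin Φ) ≤
      ENNReal.ofReal (δ / 2 * 2 ^ (nn Φ j + j)) := by
    have h1 : ∀ τ, ENNReal.ofReal (loss Φ j (mixP (Old Φ j) ω τ)) =
        ∑ t ∈ Wd Φ j, ENNReal.ofReal (-Real.log (ql Φ j t (mixP (Old Φ j) ω τ))) := by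
      intro τ
      unfold loss
      exact ENNReal.ofReal_sum_of_nonneg (hnn τ)
    simp only [h1]
    rw [lintegral_finsetSum _ hlm', Finset.sum_congr rfl fun t ht => loss_lint ht ω,
      ← ENNReal.ofReal_sum_of_nonneg fun t _ =>
        Real.binEntropy_nonneg (pp0 Φ j t ω) (pp1 Φ j t ω)]
    apply ENNReal.ofReal_le_ofReal
    exact ((stg hENT Φ j ω).2).trans (mul_le_mul_of_nonneg_right hj (by positivity))
  have hM : ENNReal.ofReal R * coin Φ {τ | ENNReal.ofReal R ≤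
      ENNReal.ofReal (loss Φ j (mixP (Old Φ j) ω τ))} ≤
      ENNReal.ofReal (δ / 2 * 2 ^ (nn Φ j + j)) := by
    refine (mul_meas_ge_le_lintegral ?_ _).trans hmean
    have h1 : ∀ τ, ENNReal.ofReal (loss Φ j (mixP (Old Φ j) ω τ)) =
        ∑ t ∈ Wd Φ j, ENNReal.ofReal (-Real.log (ql Φ j t (mixP (Old Φ j) ω τ))) := by
      intro τ
      unfold loss
      exact ENNReal.ofReal_sum_of_nonneg (hnn τ)
    simp only [h1]
    exact Finset.measurable_sum _ hlm'
  have hM' : coin Φ {τ | ENNReal.ofReal R ≤ ENNReal.ofReal (loss Φ j (mixP (Old Φ j) ω τ))} ≤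
      ENNReal.ofReal (1 / 2) := by
    have h1 : (1 / 2 : ℝ) = δ / 2 * 2 ^ (nn Φ j + j) / R := by
      rw [hR, mul_div_mul_right _ _ (by positivity)]
      field_simp
    rw [h1, ENNReal.ofReal_div_of_pos hR0,
      ENNReal.le_div_iff_mul_le (Or.inl (by simpa using hR0)) (Or.inl ENNReal.ofReal_ne_top),
      mul_comm]
    exact hM
  -- the answers of probability zero
  have hZ : ∀ t ∈ Wd Φ j, coin Φ {τ | ql Φ j t (mixP (Old Φ j) ω τ) = 0} = 0 := by
    intro t ht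
    have h0 : ∀ τ, pp Φ j t (mixP (Old Φ j) ω τ) = pp Φ j t ω := fun τ =>
      pp_congr fun a ha => mixP_pos ha
    have h1 := tr_lint ht ω fun b => if qf (pp Φ j t ω) b = 0 then (1 : ℝ≥0∞) else 0
    have h2 : ∀ τ, (if qf (pp Φ j t ω) (decide (Tr Φ j t (mixP (Old Φ j) ω τ))) = 0 then
        (1 : ℝ≥0∞) else 0) =
        ({τ | ql Φ j t (mixP (Old Φ j) ω τ) = 0} : Set Om).indicator 1 τ := by
      intro τ
      by_cases h : ql Φ j t (mixP (Old Φ j) ω τ) = 0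
      · have h' : τ ∈ ({τ | ql Φ j t (mixP (Old Φ j) ω τ) = 0} : Set Om) := h
        rw [indicator_of_mem h']
        unfold ql at h
        rw [h0] at h
        rw [if_pos h]
        rfl
      · have h' : τ ∉ ({τ | ql Φ j t (mixP (Old Φ j) ω τ) = 0} : Set Om) := h
        rw [indicator_of_notMem h']
        unfold ql at h
        rw [h0] at h
        rw [if_neg h]
    simp only [h2] at h1
    have h3 : MeasurableSet {τ | ql Φ j t (mixP (Old Φ j) ω τ) = 0} :=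
      ((hlm t ht).comp hmm) (measurableSet_singleton 0)
    rw [lintegral_indicator_one h3] at h1
    rw [h1]
    have e1 : qf (pp Φ j t ω) true = pp Φ j t ω := by simp [qf]
    have e2 : qf (pp Φ j t ω) false = 1 - pp Φ j t ω := by simp [qf]
    rw [e1, e2]
    by_cases h4 : pp Φ j t ω = 0
    · simp [h4]
    · by_cases h5 : 1 - pp Φ j t ω = 0
      · simp [h4, h5]
      · simp [h4, h5]
  have hZ' : coin Φ {τ | ∃ t ∈ Wd Φ j, ql Φ j t (mixP (Old Φ j) ω τ) = 0} = 0 := by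
    have h1 : {τ | ∃ t ∈ Wd Φ j, ql Φ j t (mixP (Old Φ j) ω τ) = 0} =
        ⋃ t ∈ Wd Φ j, {τ | ql Φ j t (mixP (Old Φ j) ω τ) = 0} := by
      ext τ
      simp
    rw [h1]
    refine le_antisymm ((measure_biUnion_finset_le _ _).trans ?_) zero_le
    rw [Finset.sum_eq_zero hZ]
  have hsub : {τ | mixP (Old Φ j) ω τ ∈ fail Φ δ j} ⊆
      {τ | ENNReal.ofReal R ≤ ENNReal.ofReal (loss Φ j (mixP (Old Φ j) ω τ))} ∪
        {τ | ∃ t ∈ Wd Φ j, ql Φ j t (mixP (Old Φ j) ω τ) = 0} := by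
    rintro τ (h | h)
    · left
      rw [← hR] at h
      exact ENNReal.ofReal_le_ofReal h
    · exact Or.inr h
  refine (measure_mono hsub).trans ((measure_union_le _ _).trans ?_)
  rw [hZ', add_zero]
  exact hM'

theorem fail_part (hENT : T_ENT) {Φ : Par} {δ : ℝ} (hδ : 0 < δ) {j : ℕ} (hj : ((mcs j).length : ℝ) * Φ.av (j + 1) * Real.log 2 + 1 / ((j : ℝ) + 1) ≤ δ / 2)
    {H : Om → ℝ≥0∞} (hH : Measurable H) (dH : Dep (Old Φ j) H) :
    ∫⁻ ω in fail Φ δ j, H ω ∂(coin Φ) ≤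
      ENNReal.ofReal (1 / 2) *
        ∫⁻ ω, H ω ∂(coin Φ) := by
  rw [lint_mix Φ (fail_meas Φ δ j) hH dH, ← lintegral_const_mul _ hH]
  refine lintegral_mono fun ω => ?_
  show H ω * _ ≤ _ * H ω
  rw [mul_comm]
  gcongr
  exact fail_prob hENT hδ hj ω

/-! ## Infinitely many stages succeed -/

theorem succ_ae (hENT : T_ENT) (Φ : Par) {δ : ℝ} (hδ : 0 < δ) (e n : ℕ) :
    ∀ᵐ ω ∂(coin Φ), ∃ m, n ≤ m ∧ ω ∉ fail Φ δ (Nat.pair e m) := by
  have hlim : Filter.Tendsto (fun j : ℕ => ((lcode e).length : ℝ) * Φ.av (j + 1) * Real.log 2 +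
      1 / ((j : ℝ) + 1)) Filter.atTop (nhds 0) := by
    have h1 := (Filter.tendsto_add_atTop_iff_nat 1).2 Φ.avl
    have h2 := (h1.const_mul ((lcode e).length : ℝ)).mul_const (Real.log 2)
    have h3 := h2.add tendsto_one_div_add_atTop_nhds_zero_nat
    simpa using h3
  obtain ⟨n', hn'⟩ := Filter.eventually_atTop.1 (hlim.eventually (gt_mem_nhds
    (show (0 : ℝ) < δ / 2 by positivity)))
  obtain ⟨n₀, hn₀⟩ : ∃ n₀, n₀ = max n n' := ⟨_, rfl⟩
  have hnn : n ≤ n₀ := by rw [hn₀]; exact le_max_left _ _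
  have hnn' : n' ≤ n₀ := by rw [hn₀]; exact le_max_right _ _
  have hu : StrictMono fun m => Nat.pair e (n₀ + m) := by
    refine strictMono_nat_of_lt_succ fun m => ?_
    exact Nat.pair_lt_pair_right e (by omega)
  have hsmall : ∀ m, ((mcs (Nat.pair e (n₀ + m))).length : ℝ) *
      Φ.av (Nat.pair e (n₀ + m) + 1) * Real.log 2 +
      1 / (((Nat.pair e (n₀ + m) : ℕ) : ℝ) + 1) ≤ δ / 2 := by
    intro m
    rw [mcs_pair]
    refine (hn' _ ?_).le
    have := Nat.right_le_pair e (n₀ + m)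
    omega
  obtain ⟨A, hA⟩ : ∃ A : ℕ → Set Om,
      ∀ m, A m = {ω | ∀ i < m, ω ∈ fail Φ δ (Nat.pair e (n₀ + i))} := ⟨_, fun _ => rfl⟩
  have hd : ∀ m, ∀ ω ω' : Om, (∀ a ∈ Old Φ (Nat.pair e (n₀ + m)), ω a = ω' a) →
      (ω ∈ A m ↔ ω' ∈ A m) := by
    intro m ω ω' h
    rw [hA]
    simp only [Set.mem_ofPred_eq]
    refine forall_congr' fun i => forall_congr' fun hi => ?_
    refine fail_dep fun a ha => h a (old_mono Φ ?_ ha)
    exact hu hi
  have hAm : ∀ m, MeasurableSet (A m) := fun m => fd (oldfin Φ _) (hd m)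
  have hp : ∀ m, coin Φ (A m) ≤ ENNReal.ofReal (1 / 2) ^ m := by
    intro m
    induction m with
    | zero => simpa using prob_le_one
    | succ m ih =>
      have h1 : A (m + 1) = A m ∩ fail Φ δ (Nat.pair e (n₀ + m)) := by
        rw [hA, hA]
        ext ω
        simp only [Set.mem_ofPred_eq, Set.mem_inter_iff]
        constructor
        · intro h
          exact ⟨fun i hi => h i (by omega), h m (by omega)⟩
        · rintro ⟨h2, h3⟩ i hi
          rcases Nat.lt_succ_iff_lt_or_eq.1 hi with h4 | h4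
          · exact h2 i h4
          · rw [h4]; exact h3
      have h2 := fail_part hENT hδ (hsmall m) (H := (A m).indicator 1)
        (measurable_one.indicator (hAm m)) (by
          intro ω ω' h
          have h3 := hd m ω ω' h
          by_cases h4 : ω ∈ A m
          · rw [indicator_of_mem h4, indicator_of_mem (h3.1 h4)]
            rfl
          · rw [indicator_of_notMem h4, indicator_of_notMem fun h5 => h4 (h3.2 h5)])
      rw [lintegral_indicator_one (hAm m), lintegral_indicator_one (hAm m),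
        Measure.restrict_apply (hAm m)] at h2
      rw [h1, pow_succ']
      exact h2.trans (by gcongr)
  rw [ae_iff]
  have h3 : {ω | ¬ ∃ m, n ≤ m ∧ ω ∉ fail Φ δ (Nat.pair e m)} ⊆ ⋂ m, A m := by
    intro ω hω
    rw [Set.mem_ofPred_eq] at hω
    push Not at hω
    rw [Set.mem_iInter]
    intro m
    rw [hA]
    intro i _
    exact hω (n₀ + i) (by omega)
  have h4 : ∀ m, coin Φ {ω | ¬ ∃ m, n ≤ m ∧ ω ∉ fail Φ δ (Nat.pair e m)} ≤
      ENNReal.ofReal (1 / 2) ^ m := fun m =>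
    (measure_mono (h3.trans (Set.iInter_subset _ m))).trans (hp m)
  have h5 : Filter.Tendsto (fun m : ℕ => ENNReal.ofReal (1 / 2) ^ m) Filter.atTop (nhds 0) :=
    ENNReal.tendsto_pow_atTop_nhds_zero_of_lt_one (by
      rw [ENNReal.ofReal_lt_one]
      norm_num)
  exact le_antisymm (ge_of_tendsto' h5 h4) zero_le

/-! ## The probability of the language -/

theorem Pw_low {Φ : Par} {δ : ℝ} {j : ℕ} {ω : Om} (hω : ω ∉ fail Φ δ j) :
    Real.exp (-(δ * 2 ^ (nn Φ j + j) + 2 ^ nn Φ j)) ≤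
      Pw Φ (hf Φ ω).2 j (pre (Lj Φ j ω) (2 ^ (nn Φ j + j))) := by
  classical
  obtain ⟨N, hN⟩ : ∃ N, N = 2 ^ (nn Φ j + j) := ⟨_, rfl⟩
  have hNn : 2 ^ nn Φ j ≤ N := by
    rw [hN]
    exact Nat.pow_le_pow_right (by norm_num) (by omega)
  have h1 : ¬ δ * 2 ^ (nn Φ j + j) ≤ loss Φ j ω := fun h => hω (Or.inl h)
  have h2 : ∀ t ∈ Wd Φ j, ql Φ j t ω ≠ 0 := fun t ht h => hω (Or.inr ⟨t, ht, h⟩)
  have hpos : ∀ t ∈ Wd Φ j, 0 < ql Φ j t ω := fun t ht =>
    lt_of_le_of_ne (ql0 Φ j t ω) (Ne.symm (h2 t ht))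
  have hprod : Pw Φ (hf Φ ω).2 j (pre (Lj Φ j ω) N) =
      (1 / 2) ^ 2 ^ nn Φ j * ∏ t ∈ Wd Φ j, ql Φ j t ω := by
    unfold Pw
    rw [pre_length, Finset.range_eq_Ico, ← Finset.prod_Ico_consecutive _ (Nat.zero_le _) hNn]
    congr 1
    · have h3 : ∀ t ∈ Finset.Ico 0 (2 ^ nn Φ j), qf (hv Φ (hf Φ ω).2 j t)
          ((pre (Lj Φ j ω) N).getD t false) = 1 / 2 := by
        intro t ht
        rw [Finset.mem_Ico] at ht
        have h4 : hv Φ (hf Φ ω).2 j t = 1 / 2 := by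
          unfold hv
          rw [if_neg (by omega)]
        rw [h4]
        unfold qf
        split_ifs <;> norm_num
      rw [Finset.prod_congr rfl h3, Finset.prod_const]
      simp
    · unfold Wd
      rw [hN]
      refine Finset.prod_congr rfl fun t ht => ?_
      have ht' := Finset.mem_Ico.1 ht
      rw [pre_getD _ ht'.2]
      have h4 : hv Φ (hf Φ ω).2 j t = pp Φ j t ω := by
        unfold hv
        rw [if_pos ht', pp_eq, min_eq_right (pp1 Φ j t ω), max_eq_right (pp0 Φ j t ω)]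
      rw [h4]
      rfl
  rw [← hN, hprod]
  have hexp : ∏ t ∈ Wd Φ j, ql Φ j t ω = Real.exp (-loss Φ j ω) := by
    unfold loss
    rw [Finset.sum_neg_distrib, neg_neg, Real.exp_sum]
    refine Finset.prod_congr rfl fun t ht => ?_
    rw [Real.exp_log (hpos t ht)]
  have hhalf : Real.exp (-(2 : ℝ) ^ nn Φ j) ≤ (1 / 2) ^ 2 ^ nn Φ j := by
    have h3 : Real.exp (-1) ≤ 1 / 2 := by
      rw [Real.exp_neg, one_div]
      apply inv_anti₀ (by norm_num)
      have := Real.add_one_le_exp (1 : ℝ)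
      linarith
    calc Real.exp (-(2 : ℝ) ^ nn Φ j) = Real.exp (-1) ^ 2 ^ nn Φ j := by
          rw [← Real.exp_nat_mul]
          push_cast
          ring_nf
      _ ≤ (1 / 2) ^ 2 ^ nn Φ j := by
          gcongr
  rw [hexp, neg_add, Real.exp_add, mul_comm]
  refine mul_le_mul hhalf (Real.exp_le_exp.2 ?_) (Real.exp_pos _).le (by positivity)
  linarith [not_le.1 h1]

theorem io (hENT : T_ENT) : T_IO := by
  intro Φ e δ hδ
  have h : ∀ᵐ ω ∂(coin Φ), ∀ n : ℕ, ∃ m, n ≤ m ∧ ω ∉ fail Φ δ (Nat.pair e m) :=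
    ae_all_iff.2 fun n => succ_ae hENT Φ hδ e n
  filter_upwards [h] with ω hω n
  obtain ⟨m, hm, hf⟩ := hω n
  refine ⟨Nat.pair e m, hm.trans (Nat.right_le_pair e m), ?_, Pw_low hf⟩
  unfold st
  rw [Nat.unpair_pair]

end Pool.Agent.RelC
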