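import Pool.Agent.RelC.FAIR

/-!
# The visible coins
-/

set_option autoImplicit false

namespace Pool.Agent.RelC

open MeasureTheory Set
open scoped ENNReal
open Pool.Agent.RelT (Fast)
open Pool.Agent.RelB (ML lcode mcs xacc qbs BH md md_pos md_spec qf ee Hist ix ix_str seto)
open Pool.Agent.RelM (Lang Instr Cfg step run Halts triple outVal Approx str pre)
open Pool.Agent.RelO (lev IsGale IsGaleCover levmono levfin)
open Pool.Agent.RelS (Rl Idx Om Dep meas_of_dep)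

namespace NONNULL_

/-- The hidden language. -/
noncomputable def RR (Φ : Par) (κ : ℕ) (ω : Om) : Lang := Rl (zo Φ ω) κ

/-! ### Visible coins -/

lemma lev_mono (κ : ℕ) {t t' : ℕ} (h : t ≤ t') : lev κ (str t) ≤ lev κ (str t') := by
  refine levmono _ _ _ ?_
  rw [Pool.Agent.RelM.strlen, Pool.Agent.RelM.strlen]
  exact Nat.log_mono_right (by omega)

/-- The stages of later words are later. -/
lemma bl_mono (Φ : Par) (κ : ℕ) : Monotone fun t => bl Φ κ (str t) := by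
  intro s t h
  show jj Φ (lev κ (str s)) ≤ jj Φ (lev κ (str t))
  have h1 := lev_mono κ h
  have h2 := (jjspec Φ (lev κ (str t))).1
  exact jj_le (by omega)

lemma vis_mono (Φ : Par) (κ : ℕ) {s t : ℕ} (h : s ≤ t) : Vis Φ κ s ⊆ Vis Φ κ t := by
  rintro a ⟨h1, h2⟩
  refine ⟨old_mono Φ (bl_mono Φ κ h) h1, ?_⟩
  rintro ⟨h3, t', ht', h4⟩
  exact h2 ⟨h3, t', by omega, h4⟩

lemma old_vis (Φ : Par) (κ : ℕ) {J t : ℕ} (h : J < bl Φ κ (str t)) : Old Φ J ⊆ Vis Φ κ t := by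
  intro a ha
  refine ⟨old_mono Φ h.le ha, ?_⟩
  rintro ⟨h1, t', ht', h2⟩
  have h3 : lev a.1 a.2.1 < nn Φ J := ha.1
  rw [h1, h2] at h3
  have h4 := lev_mono κ ht'
  have h5 : nn Φ J ≤ lev κ (str t) := (jjspec Φ (lev κ (str t))).2 J h
  omega

/-- The options that matter depend only on the visible coins. -/
lemma opt_dep (Φ : Par) (κ : ℕ) {s t : ℕ} (h : s ≤ t) {ω ω' : Om}
    (hω : ∀ a ∈ Vis Φ κ t, ω a = ω' a) :
    hs Φ ω (bl Φ κ (str s)) = hs Φ ω' (bl Φ κ (str s)) := by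
  rcases Nat.eq_zero_or_pos (bl Φ κ (str s)) with h0 | h0
  · rw [h0]
    rfl
  · obtain ⟨J, hJ⟩ : ∃ J, bl Φ κ (str s) = J + 1 := ⟨bl Φ κ (str s) - 1, by omega⟩
    rw [hJ]
    refine hsdep Φ J ω ω' fun a ha => hω a (old_vis Φ κ ?_ ha)
    have := bl_mono Φ κ h
    simp only at this
    omega

lemma rt_dep (Φ : Par) (κ : ℕ) {s t : ℕ} (h : s ≤ t) : Dep (Vis Φ κ t) (rt Φ κ s) := by
  intro ω ω' hω
  unfold rt
  rw [opt_dep Φ κ h hω]

lemma bit_dep (Φ : Par) (κ : ℕ) {s t : ℕ} (h : s < t) :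
    Dep (Vis Φ κ t) fun ω => RR Φ κ ω (str s) := by
  intro ω ω' hω
  have h1 : ∀ y : List Bool, y.length = lev κ (str s) →
      zo Φ ω κ (str s) y = zo Φ ω' κ (str s) y := by
    intro y hy
    show ω (κ, str s, y, (hs Φ ω (bl Φ κ (str s))).1 (bl Φ κ (str s))) =
      ω' (κ, str s, y, (hs Φ ω' (bl Φ κ (str s))).1 (bl Φ κ (str s)))
    rw [opt_dep Φ κ h.le hω]
    refine hω _ ⟨⟨?_, hy, opt Φ ω' _ _⟩, ?_⟩
    · show lev κ (str s) < nn Φ (bl Φ κ (str t))
      have e1 := lev_mono κ h.le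
      have e2 : lev κ (str t) < nn Φ (bl Φ κ (str t)) := (jjspec Φ (lev κ (str t))).1
      omega
    · rintro ⟨_, t', ht', h2⟩
      have := Pool.Agent.RelM.strinj h2
      omega
  show Rl (zo Φ ω) κ (str s) = Rl (zo Φ ω') κ (str s)
  unfold Rl
  rw [decide_eq_decide]
  refine exists_congr fun y => and_congr_right fun hy => ?_
  rw [h1 y hy]

/-- The late words have late keys. -/
theorem start (Φ : Par) (κ : ℕ) : ∀ t, 2 ^ nn Φ 0 ≤ t → nn Φ 0 ≤ lev κ (str t) := by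
  intro t ht
  have h2 := (levfin κ (str t) _ le_rfl).2
  rw [Pool.Agent.RelM.strlen] at h2
  refine le_trans ?_ h2
  rw [Nat.le_log_iff_pow_le (by norm_num) (by omega)]
  omega

end NONNULL_

end Pool.Agent.RelC
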