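import Pool.Agent.RelC.UPP
import Pool.Agent.RelC.NONNULL
import Pool.Agent.RelB.MAIN

/-!
# The theorem
-/

set_option autoImplicit false

namespace Pool.Agent.RelC

open MeasureTheory Set
open scoped ENNReal
open Pool.Agent.RelM (Lang Instr Cfg step run Halts Decides E1 E2 NP pair triple Approx IsDensity
  str pre IsNullCover Null1 Null2)
open Pool.Agent.RelO (lev IsGale IsGaleCover GaleNull1 GaleNull2)
open Pool.Agent.RelS (Z Rl orc acc Idx Om)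
open Pool.Agent.RelT (Fast fast1 fast2 npr e1r e2r)
open Pool.Agent.RelB (BH T_ENT T_AFF Dk Fam)
open Pool.Agent.RelB.MAIN_ (np_false e1_false e2_false part_eq)

namespace MAIN_

/-- No language is covered by supergales with a negative exponent. -/
theorem no_cover {s : ℝ} (hs : s < 0) {d : ℕ → List Bool → ℝ} {X : Set Lang} {A : Lang}
    (hA : A ∈ X) : ¬ IsGaleCover s d X := by
  intro h
  obtain ⟨h1, h2, h3⟩ := h 1
  obtain ⟨n, hn⟩ := h3 A hA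
  have h4 : (2 : ℝ) ^ s ≤ 1 := Real.rpow_le_one_of_one_le_of_nonpos (by norm_num) hs.le
  have h5 : ∀ w : List Bool, d 1 w ≤ d 1 [] := by
    intro w
    induction w using List.reverseRecOn with
    | nil => exact le_rfl
    | append_singleton w b ih =>
      have a1 := h1.le w
      have a2 := h1.nonneg (w ++ [false])
      have a3 := h1.nonneg (w ++ [true])
      have a4 := h1.nonneg w
      have a5 : (2 : ℝ) ^ s * d 1 w ≤ 1 * d 1 w := mul_le_mul_of_nonneg_right h4 a4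
      cases b <;> linarith
  have h6 := h5 (pre A n)
  norm_num at h2
  linarith

theorem no_gale {s : ℝ} (hs : s < 0) (O : Lang) :
    ¬ GaleNull1 s O (NP O ∩ E1 O) ∧ ¬ GaleNull2 s O (NP O ∩ E2 O) := by
  constructor
  · rintro ⟨d, hd, -⟩
    exact no_cover hs (X := NP O ∩ E1 O) (A := fun _ => false) ⟨np_false O, e1_false O⟩ hd
  · rintro ⟨d, hd, -⟩
    exact no_cover hs (X := NP O ∩ E2 O) (A := fun _ => false) ⟨np_false O, e2_false O⟩ hd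

/-- The languages `Dk` are in `Δ_2^p`. -/
theorem dk_pt (hSTR : Pool.Agent.RelB.T_STR) (hPX : T_PX) (z : Z) (κ ℓ : ℕ) (m : ℕ)
    (hm : m < 2 ^ ℓ) : Dk z κ ℓ m ∈ PT (Rl z κ) := by
  obtain ⟨p1, p2, p3, p4⟩ := hPX (Rl z κ)
  induction m with
  | zero => exact p2
  | succ m ih =>
    obtain ⟨c, hc⟩ := part_eq hSTR (z := z) (κ := κ) hm
    refine p4 (fun x => Rl z κ (str (Pool.Agent.RelB.wn ℓ (Pool.Agent.RelB.ix x) m))) _ ?_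
      (ih (by omega))
    rw [hc]
    exact p3 _ c p1

/-- If languages outside null covers are in the classes, the classes are not null. -/
theorem not_null {O : Lang} {X : Set Lang} {L : ℕ → Lang}
    (hX : ∀ κ, L κ ∈ X) (hE1 : ∀ κ, κ % 2 = 1 → L κ ∈ E1 O) (hE2 : ∀ κ, κ % 2 = 0 → L κ ∈ E2 O)
    (h1 : ∀ (κ c : ℕ) (Pr : List Instr), Fast κ (fun l => (l + 2) ^ c) →
      ¬ ∃ d : ℕ → List Bool → ℝ, IsNullCover d {L κ} ∧ Approx O Pr (fun l => (l + 2) ^ c) d)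
    (h2 : ∀ (κ c : ℕ) (Pr : List Instr), Fast κ (fun l => 2 ^ ((Nat.log 2 l + 2) ^ c)) →
      ¬ ∃ d : ℕ → List Bool → ℝ, IsNullCover d {L κ} ∧
        Approx O Pr (fun l => 2 ^ ((Nat.log 2 l + 2) ^ c)) d) :
    ¬ Null1 O (X ∩ E1 O) ∧ ¬ Null2 O (X ∩ E2 O) := by
  have hcov : ∀ (d : ℕ → List Bool → ℝ) (Y : Set Lang) (A : Lang), A ∈ Y → IsNullCover d Y →
      IsNullCover d {A} := fun d Y A hA hd k =>
    ⟨(hd k).1, (hd k).2.1, fun B hB => (hd k).2.2 B (by rw [show B = A from hB]; exact hA)⟩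
  constructor
  · rintro ⟨d, hd, Pr, c, hA⟩
    obtain ⟨κ₀, hκ₀⟩ := fast1 c
    have h5 : (2 * κ₀ + 1) % 2 = 1 := by omega
    exact h1 (2 * κ₀ + 1) c Pr (hκ₀ _ (by omega) h5)
      ⟨d, hcov d (X ∩ E1 O) _ ⟨hX _, hE1 _ h5⟩ hd, hA⟩
  · rintro ⟨d, hd, Pr, c, hA⟩
    obtain ⟨κ₀, hκ₀⟩ := fast2 c
    have h5 : (2 * κ₀) % 2 = 0 := by omega
    exact h2 (2 * κ₀) c Pr (hκ₀ _ (by omega) h5)
      ⟨d, hcov d (X ∩ E2 O) _ ⟨hX _, hE2 _ h5⟩ hd, hA⟩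

end MAIN_

open MAIN_

/-- `Δ_2^p` is not null, the case of the oracle of `RelC`. -/
theorem nonnull_c (hPX : T_PX) (hLA : T_LOOPA) (hNB : T_NONB) (Φ : Par) :
    ∀ᵐ ω ∂(coin Φ), ¬ Null1 (oo Φ ω) (D2 (oo Φ ω) ∩ E1 (oo Φ ω)) ∧
      ¬ Null2 (oo Φ ω) (D2 (oo Φ ω) ∩ E2 (oo Φ ω)) := by
  have a1 : ∀ᵐ ω ∂(coin Φ), ∀ (κ c : ℕ) (Pr : List Instr),
      Fast κ (fun l => (l + 2) ^ c) →
      ¬ ∃ d : ℕ → List Bool → ℝ, IsNullCover d {XL (Rl (zo Φ ω) κ)} ∧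
        Approx (oo Φ ω) Pr (fun l => (l + 2) ^ c) d := by
    refine ae_all_iff.2 fun κ => ae_all_iff.2 fun c => ae_all_iff.2 fun Pr => ?_
    by_cases h2 : Fast κ (fun l => (l + 2) ^ c)
    · filter_upwards [hNB Φ κ Pr _ h2] with ω hω _
      exact hω
    · exact Filter.Eventually.of_forall fun ω h => (h2 h).elim
  have a2 : ∀ᵐ ω ∂(coin Φ), ∀ (κ c : ℕ) (Pr : List Instr),
      Fast κ (fun l => 2 ^ ((Nat.log 2 l + 2) ^ c)) →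
      ¬ ∃ d : ℕ → List Bool → ℝ, IsNullCover d {XL (Rl (zo Φ ω) κ)} ∧
        Approx (oo Φ ω) Pr (fun l => 2 ^ ((Nat.log 2 l + 2) ^ c)) d := by
    refine ae_all_iff.2 fun κ => ae_all_iff.2 fun c => ae_all_iff.2 fun Pr => ?_
    by_cases h2 : Fast κ (fun l => 2 ^ ((Nat.log 2 l + 2) ^ c))
    · filter_upwards [hNB Φ κ Pr _ h2] with ω hω _
      exact hω
    · exact Filter.Eventually.of_forall fun ω h => (h2 h).elim
  filter_upwards [a1, a2] with ω h1 h2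
  refine not_null (L := fun κ => XL (Rl (zo Φ ω) κ)) (fun κ => ?_) (fun κ hκ => ?_)
    (fun κ hκ => ?_) h1 h2
  · exact ⟨Rl (zo Φ ω) κ, npr _ _ κ, (hLA _ _).2.2 (hPX _).1⟩
  · exact (hLA _ _).1 (e1r _ _ κ hκ)
  · exact (hLA _ _).2.1 (e2r _ _ κ hκ)

/-- `Δ_2^p` is not null, the case of the oracle of `RelB`. -/
theorem nonnull_b (hSTR : Pool.Agent.RelB.T_STR) (hAPP : Pool.Agent.RelB.T_APP)
    (hXOR : Pool.Agent.RelB.T_XOR) (hNB : Pool.Agent.RelB.T_NONB) (hPX : T_PX)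
    (Φ : Pool.Agent.RelT.Par) (hF : ∀ κ, ∃ ℓ, Fam Φ κ ℓ) :
    ∀ᵐ ω ∂(Pool.Agent.RelB.coin Φ),
      ¬ Null1 (Pool.Agent.RelB.oo Φ ω) (D2 (Pool.Agent.RelB.oo Φ ω) ∩
        E1 (Pool.Agent.RelB.oo Φ ω)) ∧
      ¬ Null2 (Pool.Agent.RelB.oo Φ ω) (D2 (Pool.Agent.RelB.oo Φ ω) ∩
        E2 (Pool.Agent.RelB.oo Φ ω)) := by
  choose ℓ hℓ using hF
  have a1 : ∀ᵐ ω ∂(Pool.Agent.RelB.coin Φ), ∀ (κ c : ℕ) (Pr : List Instr),
      Fast κ (fun l => (l + 2) ^ c) →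
      ¬ ∃ d : ℕ → List Bool → ℝ,
        IsNullCover d {Dk (Pool.Agent.RelB.zo Φ ω) κ (ℓ κ) Φ.K} ∧
        Approx (Pool.Agent.RelB.oo Φ ω) Pr (fun l => (l + 2) ^ c) d := by
    refine ae_all_iff.2 fun κ => ae_all_iff.2 fun c => ae_all_iff.2 fun Pr => ?_
    by_cases h2 : Fast κ (fun l => (l + 2) ^ c)
    · filter_upwards [hNB Φ κ (ℓ κ) Pr _ (hℓ κ) h2] with ω hω _
      exact hω
    · exact Filter.Eventually.of_forall fun ω h => (h2 h).elim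
  have a2 : ∀ᵐ ω ∂(Pool.Agent.RelB.coin Φ), ∀ (κ c : ℕ) (Pr : List Instr),
      Fast κ (fun l => 2 ^ ((Nat.log 2 l + 2) ^ c)) →
      ¬ ∃ d : ℕ → List Bool → ℝ,
        IsNullCover d {Dk (Pool.Agent.RelB.zo Φ ω) κ (ℓ κ) Φ.K} ∧
        Approx (Pool.Agent.RelB.oo Φ ω) Pr (fun l => 2 ^ ((Nat.log 2 l + 2) ^ c)) d := by
    refine ae_all_iff.2 fun κ => ae_all_iff.2 fun c => ae_all_iff.2 fun Pr => ?_
    by_cases h2 : Fast κ (fun l => 2 ^ ((Nat.log 2 l + 2) ^ c))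
    · filter_upwards [hNB Φ κ (ℓ κ) Pr _ (hℓ κ) h2] with ω hω _
      exact hω
    · exact Filter.Eventually.of_forall fun ω h => (h2 h).elim
  filter_upwards [a1, a2] with ω h1 h2
  refine not_null (L := fun κ => Dk (Pool.Agent.RelB.zo Φ ω) κ (ℓ κ) Φ.K) (fun κ => ?_)
    (fun κ hκ => ?_) (fun κ hκ => ?_) h1 h2
  · exact ⟨Rl (Pool.Agent.RelB.zo Φ ω) κ, npr _ _ κ, dk_pt hSTR hPX _ _ _ _ (hℓ κ).2.1⟩
  · exact Pool.Agent.RelB.MAIN_.dk_e1 hSTR hAPP hXOR _ _ hκ _ _ (hℓ κ).2.1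
  · exact Pool.Agent.RelB.MAIN_.dk_e2 hSTR hAPP hXOR _ _ hκ _ _ (hℓ κ).2.1

/-- The case `a = 0`. -/
theorem main_zero (hPAR : T_PAR) (hENT : T_ENT) (hAFF : T_AFF) (hPX : T_PX) (hLA : T_LOOPA)
    (hNB : T_NONB) : ∃ O : Lang,
      (∀ s : ℝ, 0 < s → GaleNull1 s O (⋃ m, BH O m) ∧ GaleNull2 s O (⋃ m, BH O m)) ∧
      ¬ Null1 O (D2 O ∩ E1 O) ∧ ¬ Null2 O (D2 O ∩ E2 O) := by
  obtain ⟨Φ⟩ := hPAR
  obtain ⟨ω, h1, h2⟩ := ((upp hENT hAFF Φ).and (nonnull_c hPX hLA hNB Φ)).exists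
  exact ⟨oo Φ ω, h1, h2⟩

/-- The case `0 < a`. -/
theorem main_pos (hPAR : Pool.Agent.RelB.T_PARF) (hENT : T_ENT) (hAFF : T_AFF)
    (hSTR : Pool.Agent.RelB.T_STR) (hNPA : Pool.Agent.RelB.T_NPA)
    (hAPP : Pool.Agent.RelB.T_APP) (hXOR : Pool.Agent.RelB.T_XOR)
    (hNB : Pool.Agent.RelB.T_NONB) (hNN : Pool.Agent.RelB.T_NONNULL) (hPX : T_PX) (a : ℝ)
    (h0 : 0 < a) (h1 : a < 1) : ∃ O : Lang,
      (∀ m : ℕ, (m : ℝ) * a < 1 → Null1 O (BH O m) ∧ Null2 O (BH O m)) ∧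
      (∀ m : ℕ, 1 < (m : ℝ) * a → ¬ Null1 O (BH O m ∩ E1 O) ∧ ¬ Null2 O (BH O m ∩ E2 O)) ∧
      (∀ (m : ℕ) (s : ℝ), (m : ℝ) * a < 1 → (m : ℝ) * a < s →
        GaleNull1 s O (BH O m) ∧ GaleNull2 s O (BH O m)) ∧
      (∀ s : ℝ, s < a → ¬ GaleNull1 s O (NP O ∩ E1 O) ∧ ¬ GaleNull2 s O (NP O ∩ E2 O)) ∧
      ¬ Null1 O (D2 O ∩ E1 O) ∧ ¬ Null2 O (D2 O ∩ E2 O) := by
  obtain ⟨k, hk⟩ : ∃ k, k = ⌊1 / a⌋₊ + 1 := ⟨_, rfl⟩
  have hk1 : 1 / a < k := by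
    rw [hk]
    push_cast
    exact Nat.lt_floor_add_one _
  have hk0 : (0 : ℝ) < k := lt_trans (by positivity) hk1
  have hk2 : 1 / (k : ℝ) < a := by
    rw [div_lt_iff₀ hk0]
    rw [div_lt_iff₀ h0] at hk1
    linarith
  obtain ⟨Φ, rfl, hK, hF⟩ := hPAR k a (by omega) hk2 h1.le
  obtain ⟨ω, ⟨h2, h3, h4⟩, h5⟩ := (((Pool.Agent.RelB.upp hENT hAFF Φ).and
    ((Pool.Agent.RelB.low_of hNN fast1 fast2 npr e1r e2r Φ).and
    (Pool.Agent.RelB.nonnull_bh hSTR hNPA hAPP hXOR hNB Φ hF))).and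
    (nonnull_b hSTR hAPP hXOR hNB hPX Φ hF)).exists
  refine ⟨Pool.Agent.RelB.oo Φ ω, fun m hm => ?_, fun m hm => h4 m ?_,
    fun m s hm hs => h2 m s hm.le hs, h3, h5⟩
  · exact Pool.Agent.RelT.null_of_gale (h2 m 1 hm.le hm)
  · rw [hK, hk]
    have h5 : 1 / Φ.a < m := by
      rw [div_lt_iff₀ h0]
      exact hm
    exact Nat.succ_le_of_lt ((Nat.floor_lt (by positivity)).2 h5)

end Pool.Agent.RelC
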