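import Pool.Agent.RelC.Targets
import Pool.Agent.RelB.NN
import Pool.Agent.RelO.LEV
import Pool.Agent.RelM.LOC
import Pool.Agent.RelS.NNS

/-!
# The beginnings of the stages
-/

set_option autoImplicit false

namespace Pool.Agent.RelC

open Pool.Agent.RelT (Fast)
open Pool.Agent.RelB (ML lcode mcs xacc qbs BH md md_pos md_spec qf ee Hist ix ix_str seto)
open Pool.Agent.RelM (Lang str qb)
open Pool.Agent.RelO (lev st levfin levmono)
open Pool.Agent.RelS (Z Rl orcV orc acc Idx Om Dep mixP)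

namespace NN_

theorem thr_spec (Φ : Par) (j : ℕ) :
    j + 2 ≤ thr Φ j ∧ 2 * Φ.B (j + 1) + 2 ≤ thr Φ j ∧ 2 ^ j ≤ thr Φ j ∧ ∀ n, thr Φ j ≤ n →
      qbs (mcs j) (n + j) + 2 < 2 ^ n ∧
        2 * (qbs (mcs j) (n + j) : ℝ) * Φ.B (j + 1) ≤ md j * 2 ^ n := by
  have hne : {N | j + 2 ≤ N ∧ 2 * Φ.B (j + 1) + 2 ≤ N ∧ 2 ^ j ≤ N ∧ ∀ n, N ≤ n →
      qbs (mcs j) (n + j) + 2 < 2 ^ n ∧
        2 * (qbs (mcs j) (n + j) : ℝ) * Φ.B (j + 1) ≤ md j * 2 ^ n}.Nonempty := by
    obtain ⟨N, hN⟩ := Pool.Agent.RelB.NN_.list_bound j (2 * Φ.B (j + 1)) (by positivity)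
      (md_pos j) (mcs j)
    refine ⟨max N (max (j + 2) (max (2 * Φ.B (j + 1) + 2) (2 ^ j))), ?_, ?_, ?_,
      fun n hn => ⟨?_, ?_⟩⟩
    · exact (le_max_left _ _).trans (le_max_right _ _)
    · exact (le_max_left _ _).trans ((le_max_right _ _).trans (le_max_right _ _))
    · exact (le_max_right _ _).trans ((le_max_right _ _).trans (le_max_right _ _))
    · exact (hN n ((le_max_left _ _).trans hn)).1
    · have := (hN n ((le_max_left _ _).trans hn)).2
      linarith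
  exact Nat.sInf_mem hne

theorem thr_le (Φ : Par) (j : ℕ) : thr Φ j ≤ nn Φ j := by
  cases j with
  | zero => exact le_rfl
  | succ j => rw [nn]; exact le_max_right _ _

end NN_

open NN_

theorem nnmono : T_NNMONO := by
  intro Φ
  refine strictMono_nat_of_lt_succ fun j => ?_
  rw [nn]
  refine lt_of_lt_of_le (Nat.lt_succ_of_le ?_) (le_max_left _ _)
  exact (Nat.le_add_right _ _).trans (le_max_right _ _)

theorem nnge : T_NNGE := fun Φ j => (thr_spec Φ j).1.trans (thr_le Φ j)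

theorem nnb : T_NNB := fun Φ j => (thr_spec Φ j).2.1.trans (thr_le Φ j)

theorem nnp : T_NNP := fun Φ j => (thr_spec Φ j).2.2.1.trans (thr_le Φ j)

theorem nnq (Φ : Par) (j n : ℕ) (h : nn Φ j ≤ n) : qbs (mcs j) (n + j) + 2 < 2 ^ n :=
  ((thr_spec Φ j).2.2.2 n ((thr_le Φ j).trans h)).1

theorem nnmd (Φ : Par) (j n : ℕ) (h : nn Φ j ≤ n) :
    2 * (qbs (mcs j) (n + j) : ℝ) * Φ.B (j + 1) ≤ md j * 2 ^ n :=
  ((thr_spec Φ j).2.2.2 n ((thr_le Φ j).trans h)).2

theorem nnnext (Φ : Par) (j : ℕ) : qbs (mcs j) (nn Φ j + j) < nn Φ (j + 1) := by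
  rw [nn]
  exact lt_of_lt_of_le (Nat.lt_succ_of_le (le_max_left _ _)) (le_max_left _ _)

theorem nnnext' (Φ : Par) (j : ℕ) : nn Φ j + j < nn Φ (j + 1) := by
  rw [nn]
  exact lt_of_lt_of_le (Nat.lt_succ_of_le (le_max_right _ _)) (le_max_left _ _)

theorem jjspec : T_JJ := by
  intro Φ m
  have hne : {j | m < nn Φ j}.Nonempty := ⟨m, by
    have := nnge Φ m
    show m < nn Φ m
    omega⟩
  refine ⟨Nat.sInf_mem hne, fun j hj => ?_⟩
  have := Nat.notMem_of_lt_sInf hj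
  exact not_lt.1 this

/-- The stage of a cost between two beginnings. -/
theorem jj_eq {Φ : Par} {m j : ℕ} (h1 : nn Φ j ≤ m) (h2 : m < nn Φ (j + 1)) : jj Φ m = j + 1 := by
  obtain ⟨h3, h4⟩ := jjspec Φ m
  have h5 : jj Φ m ≤ j + 1 := by
    by_contra h
    have := h4 (j + 1) (by omega)
    omega
  have h6 : j < jj Φ m := by
    by_contra h
    have h7 : nn Φ (jj Φ m) ≤ nn Φ j := (nnmono Φ).monotone (by omega)
    omega
  omega

theorem jj_le {Φ : Par} {m j : ℕ} (h : m < nn Φ j) : jj Φ m ≤ j := by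
  by_contra h1
  have := (jjspec Φ m).2 j (by omega)
  omega

theorem oldfin : T_OLDFIN := by
  intro Φ j
  have h1 : (Set.Iic (nn Φ j) ×ˢ ({x : List Bool | x.length ≤ nn Φ j} ×ˢ
      ({y : List Bool | y.length ≤ nn Φ j} ×ˢ Set.Iic (j + 1))) : Set Idx).Finite :=
    (Set.finite_Iic _).prod ((List.finite_length_le Bool _).prod
      ((List.finite_length_le Bool _).prod (Set.finite_Iic _)))
  refine h1.subset ?_
  rintro ⟨κ, x, y, i⟩ ⟨h2, h3, h4⟩
  have h2' : lev κ x < nn Φ j := h2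
  have h3' : y.length = lev κ x := h3
  have h4' : i < Φ.K (jj Φ (lev κ x)) := h4
  obtain ⟨h5, h6⟩ := levfin κ x (nn Φ j) h2'.le
  have h7 := Φ.Kl (jj Φ (lev κ x))
  have h8 := jj_le h2'
  refine ⟨h5, h6, ?_, ?_⟩
  · show y.length ≤ nn Φ j
    omega
  · show i ≤ j + 1
    omega

theorem old_mono (Φ : Par) {m m' : ℕ} (h : m ≤ m') : Old Φ m ⊆ Old Φ m' := by
  rintro a ⟨h1, h2⟩
  exact ⟨h1.trans_le ((nnmono Φ).monotone h), h2⟩

/-! ## The histories -/

theorem pa_congr {Φ : Par} {j : ℕ} {ω ω' : Om} (h : ∀ a ∈ Old Φ j, ω a = ω' a) (hh : Hist)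
    (t i : ℕ) : pa Φ j hh ω t i = pa Φ j hh ω' t i := by
  have h1 : ∀ τ, mixP (Old Φ j) ω τ = mixP (Old Φ j) ω' τ := by
    intro τ
    funext a
    unfold mixP
    by_cases ha : a ∈ Old Φ j
    · rw [if_pos ha, if_pos ha, h a ha]
    · rw [if_neg ha, if_neg ha]
  unfold pa
  simp only [h1]

theorem He_congr {Φ : Par} {j : ℕ} {ω ω' : Om} (h : ∀ a ∈ Old Φ j, ω a = ω' a) (hh : Hist)
    (i : ℕ) : He Φ j hh ω i = He Φ j hh ω' i := by
  unfold He
  simp only [pa_congr h]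

theorem best_congr {Φ : Par} {j : ℕ} {ω ω' : Om} (h : ∀ a ∈ Old Φ j, ω a = ω' a) (hh : Hist) :
    best Φ j hh ω = best Φ j hh ω' := by
  unfold best
  simp only [He_congr h]

theorem hs_succ (Φ : Par) (ω : Om) (j : ℕ) : hs Φ ω (j + 1) =
    (Function.update (hs Φ ω j).1 (j + 1) (best Φ j (hs Φ ω j) ω),
      Function.update (hs Φ ω j).2 j fun t => pa Φ j (hs Φ ω j) ω t (best Φ j (hs Φ ω j) ω)) := rfl

theorem hsdep : T_HSDEP := by
  intro Φ j
  induction j with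
  | zero =>
    intro ω ω' h
    simp only [hs]
    rw [best_congr h]
    simp only [pa_congr h]
  | succ j ih =>
    intro ω ω' h
    have h1 := ih ω ω' fun a ha => h a (old_mono Φ (Nat.le_succ j) ha)
    rw [hs_succ Φ ω (j + 1), hs_succ Φ ω' (j + 1), h1, best_congr h]
    simp only [pa_congr h]

theorem hs1_succ (Φ : Par) (ω : Om) (m j : ℕ) (h : j ≤ m) :
    (hs Φ ω (m + 1)).1 j = (hs Φ ω m).1 j := by
  rw [hs]
  exact Function.update_of_ne (by omega) _ _

theorem hs2_succ (Φ : Par) (ω : Om) (m j : ℕ) (h : j < m) :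
    (hs Φ ω (m + 1)).2 j = (hs Φ ω m).2 j := by
  rw [hs]
  exact Function.update_of_ne (by omega) _ _

theorem hs1_le (Φ : Par) (ω : Om) {m m' j : ℕ} (hm : m ≤ m') (h : j ≤ m) :
    (hs Φ ω m').1 j = (hs Φ ω m).1 j := by
  induction m', hm using Nat.le_induction with
  | base => rfl
  | succ m' hm ih => rw [hs1_succ Φ ω m' j (by omega), ih]

theorem hs2_le (Φ : Par) (ω : Om) {m m' j : ℕ} (hm : m ≤ m') (h : j < m) :
    (hs Φ ω m').2 j = (hs Φ ω m).2 j := by
  induction m', hm using Nat.le_induction with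
  | base => rfl
  | succ m' hm ih => rw [hs2_succ Φ ω m' j (by omega), ih]

theorem hsval : T_HSVAL := by
  intro Φ ω m
  constructor
  · intro j hj
    exact hs1_le Φ ω hj le_rfl
  · intro j hj
    show (hs Φ ω m).2 j = (hs Φ ω (j + 1)).2 j
    exact hs2_le Φ ω (by omega) (by omega)

theorem best_lt (Φ : Par) (j : ℕ) (hh : Hist) (ω : Om) : best Φ j hh ω < Φ.K (j + 1) := by
  unfold best
  split_ifs with hx
  · exact hx.choose_spec.1
  · exact Φ.K1 _

theorem opt : T_OPT := by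
  intro Φ ω m j
  induction m with
  | zero => exact Φ.K1 _
  | succ m ih =>
    rw [hs]
    show Function.update (hs Φ ω m).1 (m + 1) (best Φ m (hs Φ ω m) ω) j < Φ.K j
    by_cases h : j = m + 1
    · subst h
      rw [Function.update_self]
      exact best_lt _ _ _ _
    · rw [Function.update_of_ne h]
      exact ih

end Pool.Agent.RelC
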