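import Pool.Agent.RelC.Targets
import Pool.Agent.RelC.FAIR

/-!
# The symmetric difference of the special bits is fair
-/

set_option autoImplicit false

namespace Pool.Agent.RelC

open MeasureTheory Set
open scoped ENNReal
open Pool.Agent.RelM (Lang Instr Cfg step run Halts pair str pre wq sq0 sq1 Asks hq)
open Pool.Agent.RelO (lev levmono)
open Pool.Agent.RelS (Z Rl orcV orc Idx Om Dep mixP meas_of_dep)
open Pool.Agent.RelT (Fast)
open Pool.Agent.RelB (ML lcode mcs xacc qbs BH md md_pos md_spec qf ee Hist ix ix_str seto)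

namespace FAIRD_

/-- words of equal length have equal costs -/
lemma lev_eq (κ : ℕ) {x y : List Bool} (h : x.length = y.length) : lev κ x = lev κ y :=
  le_antisymm (levmono _ _ _ h.le) (levmono _ _ _ h.ge)

lemma wn_mono (t : ℕ) {i j : ℕ} (h : i ≤ j) : wn t i ≤ wn t j := by
  have h1 : 2 ^ i ≤ 2 ^ j := Nat.pow_le_pow_right (by norm_num) h
  unfold wn
  omega

lemma wn_lt (t : ℕ) {i j : ℕ} (h : i < j) : wn t i < wn t j := by
  have h1 : 2 ^ i < 2 ^ j := Nat.pow_lt_pow_right (by norm_num) h
  have h2 : 1 ≤ 2 ^ i := Nat.one_le_two_pow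
  unfold wn
  omega

lemma len_w (h1 : T_STR) (t : ℕ) {i : ℕ} (hi : i < Nat.log 2 (t + 1)) :
    (str (wn t i)).length = 2 * Nat.log 2 (t + 1) := by
  have h2 : (str t).length = Nat.log 2 (t + 1) := Pool.Agent.RelM.strlen t
  rw [h1 t i hi, List.length_append, sw, List.length_append, List.length_cons,
    List.length_replicate, List.length_replicate, h2]
  omega

lemma lev_w (h1 : T_STR) (κ t : ℕ) {i : ℕ} (hi : i < Nat.log 2 (t + 1)) :
    lev κ (str (wn t i)) = lev κ (str (wn t 0)) :=
  lev_eq κ ((len_w h1 t hi).trans (len_w h1 t (by omega)).symm)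

lemma vis_w (h1 : T_STR) (Φ : Par) (κ t : ℕ) {i j : ℕ} (hi : i < Nat.log 2 (t + 1))
    (hj : j < Nat.log 2 (t + 1)) (hij : i ≤ j) : Vis Φ κ (wn t i) ⊆ Vis Φ κ (wn t j) := by
  rintro a ⟨ha1, ha2⟩
  refine ⟨?_, ?_⟩
  · unfold bl at ha1 ⊢
    rw [lev_w h1 κ t hj, ← lev_w h1 κ t hi]
    exact ha1
  · rintro ⟨h3, t', ht', h4⟩
    exact ha2 ⟨h3, t', (wn_mono t hij).trans ht', h4⟩

/-- the option of the stage -/
noncomputable def OO (Φ : Par) (B : ℕ) (ω : Om) : ℕ := (hs Φ ω B).1 B

/-- the symmetric difference of the first `m` special bits -/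
noncomputable def DD (Φ : Par) (κ t m : ℕ) (ω : Om) : Bool := XR (Rl (zo Φ ω) κ) (str t) m

lemma DD_succ (h1 : T_STR) (Φ : Par) (κ t m : ℕ) (hm : m < Nat.log 2 (t + 1)) (ω : Om) :
    DD Φ κ t (m + 1) ω = xor (Rl (zo Φ ω) κ (str (wn t m))) (DD Φ κ t m ω) := by
  rw [h1 t m hm]
  rfl

/-- a bit depends only on the coins of its pair and on the old coins -/
lemma bit_gen (Φ : Par) (κ : ℕ) {s J : ℕ} (hJ : bl Φ κ (str s) = J + 1) {S : Set Idx}
    (hS1 : Old Φ J ⊆ S)
    (hS2 : ∀ (y : List Bool) (o : ℕ), y.length = lev κ (str s) → o < Φ.K (J + 1) →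
      (κ, str s, y, o) ∈ S) :
    Dep S fun ω => Rl (zo Φ ω) κ (str s) := by
  intro ω ω' hω
  have hO : hs Φ ω (J + 1) = hs Φ ω' (J + 1) := hsdep Φ J ω ω' fun a ha => hω a (hS1 ha)
  have h1 : ∀ y : List Bool, y.length = lev κ (str s) →
      zo Φ ω κ (str s) y = zo Φ ω' κ (str s) y := by
    intro y hy
    show ω (κ, str s, y, (hs Φ ω (bl Φ κ (str s))).1 (bl Φ κ (str s))) =
      ω' (κ, str s, y, (hs Φ ω' (bl Φ κ (str s))).1 (bl Φ κ (str s)))
    rw [hJ, hO]
    exact hω _ (hS2 y _ hy (opt Φ ω' _ _))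
  show Rl (zo Φ ω) κ (str s) = Rl (zo Φ ω') κ (str s)
  unfold Rl
  rw [decide_eq_decide]
  refine exists_congr fun y => and_congr_right fun hy => ?_
  rw [h1 y hy]

end FAIRD_

open FAIRD_ in
theorem p_FAIRD_of (h1 : T_STR) : T_FAIRD := by
  classical
  intro Φ κ t H b h0 hKn hH hdH
  obtain ⟨J, hJ, hJ1, hJ2⟩ := HIT_.bl_succ Φ κ (wn t 0) h0
  rw [hJ] at hKn
  obtain ⟨n, hn⟩ : ∃ n, n = Nat.log 2 (t + 1) := ⟨_, rfl⟩
  rw [← hn] at hKn
  -- the stage
  have hlv : ∀ i, i < n → lev κ (str (wn t i)) = lev κ (str (wn t 0)) := fun i hi =>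
    lev_w h1 κ t (hn ▸ hi)
  have hbl : ∀ i, i < n → bl Φ κ (str (wn t i)) = J + 1 := by
    intro i hi
    unfold bl at hJ ⊢
    rw [hlv i hi, hJ]
  set O : Om → ℕ := OO Φ (J + 1) with hO
  have hOK : ∀ ω, O ω < n := fun ω => (opt Φ ω (J + 1) (J + 1)).trans_le hKn
  have hOd : Dep (Old Φ J) O := by
    intro ω ω' h
    show (hs Φ ω (J + 1)).1 (J + 1) = (hs Φ ω' (J + 1)).1 (J + 1)
    rw [hsdep Φ J ω ω' h]
  have hOm : Measurable O := meas_of_dep (oldfin Φ J) hOd
  have hOldVis : ∀ i, i < n → Old Φ J ⊆ Vis Φ κ (wn t i) := by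
    intro i hi a ha
    refine ⟨?_, ?_⟩
    · rw [hbl i hi]
      exact old_mono Φ (Nat.le_succ J) ha
    · rintro ⟨h3, t', ht', h4⟩
      have h5 : lev a.1 a.2.1 < nn Φ J := ha.1
      rw [h3, h4] at h5
      have h6 : lev κ (str (wn t i)) ≤ lev κ (str t') := by
        refine levmono _ _ _ ?_
        rw [Pool.Agent.RelM.strlen, Pool.Agent.RelM.strlen]
        exact Nat.log_mono_right (by omega)
      rw [hlv i hi] at h6
      omega
  -- the probabilities
  have hrt : ∀ i, i < n → ∀ ω, rt Φ κ (wn t i) ω =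
      Real.exp (-(Φ.lam (O ω) * Φ.mu κ (wn t i))) := by
    intro i hi ω
    unfold rt
    rw [hbl i hi]
    rfl
  have hr01 : ∀ i ω, 0 < Real.exp (-(Φ.lam (O ω) * Φ.mu κ (wn t i))) ∧
      Real.exp (-(Φ.lam (O ω) * Φ.mu κ (wn t i))) ≤ 1 := by
    intro i ω
    refine ⟨Real.exp_pos _, Real.exp_le_one_iff.2 ?_⟩
    have := mul_nonneg (Φ.lam0 (O ω)) (Φ.mu0 κ (wn t i))
    linarith
  have hRm : ∀ i, Measurable fun ω => Real.exp (-(Φ.lam (O ω) * Φ.mu κ (wn t i))) := by
    intro i
    exact (measurable_from_top (f := fun o : ℕ => Real.exp (-(Φ.lam o * Φ.mu κ (wn t i))))).comp hOm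
  -- the bits
  have hRlm : ∀ i, i < n → ∀ b, MeasurableSet {ω | Rl (zo Φ ω) κ (str (wn t i)) = b} := by
    intro i hi b
    have hd : Dep (Old Φ (J + 1)) fun ω => Rl (zo Φ ω) κ (str (wn t i)) := by
      refine bit_gen Φ κ (hbl i hi) (old_mono Φ (Nat.le_succ J)) fun y o hy ho => ⟨?_, hy, ?_⟩
      rotate_left
      · show o < Φ.K (jj Φ (lev κ (str (wn t i))))
        have e : jj Φ (lev κ (str (wn t i))) = J + 1 := hbl i hi
        rw [e]
        exact ho
      show lev κ (str (wn t i)) < nn Φ (J + 1)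
      rw [hlv i hi]
      exact hJ2
    have hm : Measurable fun ω => Rl (zo Φ ω) κ (str (wn t i)) :=
      meas_of_dep (oldfin Φ (J + 1)) hd
    exact hm (measurableSet_singleton b)
  have hDd : ∀ m, m < n → Dep (Vis Φ κ (wn t m)) (DD Φ κ t m) := by
    intro m
    induction m with
    | zero =>
      intro _ ω ω' _
      rfl
    | succ m ih =>
      intro hm1 ω ω' hω
      have hmK : m < n := by omega
      rw [DD_succ h1 Φ κ t m (hn ▸ hmK), DD_succ h1 Φ κ t m (hn ▸ hmK)]
      have e1 : Dep (Vis Φ κ (wn t (m + 1))) fun ω => Rl (zo Φ ω) κ (str (wn t m)) := by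
        refine bit_gen Φ κ (hbl m hmK) (hOldVis (m + 1) hm1) fun y o hy ho => ⟨⟨?_, hy, ?_⟩, ?_⟩
        rotate_left
        · show o < Φ.K (jj Φ (lev κ (str (wn t m))))
          have e : jj Φ (lev κ (str (wn t m))) = J + 1 := hbl m hmK
          rw [e]
          exact ho
        rotate_right
        · show lev κ (str (wn t m)) < nn Φ (bl Φ κ (str (wn t (m + 1))))
          rw [hbl (m + 1) hm1, hlv m hmK]
          exact hJ2
        · rintro ⟨_, t', ht', h2⟩
          have h5 := Pool.Agent.RelM.strinj h2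
          have h6 : wn t m < wn t (m + 1) := wn_lt t (Nat.lt_succ_self m)
          omega
      have e2 := ih hmK ω ω' fun a ha =>
        hω a (vis_w h1 Φ κ t (hn ▸ hmK) (hn ▸ hm1) (Nat.le_succ m) ha)
      have e3 := e1 ω ω' hω
      simp only at e3
      rw [e3, e2]
  have hset : ∀ m, m < n → ∀ b, {ω | DD Φ κ t (m + 1) ω = b} =
      ({ω | Rl (zo Φ ω) κ (str (wn t m)) = false} ∩ {ω | DD Φ κ t m ω = b}) ∪
      ({ω | Rl (zo Φ ω) κ (str (wn t m)) = true} ∩ {ω | DD Φ κ t m ω = !b}) := by
    intro m hm b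
    ext ω
    simp only [Set.mem_ofPred_eq, Set.mem_union, Set.mem_inter_iff]
    rw [DD_succ h1 Φ κ t m (hn ▸ hm)]
    cases Rl (zo Φ ω) κ (str (wn t m)) <;> cases DD Φ κ t m ω <;> cases b <;> simp
  have hDm : ∀ m, m ≤ n → ∀ b, MeasurableSet {ω | DD Φ κ t m ω = b} := by
    intro m
    induction m with
    | zero =>
      intro _ b
      exact MeasurableSet.const (false = b)
    | succ m ih =>
      intro hm b
      rw [hset m (by omega)]
      exact ((hRlm m (by omega) _).inter (ih (by omega) _)).union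
        ((hRlm m (by omega) _).inter (ih (by omega) _))
  have hOlt : ∀ m, MeasurableSet {ω | O ω < m} := fun m => hOm (measurableSet_Iio (a := m))
  have hOeq : ∀ m, MeasurableSet {ω | O ω = m} := fun m => hOm (measurableSet_singleton m)
  -- the claim
  have claim : ∀ m, m ≤ n → ∀ (b : Bool) (H : Om → ℝ≥0∞), Measurable H →
      Dep (Vis Φ κ (wn t 0)) H →
      ∫⁻ ω in {ω | DD Φ κ t m ω = b}, ({ω | O ω < m}).indicator H ω ∂(coin Φ) =
        2⁻¹ * ∫⁻ ω, ({ω | O ω < m}).indicator H ω ∂(coin Φ) := by
    intro m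
    induction m with
    | zero =>
      intro _ b H _ _
      have e : ∀ ω, ({ω | O ω < 0}).indicator H ω = 0 := fun ω =>
        Set.indicator_of_notMem (show ω ∉ {ω | O ω < 0} from Nat.not_lt_zero _) _
      simp only [e, lintegral_zero, mul_zero]
    | succ m ih =>
      intro hm b H hH hdH
      have hmK : m < n := by omega
      have h0m : nn Φ 0 ≤ lev κ (str (wn t m)) := by
        rw [hlv m hmK]
        exact h0
      have hK0 : 0 < n := by omega
      set r : Om → ℝ := fun ω => Real.exp (-(Φ.lam (O ω) * Φ.mu κ (wn t m))) with hr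
      have hrm : Measurable r := hRm m
      have hrd : Dep (Vis Φ κ (wn t 0)) r := by
        intro ω ω' hω
        have : O ω = O ω' := hOd ω ω' fun a ha => hω a (hOldVis 0 hK0 ha)
        simp only [hr, this]
      set G : Om → ℝ≥0∞ := ({ω | O ω < m + 1}).indicator H with hG
      have hGm : Measurable G := hH.indicator (hOlt (m + 1))
      have hGd : Dep (Vis Φ κ (wn t m)) G := by
        intro ω ω' hω
        have e1 : O ω = O ω' := hOd ω ω' fun a ha => hω a (hOldVis m hmK ha)
        have e2 : H ω = H ω' := hdH ω ω' fun a ha =>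
          hω a (vis_w h1 Φ κ t (hn ▸ hK0) (hn ▸ hmK) (Nat.zero_le m) ha)
        show ({ω | O ω < m + 1}).indicator H ω = ({ω | O ω < m + 1}).indicator H ω'
        by_cases h : O ω < m + 1
        · rw [Set.indicator_of_mem (show ω ∈ {ω | O ω < m + 1} from h),
            Set.indicator_of_mem (show ω' ∈ {ω | O ω < m + 1} from by
              show O ω' < m + 1
              rw [← e1]; exact h), e2]
        · rw [Set.indicator_of_notMem (show ω ∉ {ω | O ω < m + 1} from h),
            Set.indicator_of_notMem (show ω' ∉ {ω | O ω < m + 1} from fun h' => h (by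
              have h'' : O ω' < m + 1 := h'
              rw [e1]; exact h''))]
      have hDGd : ∀ b, Dep (Vis Φ κ (wn t m)) (({ω | DD Φ κ t m ω = b}).indicator G) := by
        intro b ω ω' hω
        have e1 := hDd m hmK ω ω' hω
        have e2 := hGd ω ω' hω
        by_cases h : DD Φ κ t m ω = b
        · rw [Set.indicator_of_mem (show ω ∈ {ω | DD Φ κ t m ω = b} from h),
            Set.indicator_of_mem (show ω' ∈ {ω | DD Φ κ t m ω = b} from e1.symm.trans h), e2]
        · rw [Set.indicator_of_notMem (show ω ∉ {ω | DD Φ κ t m ω = b} from h),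
            Set.indicator_of_notMem (show ω' ∉ {ω | DD Φ κ t m ω = b} from
              fun h' => h (e1.trans h'))]
      -- one part
      have part : ∀ (c b' : Bool) (ρ : Om → ℝ≥0∞), Measurable ρ →
          Dep (Vis Φ κ (wn t 0)) ρ →
          (∀ ω, ENNReal.ofReal (if c = false then rt Φ κ (wn t m) ω
            else 1 - rt Φ κ (wn t m) ω) = ρ ω) → (∀ ω, O ω = m → ρ ω = 2⁻¹) →
          ∫⁻ ω in {ω | Rl (zo Φ ω) κ (str (wn t m)) = c} ∩ {ω | DD Φ κ t m ω = b'},
            G ω ∂(coin Φ) =
          2⁻¹ * (∫⁻ ω, ({ω | O ω < m}).indicator (fun ω => ρ ω * H ω) ω ∂(coin Φ)) +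
          2⁻¹ * ∫⁻ ω in {ω | DD Φ κ t m ω = b'}, ({ω | O ω = m}).indicator H ω ∂(coin Φ) := by
        intro c b' ρ hρm hρd hρ hρ2
        have hDb := hDm m hmK.le b'
        have e1 : ∫⁻ ω in {ω | Rl (zo Φ ω) κ (str (wn t m)) = c} ∩ {ω | DD Φ κ t m ω = b'},
            G ω ∂(coin Φ) = ∫⁻ ω in {ω | Rl (zo Φ ω) κ (str (wn t m)) = c},
            ({ω | DD Φ κ t m ω = b'}).indicator G ω ∂(coin Φ) := by
          rw [lintegral_indicator hDb, Measure.restrict_restrict hDb, Set.inter_comm]
        rw [e1, fair_b Φ κ (wn t m) _ c h0m (hGm.indicator hDb) (hDGd b')]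
        have e2 : ∀ ω, ENNReal.ofReal (if c = false then rt Φ κ (wn t m) ω
            else 1 - rt Φ κ (wn t m) ω) * ({ω | DD Φ κ t m ω = b'}).indicator G ω =
            ({ω | DD Φ κ t m ω = b'}).indicator
              (({ω | O ω < m}).indicator (fun ω => ρ ω * H ω)) ω +
            2⁻¹ * ({ω | DD Φ κ t m ω = b'}).indicator (({ω | O ω = m}).indicator H) ω := by
          intro ω
          rw [hρ ω]
          by_cases h : DD Φ κ t m ω = b'
          · have h' : ω ∈ {ω | DD Φ κ t m ω = b'} := h
            rw [Set.indicator_of_mem h', Set.indicator_of_mem h', Set.indicator_of_mem h']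
            rcases lt_trichotomy (O ω) m with h3 | h3 | h3
            · rw [hG, Set.indicator_of_mem (show ω ∈ {ω | O ω < m + 1} from by
                show O ω < m + 1; omega), Set.indicator_of_mem (show ω ∈ {ω | O ω < m} from h3),
                Set.indicator_of_notMem (show ω ∉ {ω | O ω = m} from fun h4 => by
                  have : O ω = m := h4
                  omega), mul_zero, add_zero]
            · rw [hG, Set.indicator_of_mem (show ω ∈ {ω | O ω < m + 1} from by
                show O ω < m + 1; omega), Set.indicator_of_notMem (show ω ∉ {ω | O ω < m} from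
                fun h4 => by
                  have : O ω < m := h4
                  omega), Set.indicator_of_mem (show ω ∈ {ω | O ω = m} from h3), hρ2 ω h3, zero_add]
            · rw [hG, Set.indicator_of_notMem (show ω ∉ {ω | O ω < m + 1} from fun h4 => by
                  have : O ω < m + 1 := h4
                  omega), Set.indicator_of_notMem (show ω ∉ {ω | O ω < m} from
                fun h4 => by
                  have : O ω < m := h4
                  omega), Set.indicator_of_notMem (show ω ∉ {ω | O ω = m} from fun h4 => by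
                  have : O ω = m := h4
                  omega), mul_zero, mul_zero, add_zero]
          · have h' : ω ∉ {ω | DD Φ κ t m ω = b'} := h
            rw [Set.indicator_of_notMem h', Set.indicator_of_notMem h',
              Set.indicator_of_notMem h', mul_zero, mul_zero, add_zero]
        simp only [e2]
        have hρH : Measurable fun ω => ρ ω * H ω := hρm.mul hH
        rw [lintegral_add_left ((hρH.indicator (hOlt m)).indicator hDb),
          lintegral_const_mul _ ((hH.indicator (hOeq m)).indicator hDb),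
          lintegral_indicator hDb, lintegral_indicator hDb,
          ih hmK.le b' (fun ω => ρ ω * H ω) hρH (by
            intro ω ω' hω
            show ρ ω * H ω = ρ ω' * H ω'
            rw [hρd ω ω' hω, hdH ω ω' hω])]
      have hlog : ∀ ω, O ω = m → r ω = 1 / 2 := by
        intro ω hω
        simp only [hr]
        rw [hω, Φ.sp κ t m (hn ▸ hmK), Real.exp_neg, Real.exp_log (by norm_num)]
        norm_num
      have h2 : ENNReal.ofReal (1 / 2) = 2⁻¹ := by
        rw [one_div, ENNReal.ofReal_inv_of_pos (by norm_num)]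
        simp
      have p1 := part false b (fun ω => ENNReal.ofReal (r ω)) hrm.ennreal_ofReal
        (fun ω ω' hω => by
          show ENNReal.ofReal (r ω) = ENNReal.ofReal (r ω')
          rw [hrd ω ω' hω])
        (fun ω => by rw [if_pos rfl, hrt m hmK ω])
        (fun ω hω => by
          show ENNReal.ofReal (r ω) = 2⁻¹
          rw [hlog ω hω, h2])
      have p2 := part true (!b) (fun ω => ENNReal.ofReal (1 - r ω))
        (measurable_const.sub hrm).ennreal_ofReal
        (fun ω ω' hω => by
          show ENNReal.ofReal (1 - r ω) = ENNReal.ofReal (1 - r ω')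
          rw [hrd ω ω' hω])
        (fun ω => by rw [if_neg (by simp), hrt m hmK ω])
        (fun ω hω => by
          show ENNReal.ofReal (1 - r ω) = 2⁻¹
          rw [hlog ω hω, show (1 : ℝ) - 1 / 2 = 1 / 2 by norm_num, h2])
      have hdisj : Disjoint
          ({ω | Rl (zo Φ ω) κ (str (wn t m)) = false} ∩ {ω | DD Φ κ t m ω = b})
          ({ω | Rl (zo Φ ω) κ (str (wn t m)) = true} ∩ {ω | DD Φ κ t m ω = !b}) := by
        rw [Set.disjoint_left]
        rintro ω ⟨h3, -⟩ ⟨h4, -⟩
        have h3' : Rl (zo Φ ω) κ (str (wn t m)) = false := h3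
        have h4' : Rl (zo Φ ω) κ (str (wn t m)) = true := h4
        rw [h3'] at h4'
        exact Bool.false_ne_true h4'
      rw [hset m hmK, lintegral_union ((hRlm m hmK _).inter (hDm m hmK.le _)) hdisj, p1, p2]
      have hsum : (∫⁻ ω in {ω | DD Φ κ t m ω = b}, ({ω | O ω = m}).indicator H ω ∂(coin Φ)) +
          ∫⁻ ω in {ω | DD Φ κ t m ω = !b}, ({ω | O ω = m}).indicator H ω ∂(coin Φ) =
          ∫⁻ ω, ({ω | O ω = m}).indicator H ω ∂(coin Φ) := by
        have e : {ω | DD Φ κ t m ω = !b} = {ω | DD Φ κ t m ω = b}ᶜ := by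
          ext ω
          simp only [Set.mem_ofPred_eq, Set.mem_compl_iff]
          cases DD Φ κ t m ω <;> cases b <;> simp
        rw [e]
        exact lintegral_add_compl _ (hDm m hmK.le b)
      have hr1 : ∀ ω, ENNReal.ofReal (r ω) + ENNReal.ofReal (1 - r ω) = 1 := by
        intro ω
        obtain ⟨h3, h4⟩ := hr01 m ω
        show ENNReal.ofReal (Real.exp (-(Φ.lam (O ω) * Φ.mu κ (wn t m)))) +
          ENNReal.ofReal (1 - Real.exp (-(Φ.lam (O ω) * Φ.mu κ (wn t m)))) = 1
        rw [← ENNReal.ofReal_add h3.le (by linarith), add_sub_cancel, ENNReal.ofReal_one]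
      have hsum2 : (∫⁻ ω, ({ω | O ω < m}).indicator (fun ω => ENNReal.ofReal (r ω) * H ω) ω
          ∂(coin Φ)) + ∫⁻ ω, ({ω | O ω < m}).indicator
            (fun ω => ENNReal.ofReal (1 - r ω) * H ω) ω ∂(coin Φ) =
          ∫⁻ ω, ({ω | O ω < m}).indicator H ω ∂(coin Φ) := by
        have hm1 : Measurable fun ω => ENNReal.ofReal (r ω) * H ω := hrm.ennreal_ofReal.mul hH
        rw [← lintegral_add_left (hm1.indicator (hOlt m))]
        refine lintegral_congr fun ω => ?_
        by_cases h : O ω < m
        · have h' : ω ∈ {ω | O ω < m} := h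
          rw [Set.indicator_of_mem h', Set.indicator_of_mem h', Set.indicator_of_mem h',
            ← add_mul, hr1, one_mul]
        · have h' : ω ∉ {ω | O ω < m} := h
          rw [Set.indicator_of_notMem h', Set.indicator_of_notMem h',
            Set.indicator_of_notMem h', add_zero]
      have hG2 : ∫⁻ ω, G ω ∂(coin Φ) = (∫⁻ ω, ({ω | O ω < m}).indicator H ω ∂(coin Φ)) +
          ∫⁻ ω, ({ω | O ω = m}).indicator H ω ∂(coin Φ) := by
        rw [← lintegral_add_left (hH.indicator (hOlt m))]
        refine lintegral_congr fun ω => ?_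
        rw [hG]
        rcases lt_trichotomy (O ω) m with h3 | h3 | h3
        · rw [Set.indicator_of_mem (show ω ∈ {ω | O ω < m + 1} from by
            show O ω < m + 1; omega), Set.indicator_of_mem (show ω ∈ {ω | O ω < m} from h3),
            Set.indicator_of_notMem (show ω ∉ {ω | O ω = m} from fun h4 => by
              have : O ω = m := h4
              omega), add_zero]
        · rw [Set.indicator_of_mem (show ω ∈ {ω | O ω < m + 1} from by
            show O ω < m + 1; omega), Set.indicator_of_notMem (show ω ∉ {ω | O ω < m} from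
            fun h4 => by
              have : O ω < m := h4
              omega), Set.indicator_of_mem (show ω ∈ {ω | O ω = m} from h3), zero_add]
        · rw [Set.indicator_of_notMem (show ω ∉ {ω | O ω < m + 1} from fun h4 => by
              have : O ω < m + 1 := h4
              omega), Set.indicator_of_notMem (show ω ∉ {ω | O ω < m} from
            fun h4 => by
              have : O ω < m := h4
              omega), Set.indicator_of_notMem (show ω ∉ {ω | O ω = m} from fun h4 => by
              have : O ω = m := h4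
              omega), add_zero]
      rw [hG2, ← hsum, ← hsum2]
      ring
  have hfin := claim n le_rfl b H hH hdH
  have e : ({ω | O ω < n}).indicator H = H := by
    funext ω
    exact Set.indicator_of_mem (show ω ∈ {ω | O ω < n} from hOK ω) _
  rw [e] at hfin
  have e2 : (str t).length = n := (Pool.Agent.RelM.strlen t).trans hn.symm
  have e3 : {ω | XL (Rl (zo Φ ω) κ) (str t) = b} = {ω | DD Φ κ t n ω = b} := by
    unfold XL DD
    rw [e2]
  rw [e3]
  exact hfin

end Pool.Agent.RelC
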