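import Pool.Agent.RelC.Targets
import Pool.Agent.RelC.NN
import Pool.Agent.RelO.LEV
import Pool.Agent.RelM.LOC
import Pool.Agent.RelS.NNS

/-!
# Few options for long words
-/

set_option autoImplicit false

namespace Pool.Agent.RelC

open Pool.Agent.RelM (Lang str)
open Pool.Agent.RelO (lev levfin levmono levpow)

namespace KB_

/-- The length of the first special word. -/
theorem len_wn (t : ℕ) : Nat.log 2 (t + 1) ≤ (str (wn t 0)).length ∧
    (str (wn t 0)).length ≤ 2 * Nat.log 2 (t + 1) + 1 := by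
  rw [Pool.Agent.RelM.strlen]
  obtain ⟨n, hn⟩ : ∃ n, n = Nat.log 2 (t + 1) := ⟨_, rfl⟩
  have hw : wn t 0 + 1 = (t + 1) * 2 ^ n + 1 := by
    unfold wn
    rw [← hn]
    have : 0 < 2 ^ n := by positivity
    have : 0 < (t + 1) * 2 ^ n := by positivity
    omega
  rw [hw, ← hn]
  have h1 : t + 1 < 2 ^ (n + 1) := by
    rw [hn]
    exact Nat.lt_pow_succ_log_self (by norm_num) _
  have hp : 1 ≤ 2 ^ n := Nat.one_le_two_pow
  constructor
  · rw [hn]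
    refine Nat.log_mono_right ?_
    rw [← hn]
    nlinarith
  · refine Nat.lt_succ_iff.1 (Nat.log_lt_of_lt_pow (by omega) ?_)
    have h2 : (t + 1) * 2 ^ n ≤ 2 ^ (n + 1) * 2 ^ n := Nat.mul_le_mul_right _ h1.le
    have h3 : 2 ^ (n + 1) * 2 ^ n = 2 ^ (2 * n + 1) := by rw [← pow_add]; congr 1; omega
    have h4 : (1 : ℕ) < 2 ^ (2 * n + 1) := Nat.one_lt_two_pow (by omega)
    rw [show (2 * n + 1).succ = 2 * n + 1 + 1 from rfl, pow_succ]
    omega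

end KB_

open KB_ in
theorem p_KB_of (h1 : T_JJ) (h2 : T_NNP) : T_KB := by
  intro Φ κ
  obtain ⟨N, hN⟩ := Pool.Agent.RelS.NN_.exp_bound (κ + 2) (2 * 2 ^ (κ + 2)) 0
  refine ⟨max (2 ^ nn Φ 0) (2 ^ (N + 1)), fun t ht => ?_⟩
  have ht1 : 2 ^ nn Φ 0 ≤ t := (le_max_left _ _).trans ht
  have ht2 : 2 ^ (N + 1) ≤ t := (le_max_right _ _).trans ht
  obtain ⟨hl1, hl2⟩ := len_wn t
  obtain ⟨n, hn⟩ : ∃ n, n = Nat.log 2 (t + 1) := ⟨_, rfl⟩
  have hn1 : nn Φ 0 ≤ n := by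
    rw [hn, Nat.le_log_iff_pow_le (by norm_num) (by omega)]
    omega
  have hn2 : N + 1 ≤ n := by
    rw [hn, Nat.le_log_iff_pow_le (by norm_num) (by omega)]
    omega
  rw [← hn] at hl1 hl2 ⊢
  have hfin := (levfin κ (str (wn t 0)) _ le_rfl).2
  refine ⟨by omega, ?_⟩
  unfold bl
  obtain ⟨L, hL⟩ : ∃ L, L = lev κ (str (wn t 0)) := ⟨_, rfl⟩
  rw [← hL]
  have hL1 : L ≤ (2 * n + 3) ^ (κ + 2) := by
    rw [hL]
    exact (levpow κ _).trans (Nat.pow_le_pow_left (by omega) _)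
  have hL2 : 2 * L < 2 ^ n := by
    have h3 := hN n (by omega)
    have h4 : (2 * n + 3) ^ (κ + 2) ≤ 2 ^ (κ + 2) * (n + 0 + 2) ^ (κ + 2) := by
      rw [← mul_pow]
      exact Nat.pow_le_pow_left (by omega) _
    have h5 : 2 * 2 ^ (κ + 2) * (n + 0 + 2) ^ (κ + 2) =
        2 * (2 ^ (κ + 2) * (n + 0 + 2) ^ (κ + 2)) := by ring
    omega
  have hK := Φ.Kl (jj Φ L)
  rcases Nat.eq_zero_or_pos (jj Φ L) with h0 | h0
  · rw [h0] at hK ⊢
    omega
  · obtain ⟨j, hj⟩ : ∃ j, jj Φ L = j + 1 := ⟨jj Φ L - 1, by omega⟩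
    have h6 : nn Φ j ≤ L := (h1 Φ L).2 j (by omega)
    have h7 := h2 Φ j
    have h8 : 2 ^ (j + 1) < 2 ^ n := by
      rw [pow_succ]
      omega
    have h9 : j + 1 < n := (Nat.pow_lt_pow_iff_right (by norm_num)).1 h8
    rw [hj] at hK ⊢
    omega

end Pool.Agent.RelC
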