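import Pool.Agent.RelC.Mach

/-!
# RelC, target LOOP: a machine which calls another machine in a loop
-/

set_option autoImplicit false

namespace Pool.Agent.RelC

open MeasureTheory Set
open scoped ENNReal
open Pool.Agent.RelM (Lang Instr Cfg step run Halts Decides E1 E2 NP pair triple stay halts_mono)
open Pool.Agent.RelB.XOR_ (stk emb)

namespace LOOP_

open Pool.Agent.RelB.XOR_ (stk_bound mg rel run_rel)

/-! ### segments of the program -/

theorem seg {α : Type} (l a b : List α) (p q : ℕ) (hq : p + a.length = q)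
    (h : ∀ i, l[p + i]? = (a ++ b)[i]?) :
    (∀ i < a.length, l[p + i]? = a[i]?) ∧ (∀ i, l[q + i]? = b[i]?) := by
  refine ⟨fun i hi => ?_, fun i => ?_⟩
  · rw [h i, List.getElem?_append_left hi]
  · rw [← hq, Nat.add_assoc, h, List.getElem?_append_right (by omega)]
    congr 1
    omega

/-- the first segment -/
def s0 (M : ℕ) : List Instr :=
  [Instr.pop 0 1 4 7, Instr.push M false, Instr.push (M + 2) false, Instr.pop (M + 7) 0 0 0,
    Instr.push M true, Instr.push (M + 2) false, Instr.pop (M + 7) 0 0 0,
    Instr.push (M + 3) false]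

/-- the segment after the call of `P` -/
def s1 (M L : ℕ) : List Instr :=
  [Instr.pop 1 (51 + M + L) (47 + M + L) (51 + M + L),
    Instr.pop (M + 3) (48 + M + L) (50 + M + L) (51 + M + L),
    Instr.push (M + 3) true,
    Instr.pop (M + 7) (51 + M + L) (51 + M + L) (51 + M + L),
    Instr.push (M + 3) false, Instr.push (M + 1) false, Instr.pop (M + 7) 8 8 8]

/-- the last segment -/
def s2 (M L : ℕ) : List Instr :=
  [Instr.pop (M + 3) (54 + M + L) (56 + M + L) (57 + M + L),
    Instr.push 1 false,
    Instr.pop (M + 7) (57 + M + L) (57 + M + L) (57 + M + L),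
    Instr.push 1 true]

/-- what is known about the program -/
structure Lay (M : ℕ) (P R : List Instr) : Prop where
  a0 : ∀ i < 8, R[i]? = (s0 M)[i]?
  a1 : R[8]? = some (Instr.pop (M + 2) 9 9 (53 + M + P.length))
  a2 : ∀ i < M, R[9 + i]? = (clr M 9)[i]?
  a3 : ∀ i < 7, R[9 + M + i]? = (cp (M + 1) (M + 4) (M + 7) (9 + M))[i]?
  a4 : R[16 + M]? = some (Instr.push 0 true)
  a5 : ∀ i < 7, R[17 + M + i]? = (cp (M + 2) (M + 5) (M + 7) (17 + M))[i]?
  a6 : ∀ i < 7, R[24 + M + i]? = (cp M (M + 6) (M + 7) (24 + M))[i]?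
  a7 : ∀ i < 5, R[31 + M + i]? = (mv (M + 4) (M + 1) (M + 7) (31 + M))[i]?
  a8 : ∀ i < 5, R[36 + M + i]? = (mv (M + 5) (M + 2) (M + 7) (36 + M))[i]?
  a9 : ∀ i < 5, R[41 + M + i]? = (mv (M + 6) M (M + 7) (41 + M))[i]?
  b0 : ∀ (i : ℕ) (ins : Instr), P[i]? = some ins →
    R[i + (46 + M)]? = some (emb 0 P.length (46 + M) ins)
  b1 : ∀ i < 7, R[46 + M + P.length + i]? = (s1 M P.length)[i]?
  b2 : ∀ i < 4, R[53 + M + P.length + i]? = (s2 M P.length)[i]?
  len : R.length = 57 + M + P.length

theorem lay (M : ℕ) (P : List Instr) : Lay M P (lp M P) := by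
  have e : ∀ i, (lp M P)[0 + i]? = (s0 M ++ ([Instr.pop (M + 2) 9 9 (53 + M + P.length)] ++
      (clr M 9 ++ (cp (M + 1) (M + 4) (M + 7) (9 + M) ++ ([Instr.push 0 true] ++
      (cp (M + 2) (M + 5) (M + 7) (17 + M) ++ (cp M (M + 6) (M + 7) (24 + M) ++
      (mv (M + 4) (M + 1) (M + 7) (31 + M) ++ (mv (M + 5) (M + 2) (M + 7) (36 + M) ++
      (mv (M + 6) M (M + 7) (41 + M) ++ (P.map (emb 0 P.length (46 + M)) ++
      (s1 M P.length ++ s2 M P.length))))))))))))[i]? := by
    intro i
    rw [Nat.zero_add]
    rfl
  have lclr : (clr M 9).length = M := by simp [clr]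
  have lcp : ∀ s t e p, (cp s t e p).length = 7 := fun _ _ _ _ => rfl
  have lmv : ∀ s t e p, (mv s t e p).length = 5 := fun _ _ _ _ => rfl
  have lmap : (P.map (emb 0 P.length (46 + M))).length = P.length := List.length_map _
  obtain ⟨q0, r0⟩ := seg _ _ _ 0 8 rfl e
  obtain ⟨q1, r1⟩ := seg _ _ _ 8 9 rfl r0
  obtain ⟨q2, r2⟩ := seg _ _ _ 9 (9 + M) (by rw [lclr]) r1
  obtain ⟨q3, r3⟩ := seg _ _ _ (9 + M) (16 + M) (by rw [lcp]; omega) r2
  obtain ⟨q4, r4⟩ := seg _ _ _ (16 + M) (17 + M) (by simp only [List.length_singleton]; omega) r3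
  obtain ⟨q5, r5⟩ := seg _ _ _ (17 + M) (24 + M) (by rw [lcp]; omega) r4
  obtain ⟨q6, r6⟩ := seg _ _ _ (24 + M) (31 + M) (by rw [lcp]; omega) r5
  obtain ⟨q7, r7⟩ := seg _ _ _ (31 + M) (36 + M) (by rw [lmv]; omega) r6
  obtain ⟨q8, r8⟩ := seg _ _ _ (36 + M) (41 + M) (by rw [lmv]; omega) r7
  obtain ⟨q9, r9⟩ := seg _ _ _ (41 + M) (46 + M) (by rw [lmv]; omega) r8
  obtain ⟨q10, r10⟩ := seg _ _ _ (46 + M) (46 + M + P.length) (by rw [lmap]) r9
  obtain ⟨q11, r11⟩ := seg _ _ _ (46 + M + P.length) (53 + M + P.length)
    (by simp only [s1, List.length_cons, List.length_nil]; omega) r10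
  refine ⟨?_, ?_, ?_, ?_, ?_, ?_, ?_, ?_, ?_, ?_, ?_, ?_, ?_, ?_⟩
  · intro i hi
    have := q0 i hi
    rwa [Nat.zero_add] at this
  · exact q1 0 (by norm_num)
  · intro i hi
    exact q2 i (by rw [lclr]; exact hi)
  · intro i hi
    exact q3 i (by rw [lcp]; exact hi)
  · exact q4 0 (by norm_num)
  · intro i hi
    exact q5 i (by rw [lcp]; exact hi)
  · intro i hi
    exact q6 i (by rw [lcp]; exact hi)
  · intro i hi
    exact q7 i (by rw [lmv]; exact hi)
  · intro i hi
    exact q8 i (by rw [lmv]; exact hi)
  · intro i hi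
    exact q9 i (by rw [lmv]; exact hi)
  · intro i ins h
    have hi : i < P.length := (List.getElem?_eq_some_iff.1 h).1
    have := q10 i (by rw [lmap]; exact hi)
    rw [Nat.add_comm i, this, List.getElem?_map, h]
    rfl
  · intro i hi
    exact q11 i hi
  · intro i hi
    exact r11 i
  · have : lp M P = s0 M ++ ([Instr.pop (M + 2) 9 9 (53 + M + P.length)] ++
      (clr M 9 ++ (cp (M + 1) (M + 4) (M + 7) (9 + M) ++ ([Instr.push 0 true] ++
      (cp (M + 2) (M + 5) (M + 7) (17 + M) ++ (cp M (M + 6) (M + 7) (24 + M) ++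
      (mv (M + 4) (M + 1) (M + 7) (31 + M) ++ (mv (M + 5) (M + 2) (M + 7) (36 + M) ++
      (mv (M + 6) M (M + 7) (41 + M) ++ (P.map (emb 0 P.length (46 + M)) ++
      (s1 M P.length ++ s2 M P.length))))))))))) := rfl
    rw [this]
    simp only [List.length_append, lclr, lcp, lmv, lmap, s0, s1, s2, List.length_cons,
      List.length_nil]
    omega

/-! ### the segments run -/

theorem run_cp (h1 : T_CP) (O : Lang) (R : List Instr) (p s t e : ℕ) (hs : s ≠ 0) (ht : t ≠ 0)
    (he : e ≠ 0) (hst : s ≠ t) (hse : s ≠ e) (hte : t ≠ e)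
    (hR : ∀ i < 7, R[p + i]? = (cp s t e p)[i]?) (f : ℕ → List Bool) (hf : f e = []) :
    ∃ g : ℕ → List Bool, (step O R)^[4 * (f s).length + 1] ⟨p, f⟩ = ⟨p + 7, g⟩ ∧ g s = [] ∧
      g t = (f s).reverse ++ f t ∧ g 0 = (f s).reverse ++ f 0 ∧
      ∀ j, j ≠ s → j ≠ t → j ≠ 0 → g j = f j := by
  refine ⟨_, h1 O R p s t e hs ht he hst hse hte hR f hf, ?_, ?_, ?_, ?_⟩
  · rw [Function.update_of_ne hs, Function.update_of_ne hst, Function.update_self]
  · rw [Function.update_of_ne ht, Function.update_self]
  · rw [Function.update_self]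
  · intro j h1 h2 h3
    rw [Function.update_of_ne h3, Function.update_of_ne h2, Function.update_of_ne h1]

theorem run_mv (h2 : T_MV) (O : Lang) (R : List Instr) (p s t e : ℕ) (hst : s ≠ t) (hse : s ≠ e)
    (hte : t ≠ e) (hR : ∀ i < 5, R[p + i]? = (mv s t e p)[i]?) (f : ℕ → List Bool)
    (hf : f e = []) :
    ∃ g : ℕ → List Bool, (step O R)^[3 * (f s).length + 1] ⟨p, f⟩ = ⟨p + 5, g⟩ ∧ g s = [] ∧
      g t = (f s).reverse ++ f t ∧ ∀ j, j ≠ s → j ≠ t → g j = f j := by
  refine ⟨_, h2 O R p s t e hst hse hte hR f hf, ?_, ?_, ?_⟩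
  · rw [Function.update_of_ne hst, Function.update_self]
  · rw [Function.update_self]
  · intro j h1 h2
    rw [Function.update_of_ne h2, Function.update_of_ne h1]

/-- the first loop -/
theorem run0 (O : Lang) {M : ℕ} (hM : 10 ≤ M) {P R : List Instr} (hL : Lay M P R) :
    ∀ (u : List Bool) (f : ℕ → List Bool), f 0 = u → f (M + 7) = [] →
      ∃ g : ℕ → List Bool, (step O R)^[4 * u.length + 1] ⟨0, f⟩ = ⟨7, g⟩ ∧ g 0 = [] ∧
        g M = u.reverse ++ f M ∧ g (M + 2) = List.replicate u.length false ++ f (M + 2) ∧
        ∀ j, j ≠ 0 → j ≠ M → j ≠ M + 2 → g j = f j := by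
  have h0 : R[0]? = some (Instr.pop 0 1 4 7) := hL.a0 0 (by norm_num)
  have h1 : R[1]? = some (Instr.push M false) := hL.a0 1 (by norm_num)
  have h2 : R[2]? = some (Instr.push (M + 2) false) := hL.a0 2 (by norm_num)
  have h3 : R[3]? = some (Instr.pop (M + 7) 0 0 0) := hL.a0 3 (by norm_num)
  have h4 : R[4]? = some (Instr.push M true) := hL.a0 4 (by norm_num)
  have h5 : R[5]? = some (Instr.push (M + 2) false) := hL.a0 5 (by norm_num)
  have h6 : R[6]? = some (Instr.pop (M + 7) 0 0 0) := hL.a0 6 (by norm_num)
  intro u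
  induction u with
  | nil =>
    intro f hf _
    refine ⟨f, ?_, hf, by simp, by simp, fun _ _ _ _ => rfl⟩
    change step O R ⟨0, f⟩ = _
    unfold step
    simp only [h0, hf]
  | cons b u ih =>
    intro f hf h7
    set g1 : ℕ → List Bool := Function.update f 0 u with hg1
    set g2 : ℕ → List Bool := Function.update g1 M (b :: g1 M) with hg2
    set g3 : ℕ → List Bool := Function.update g2 (M + 2) (false :: g2 (M + 2)) with hg3
    have e1 : step O R ⟨0, f⟩ = ⟨if b then 4 else 1, g1⟩ := by
      unfold step
      simp only [h0, hf]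
      cases b <;> rfl
    have e2 : step O R ⟨if b then 4 else 1, g1⟩ = ⟨if b then 5 else 2, g2⟩ := by
      cases b
      · unfold step
        simp only [Bool.false_eq_true, if_false, h1]
        rw [hg2]
      · unfold step
        simp only [if_true, h4]
        rw [hg2]
    have e3 : step O R ⟨if b then 5 else 2, g2⟩ = ⟨if b then 6 else 3, g3⟩ := by
      cases b
      · unfold step
        simp only [Bool.false_eq_true, if_false, h2]
        rw [hg3]
      · unfold step
        simp only [if_true, h5]
        rw [hg3]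
    have v7 : g3 (M + 7) = [] := by
      rw [hg3, Function.update_of_ne (by omega), hg2, Function.update_of_ne (by omega), hg1,
        Function.update_of_ne (by omega), h7]
    have e4 : step O R ⟨if b then 6 else 3, g3⟩ = ⟨0, g3⟩ := by
      cases b
      · unfold step
        simp only [Bool.false_eq_true, if_false, h3, v7]
      · unfold step
        simp only [if_true, h6, v7]
    have e5 : (step O R)^[4] ⟨0, f⟩ = ⟨0, g3⟩ := by
      change step O R (step O R (step O R (step O R ⟨0, f⟩))) = _
      rw [e1, e2, e3, e4]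
    have v0 : g3 0 = u := by
      rw [hg3, Function.update_of_ne (by omega), hg2, Function.update_of_ne (by omega), hg1,
        Function.update_self]
    have vM : g3 M = b :: f M := by
      rw [hg3, Function.update_of_ne (by omega), hg2, Function.update_self, hg1,
        Function.update_of_ne (by omega)]
    have vM2 : g3 (M + 2) = false :: f (M + 2) := by
      rw [hg3, Function.update_self, hg2, Function.update_of_ne (by omega), hg1,
        Function.update_of_ne (by omega)]
    obtain ⟨g, i1, i2, i3, i4, i5⟩ := ih g3 v0 v7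
    refine ⟨g, ?_, i2, ?_, ?_, ?_⟩
    · have e6 : 4 * (b :: u).length + 1 = (4 * u.length + 1) + 4 := by
        simp only [List.length_cons]
        ring
      rw [e6, Function.iterate_add_apply, e5, i1]
    · rw [i3, vM]
      simp
    · rw [i4, vM2, List.length_cons, List.replicate_succ']
      simp
    · intro j j0 jM jM2
      rw [i5 j j0 jM jM2, hg3, Function.update_of_ne jM2, hg2, Function.update_of_ne jM, hg1,
        Function.update_of_ne j0]

/-- the segment after the call of `P` -/
theorem run1 (O : Lang) {M : ℕ} (hM : 10 ≤ M) {P R : List Instr} (hL : Lay M P R)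
    (f : ℕ → List Bool) (a r : Bool) (ha : f 1 = [a]) (hr : f (M + 3) = [r])
    (h7 : f (M + 7) = []) :
    ∃ t ≤ 6, ∃ g : ℕ → List Bool, (step O R)^[t] ⟨46 + M + P.length, f⟩ = ⟨8, g⟩ ∧ g 1 = [] ∧
      g (M + 3) = [xor a r] ∧ g (M + 1) = false :: f (M + 1) ∧
      ∀ j, j ≠ 1 → j ≠ M + 3 → j ≠ M + 1 → g j = f j := by
  set L := P.length with hLdef
  have h0 : R[46 + M + L]? = some (Instr.pop 1 (51 + M + L) (47 + M + L) (51 + M + L)) :=
    hL.b1 0 (by norm_num)
  have h1 : R[47 + M + L]? = some (Instr.pop (M + 3) (48 + M + L) (50 + M + L) (51 + M + L)) := by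
    have := hL.b1 1 (by norm_num)
    rw [show 46 + M + P.length + 1 = 47 + M + P.length by omega] at this
    exact this
  have h2 : R[48 + M + L]? = some (Instr.push (M + 3) true) := by
    have := hL.b1 2 (by norm_num)
    rw [show 46 + M + P.length + 2 = 48 + M + P.length by omega] at this
    exact this
  have h3 : R[49 + M + L]? =
      some (Instr.pop (M + 7) (51 + M + L) (51 + M + L) (51 + M + L)) := by
    have := hL.b1 3 (by norm_num)
    rw [show 46 + M + P.length + 3 = 49 + M + P.length by omega] at this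
    exact this
  have h4 : R[50 + M + L]? = some (Instr.push (M + 3) false) := by
    have := hL.b1 4 (by norm_num)
    rw [show 46 + M + P.length + 4 = 50 + M + P.length by omega] at this
    exact this
  have h5 : R[51 + M + L]? = some (Instr.push (M + 1) false) := by
    have := hL.b1 5 (by norm_num)
    rw [show 46 + M + P.length + 5 = 51 + M + P.length by omega] at this
    exact this
  have h6 : R[52 + M + L]? = some (Instr.pop (M + 7) 8 8 8) := by
    have := hL.b1 6 (by norm_num)
    rw [show 46 + M + P.length + 6 = 52 + M + P.length by omega] at this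
    exact this
  -- the common end
  have hend : ∀ f' : ℕ → List Bool, f' (M + 7) = [] →
      (step O R)^[2] ⟨51 + M + L, f'⟩ =
        ⟨8, Function.update f' (M + 1) (false :: f' (M + 1))⟩ := by
    intro f' hf'
    have e1 : step O R ⟨51 + M + L, f'⟩ =
        ⟨52 + M + L, Function.update f' (M + 1) (false :: f' (M + 1))⟩ := by
      unfold step
      simp only [h5]
      congr 1
      omega
    have v : Function.update f' (M + 1) (false :: f' (M + 1)) (M + 7) = [] := by
      rw [Function.update_of_ne (by omega), hf']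
    change step O R (step O R ⟨51 + M + L, f'⟩) = _
    rw [e1]
    unfold step
    simp only [h6, v]
  set g1 : ℕ → List Bool := Function.update f 1 [] with hg1
  have w7 : g1 (M + 7) = [] := by rw [hg1, Function.update_of_ne (by omega), h7]
  have w3 : g1 (M + 3) = [r] := by rw [hg1, Function.update_of_ne (by omega), hr]
  have w1 : g1 (M + 1) = f (M + 1) := by rw [hg1, Function.update_of_ne (by omega)]
  have ww : g1 1 = [] := by rw [hg1, Function.update_self]
  have wo : ∀ j, j ≠ 1 → g1 j = f j := fun j hj => by rw [hg1, Function.update_of_ne hj]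
  cases a with
  | false =>
    have e1 : step O R ⟨46 + M + L, f⟩ = ⟨51 + M + L, g1⟩ := by
      unfold step
      simp only [h0, ha]
      rfl
    refine ⟨2 + 1, by norm_num, Function.update g1 (M + 1) (false :: g1 (M + 1)), ?_, ?_, ?_,
      ?_, ?_⟩
    · rw [Function.iterate_add_apply]
      change (step O R)^[2] (step O R ⟨46 + M + L, f⟩) = _
      rw [e1, hend g1 w7]
    · rw [Function.update_of_ne (by omega), ww]
    · rw [Function.update_of_ne (by omega), w3, Bool.false_xor]
    · rw [Function.update_self, w1]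
    · intro j j1 j2 j3
      rw [Function.update_of_ne j3, wo j j1]
  | true =>
    have e1 : step O R ⟨46 + M + L, f⟩ = ⟨47 + M + L, g1⟩ := by
      unfold step
      simp only [h0, ha]
      rfl
    set g2 : ℕ → List Bool := Function.update g1 (M + 3) [] with hg2
    have y7 : g2 (M + 7) = [] := by rw [hg2, Function.update_of_ne (by omega), w7]
    have y3 : g2 (M + 3) = [] := by rw [hg2, Function.update_self]
    have y1 : g2 (M + 1) = f (M + 1) := by rw [hg2, Function.update_of_ne (by omega), w1]
    have yy : g2 1 = [] := by rw [hg2, Function.update_of_ne (by omega), ww]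
    have yo : ∀ j, j ≠ 1 → j ≠ M + 3 → g2 j = f j := fun j hj hj3 => by
      rw [hg2, Function.update_of_ne hj3, wo j hj]
    cases r with
    | false =>
      have e2 : step O R ⟨47 + M + L, g1⟩ = ⟨48 + M + L, g2⟩ := by
        unfold step
        simp only [h1, w3]
        rfl
      set g3 : ℕ → List Bool := Function.update g2 (M + 3) (true :: g2 (M + 3)) with hg3
      have e3 : step O R ⟨48 + M + L, g2⟩ = ⟨49 + M + L, g3⟩ := by
        unfold step
        simp only [h2]
        congr 1
        omega
      have z7 : g3 (M + 7) = [] := by rw [hg3, Function.update_of_ne (by omega), y7]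
      have e4 : step O R ⟨49 + M + L, g3⟩ = ⟨51 + M + L, g3⟩ := by
        unfold step
        simp only [h3, z7]
      refine ⟨2 + 4, by norm_num, Function.update g3 (M + 1) (false :: g3 (M + 1)), ?_, ?_, ?_,
        ?_, ?_⟩
      · rw [Function.iterate_add_apply]
        change (step O R)^[2] (step O R (step O R (step O R (step O R ⟨46 + M + L, f⟩)))) = _
        rw [e1, e2, e3, e4, hend g3 z7]
      · rw [Function.update_of_ne (by omega), hg3, Function.update_of_ne (by omega), yy]
      · rw [Function.update_of_ne (by omega), hg3, Function.update_self, y3]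
        rfl
      · rw [Function.update_self, hg3, Function.update_of_ne (by omega), y1]
      · intro j j1 j2 j3
        rw [Function.update_of_ne j3, hg3, Function.update_of_ne j2, yo j j1 j2]
    | true =>
      have e2 : step O R ⟨47 + M + L, g1⟩ = ⟨50 + M + L, g2⟩ := by
        unfold step
        simp only [h1, w3]
        rfl
      set g3 : ℕ → List Bool := Function.update g2 (M + 3) (false :: g2 (M + 3)) with hg3
      have e3 : step O R ⟨50 + M + L, g2⟩ = ⟨51 + M + L, g3⟩ := by
        unfold step
        simp only [h4]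
        congr 1
        omega
      have z7 : g3 (M + 7) = [] := by rw [hg3, Function.update_of_ne (by omega), y7]
      refine ⟨2 + 3, by norm_num, Function.update g3 (M + 1) (false :: g3 (M + 1)), ?_, ?_, ?_,
        ?_, ?_⟩
      · rw [Function.iterate_add_apply]
        change (step O R)^[2] (step O R (step O R (step O R ⟨46 + M + L, f⟩))) = _
        rw [e1, e2, e3, hend g3 z7]
      · rw [Function.update_of_ne (by omega), hg3, Function.update_of_ne (by omega), yy]
      · rw [Function.update_of_ne (by omega), hg3, Function.update_self, y3]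
        rfl
      · rw [Function.update_self, hg3, Function.update_of_ne (by omega), y1]
      · intro j j1 j2 j3
        rw [Function.update_of_ne j3, hg3, Function.update_of_ne j2, yo j j1 j2]

/-- the output -/
theorem run2 (O : Lang) {M : ℕ} (hM : 10 ≤ M) {P R : List Instr} (hL : Lay M P R)
    (f : ℕ → List Bool) (r : Bool) (ha : f 1 = []) (hr : f (M + 3) = [r])
    (h7 : f (M + 7) = []) :
    ∃ t ≤ 3, ∃ g : ℕ → List Bool,
      (step O R)^[t] ⟨53 + M + P.length, f⟩ = ⟨57 + M + P.length, g⟩ ∧ g 1 = [r] := by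
  set L := P.length with hLdef
  have h0 : R[53 + M + L]? = some (Instr.pop (M + 3) (54 + M + L) (56 + M + L) (57 + M + L)) :=
    hL.b2 0 (by norm_num)
  have h1 : R[54 + M + L]? = some (Instr.push 1 false) := by
    have := hL.b2 1 (by norm_num)
    rw [show 53 + M + P.length + 1 = 54 + M + P.length by omega] at this
    exact this
  have h2 : R[55 + M + L]? =
      some (Instr.pop (M + 7) (57 + M + L) (57 + M + L) (57 + M + L)) := by
    have := hL.b2 2 (by norm_num)
    rw [show 53 + M + P.length + 2 = 55 + M + P.length by omega] at this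
    exact this
  have h3 : R[56 + M + L]? = some (Instr.push 1 true) := by
    have := hL.b2 3 (by norm_num)
    rw [show 53 + M + P.length + 3 = 56 + M + P.length by omega] at this
    exact this
  set g1 : ℕ → List Bool := Function.update f (M + 3) [] with hg1
  have w7 : g1 (M + 7) = [] := by rw [hg1, Function.update_of_ne (by omega), h7]
  have ww : g1 1 = [] := by rw [hg1, Function.update_of_ne (by omega), ha]
  cases r with
  | false =>
    have e1 : step O R ⟨53 + M + L, f⟩ = ⟨54 + M + L, g1⟩ := by
      unfold step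
      simp only [h0, hr]
      rfl
    set g2 : ℕ → List Bool := Function.update g1 1 (false :: g1 1) with hg2
    have e2 : step O R ⟨54 + M + L, g1⟩ = ⟨55 + M + L, g2⟩ := by
      unfold step
      simp only [h1]
      congr 1
      omega
    have z7 : g2 (M + 7) = [] := by rw [hg2, Function.update_of_ne (by omega), w7]
    refine ⟨3, le_rfl, g2, ?_, ?_⟩
    · change step O R (step O R (step O R ⟨53 + M + L, f⟩)) = _
      rw [e1, e2]
      unfold step
      simp only [h2, z7]
    · rw [hg2, Function.update_self, ww]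
  | true =>
    have e1 : step O R ⟨53 + M + L, f⟩ = ⟨56 + M + L, g1⟩ := by
      unfold step
      simp only [h0, hr]
      rfl
    refine ⟨2, by norm_num, Function.update g1 1 (true :: g1 1), ?_, ?_⟩
    · change step O R (step O R ⟨53 + M + L, f⟩) = _
      rw [e1]
      unfold step
      simp only [h3]
      congr 1
      omega
    · rw [Function.update_self, ww]

/-- the call of `P` -/
theorem runP (h4 : T_GROW) (O A : Lang) {M : ℕ} (hM : 10 ≤ M) {P R : List Instr}
    (hL : Lay M P R) {T : ℕ → ℕ} (hP : Decides O P A T) (hB : ∀ ins ∈ P, stk ins < M)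
    (w : List Bool) (g : ℕ → List Bool) (hg0 : g 0 = w) (hg : ∀ j, j ≠ 0 → j < M → g j = []) :
    ∃ t ≤ T w.length, ∃ g' : ℕ → List Bool,
      (step O R)^[t] ⟨46 + M, g⟩ = ⟨46 + M + P.length, g'⟩ ∧ g' 1 = [A w] ∧
      (∀ j, M ≤ j → g' j = g j) ∧ ∀ j < M, (g' j).length ≤ w.length + T w.length := by
  obtain ⟨p1, p2⟩ := hP w
  set c0 : Cfg := ⟨0, Function.update (fun _ => []) 0 w⟩ with hc0
  have hst : c0.st = Function.update (fun _ => []) 0 w := rfl
  have hpc : c0.pc = 0 := rfl
  have k1 : (⟨46 + M, g⟩ : Cfg) = rel 0 M P.length (46 + M) g c0 := by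
    have e : g = mg 0 M c0.st g := by
      funext i
      unfold mg
      by_cases h : 0 ≤ i ∧ i < 0 + M
      · rw [if_pos h, hst, Nat.sub_zero]
        by_cases hi : i = 0
        · rw [hi, Function.update_self, hg0]
        · rw [Function.update_of_ne hi, hg i hi (by omega)]
      · rw [if_neg h]
    unfold rel
    rw [← e, hpc, Nat.zero_min, Nat.zero_add]
  obtain ⟨t, ht, s⟩ := run_rel O g hB hL.b0 c0 (T w.length)
  set cP : Cfg := (step O P)^[T w.length] c0 with hcP
  have hP3 : P.length ≤ cP.pc := p1
  have hP4 : cP.st 1 = [A w] := p2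
  refine ⟨t, ht, mg 0 M cP.st g, ?_, ?_, ?_, ?_⟩
  · rw [k1, s]
    unfold rel
    rw [min_eq_right hP3, Nat.add_comm]
  · unfold mg
    rw [if_pos (by omega), Nat.sub_zero, hP4]
  · intro j hj
    unfold mg
    rw [if_neg (by omega)]
  · intro j hj
    unfold mg
    rw [if_pos (by omega), Nat.sub_zero]
    have := h4 O P c0 j (T w.length)
    refine this.trans ?_
    have : (c0.st j).length ≤ w.length := by
      rw [hst]
      by_cases hi : j = 0
      · rw [hi, Function.update_self]
      · rw [Function.update_of_ne hi]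
        simp
    omega

/-- the invariant at the head of the loop -/
structure Inv (A : Lang) (M K : ℕ) (x : List Bool) (i : ℕ) (f : ℕ → List Bool) : Prop where
  c0 : f M = x.reverse
  c1 : f (M + 1) = List.replicate i false
  c2 : f (M + 2) = List.replicate (x.length - i) false
  c3 : f (M + 3) = [XR A x i]
  c4 : f (M + 4) = []
  c5 : f (M + 5) = []
  c6 : f (M + 6) = []
  c7 : f (M + 7) = []
  o : f 1 = []
  k : ∀ s < M, (f s).length ≤ K

theorem sw_length {n i : ℕ} (hi : i < n) : (sw n i).length = n := by
  unfold sw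
  simp only [List.length_append, List.length_replicate, List.length_cons]
  omega

/-- one loop -/
theorem loop1 (h1 : T_CP) (h2 : T_MV) (h3 : T_CLR) (h4 : T_GROW) (O A : Lang) {M : ℕ}
    (hM : 10 ≤ M) {P R : List Instr} (hL : Lay M P R) {T : ℕ → ℕ} (hP : Decides O P A T)
    (hB : ∀ ins ∈ P, stk ins < M) (x : List Bool) (i : ℕ) (hi : i < x.length)
    (f : ℕ → List Bool) (hf : Inv A M (2 * x.length + T (2 * x.length)) x i f) :
    ∃ t ≤ M * (2 * x.length + T (2 * x.length) + 1) + 14 * x.length + T (2 * x.length) + 15,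
      ∃ g : ℕ → List Bool, (step O R)^[t] ⟨8, f⟩ = ⟨8, g⟩ ∧
        Inv A M (2 * x.length + T (2 * x.length)) x (i + 1) g := by
  set n := x.length with hn
  set K := 2 * n + T (2 * n) with hK
  -- head
  obtain ⟨m, hm⟩ : ∃ m, n - i = m + 1 := ⟨n - i - 1, by omega⟩
  have hc2 : f (M + 2) = false :: List.replicate m false := by
    rw [hf.c2, hm, List.replicate_succ]
  set f1 : ℕ → List Bool := Function.update f (M + 2) (List.replicate m false) with hf1
  have e0 : step O R ⟨8, f⟩ = ⟨9, f1⟩ := by
    unfold step
    simp only [hL.a1, hc2]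
    rfl
  have f1o : ∀ j, j ≠ M + 2 → f1 j = f j := fun j hj => by rw [hf1, Function.update_of_ne hj]
  have f12 : f1 (M + 2) = List.replicate m false := by rw [hf1, Function.update_self]
  -- clear
  have e1 := h3 O R M 9 hL.a2 f1
  set f2 : ℕ → List Bool := fun s => if s < M then [] else f1 s with hf2
  have f2a : ∀ j, j < M → f2 j = [] := fun j hj => by
    rw [hf2]
    simp only [hj, if_true]
  have f2b : ∀ j, M ≤ j → f2 j = f1 j := fun j hj => by
    rw [hf2]
    simp only [not_lt.2 hj, if_false]
  have t1 : ∑ s ∈ Finset.range M, ((f1 s).length + 1) ≤ M * (K + 1) := by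
    calc ∑ s ∈ Finset.range M, ((f1 s).length + 1) ≤ ∑ _s ∈ Finset.range M, (K + 1) := by
          apply Finset.sum_le_sum
          intro s hs
          have hs' := Finset.mem_range.1 hs
          have := hf.k s hs'
          rw [f1o s (by omega)]
          omega
      _ = M * (K + 1) := by rw [Finset.sum_const, Finset.card_range, smul_eq_mul]
  -- first copy
  obtain ⟨f3, e2, v31, v34, v30, v3⟩ := run_cp h1 O R (9 + M) (M + 1) (M + 4) (M + 7)
    (by omega) (by omega) (by omega) (by omega) (by omega) (by omega) hL.a3 f2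
    (by rw [f2b _ (by omega), f1o _ (by omega), hf.c7])
  have u1 : f2 (M + 1) = List.replicate i false := by
    rw [f2b _ (by omega), f1o _ (by omega), hf.c1]
  have u4 : f2 (M + 4) = [] := by rw [f2b _ (by omega), f1o _ (by omega), hf.c4]
  rw [u1, u4, List.reverse_replicate, List.append_nil] at v34
  rw [u1, f2a 0 (by omega), List.reverse_replicate, List.append_nil] at v30
  rw [u1, List.length_replicate] at e2
  -- push
  set f4 : ℕ → List Bool := Function.update f3 0 (true :: f3 0) with hf4
  have e3 : step O R ⟨16 + M, f3⟩ = ⟨17 + M, f4⟩ := by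
    unfold step
    simp only [hL.a4]
    congr 1
    omega
  have f4o : ∀ j, j ≠ 0 → f4 j = f3 j := fun j hj => by rw [hf4, Function.update_of_ne hj]
  have f40 : f4 0 = true :: List.replicate i false := by rw [hf4, Function.update_self, v30]
  -- second copy
  obtain ⟨f5, e4, v52, v55, v50, v5⟩ := run_cp h1 O R (17 + M) (M + 2) (M + 5) (M + 7)
    (by omega) (by omega) (by omega) (by omega) (by omega) (by omega) hL.a5 f4
    (by rw [f4o _ (by omega), v3 _ (by omega) (by omega) (by omega), f2b _ (by omega),
      f1o _ (by omega), hf.c7])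
  have u2 : f4 (M + 2) = List.replicate m false := by
    rw [f4o _ (by omega), v3 _ (by omega) (by omega) (by omega), f2b _ (by omega), f12]
  have u5 : f4 (M + 5) = [] := by
    rw [f4o _ (by omega), v3 _ (by omega) (by omega) (by omega), f2b _ (by omega),
      f1o _ (by omega), hf.c5]
  rw [u2, u5, List.reverse_replicate, List.append_nil] at v55
  rw [u2, f40, List.reverse_replicate] at v50
  rw [u2, List.length_replicate] at e4
  -- third copy
  obtain ⟨f6, e5, v60, v66, v600, v6⟩ := run_cp h1 O R (24 + M) M (M + 6) (M + 7)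
    (by omega) (by omega) (by omega) (by omega) (by omega) (by omega) hL.a6 f5
    (by rw [v5 _ (by omega) (by omega) (by omega), f4o _ (by omega),
      v3 _ (by omega) (by omega) (by omega), f2b _ (by omega), f1o _ (by omega), hf.c7])
  have u0 : f5 M = x.reverse := by
    rw [v5 _ (by omega) (by omega) (by omega), f4o _ (by omega),
      v3 _ (by omega) (by omega) (by omega), f2b _ (by omega), f1o _ (by omega), hf.c0]
  have u6 : f5 (M + 6) = [] := by
    rw [v5 _ (by omega) (by omega) (by omega), f4o _ (by omega),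
      v3 _ (by omega) (by omega) (by omega), f2b _ (by omega), f1o _ (by omega), hf.c6]
  rw [u0, u6, List.reverse_reverse, List.append_nil] at v66
  rw [u0, v50, List.reverse_reverse] at v600
  rw [u0, List.length_reverse, ← hn] at e5
  have hw : x ++ (List.replicate m false ++ true :: List.replicate i false) = x ++ sw n i := by
    unfold sw
    rw [show n - 1 - i = m by omega]
  rw [hw] at v600
  -- back
  obtain ⟨f7, e6, v74, v71, v7⟩ := run_mv h2 O R (31 + M) (M + 4) (M + 1) (M + 7)
    (by omega) (by omega) (by omega) hL.a7 f6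
    (by rw [v6 _ (by omega) (by omega) (by omega), v5 _ (by omega) (by omega) (by omega),
      f4o _ (by omega), v3 _ (by omega) (by omega) (by omega), f2b _ (by omega),
      f1o _ (by omega), hf.c7])
  have w4 : f6 (M + 4) = List.replicate i false := by
    rw [v6 _ (by omega) (by omega) (by omega), v5 _ (by omega) (by omega) (by omega),
      f4o _ (by omega), v34]
  have w1 : f6 (M + 1) = [] := by
    rw [v6 _ (by omega) (by omega) (by omega), v5 _ (by omega) (by omega) (by omega),
      f4o _ (by omega), v31]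
  rw [w4, w1, List.reverse_replicate, List.append_nil] at v71
  rw [w4, List.length_replicate] at e6
  obtain ⟨f8, e7, v85, v82, v8⟩ := run_mv h2 O R (36 + M) (M + 5) (M + 2) (M + 7)
    (by omega) (by omega) (by omega) hL.a8 f7
    (by rw [v7 _ (by omega) (by omega), v6 _ (by omega) (by omega) (by omega),
      v5 _ (by omega) (by omega) (by omega), f4o _ (by omega),
      v3 _ (by omega) (by omega) (by omega), f2b _ (by omega), f1o _ (by omega), hf.c7])
  have w5 : f7 (M + 5) = List.replicate m false := by
    rw [v7 _ (by omega) (by omega), v6 _ (by omega) (by omega) (by omega), v55]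
  have w2 : f7 (M + 2) = [] := by
    rw [v7 _ (by omega) (by omega), v6 _ (by omega) (by omega) (by omega), v52]
  rw [w5, w2, List.reverse_replicate, List.append_nil] at v82
  rw [w5, List.length_replicate] at e7
  obtain ⟨f9, e8, v96, v90, v9⟩ := run_mv h2 O R (41 + M) (M + 6) M (M + 7)
    (by omega) (by omega) (by omega) hL.a9 f8
    (by rw [v8 _ (by omega) (by omega), v7 _ (by omega) (by omega),
      v6 _ (by omega) (by omega) (by omega), v5 _ (by omega) (by omega) (by omega),
      f4o _ (by omega), v3 _ (by omega) (by omega) (by omega), f2b _ (by omega),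
      f1o _ (by omega), hf.c7])
  have w6 : f8 (M + 6) = x := by
    rw [v8 _ (by omega) (by omega), v7 _ (by omega) (by omega), v66]
  have w0 : f8 M = [] := by
    rw [v8 _ (by omega) (by omega), v7 _ (by omega) (by omega), v60]
  rw [w6, w0, List.append_nil] at v90
  rw [w6, ← hn] at e8
  -- the call of `P`
  have z0 : f9 0 = x ++ sw n i := by
    rw [v9 _ (by omega) (by omega), v8 _ (by omega) (by omega), v7 _ (by omega) (by omega), v600]
  have zs : ∀ j, j ≠ 0 → j < M → f9 j = [] := by
    intro j j0 jM
    rw [v9 _ (by omega) (by omega), v8 _ (by omega) (by omega), v7 _ (by omega) (by omega),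
      v6 _ (by omega) (by omega) (by omega), v5 _ (by omega) (by omega) (by omega),
      f4o _ (by omega), v3 _ (by omega) (by omega) (by omega), f2a _ jM]
  obtain ⟨tP, htP, f10, e9, o10, v10, k10⟩ := runP h4 O A hM hL hP hB (x ++ sw n i) f9 z0 zs
  have hwl : (x ++ sw n i).length = 2 * n := by
    rw [List.length_append, sw_length hi]
    omega
  rw [hwl] at htP k10
  -- the end
  have x3 : f9 (M + 3) = [XR A x i] := by
    rw [v9 _ (by omega) (by omega), v8 _ (by omega) (by omega), v7 _ (by omega) (by omega),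
      v6 _ (by omega) (by omega) (by omega), v5 _ (by omega) (by omega) (by omega),
      f4o _ (by omega), v3 _ (by omega) (by omega) (by omega), f2b _ (by omega),
      f1o _ (by omega), hf.c3]
  have x7 : f9 (M + 7) = [] := by
    rw [v9 _ (by omega) (by omega), v8 _ (by omega) (by omega), v7 _ (by omega) (by omega),
      v6 _ (by omega) (by omega) (by omega), v5 _ (by omega) (by omega) (by omega),
      f4o _ (by omega), v3 _ (by omega) (by omega) (by omega), f2b _ (by omega),
      f1o _ (by omega), hf.c7]
  obtain ⟨tE, htE, g, e10, og, og3, og1, vg⟩ := run1 O hM hL f10 (A (x ++ sw n i)) (XR A x i)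
    o10 (by rw [v10 _ (by omega), x3]) (by rw [v10 _ (by omega), x7])
  refine ⟨tE + (tP + ((3 * n + 1) + ((3 * m + 1) + ((3 * i + 1) + ((4 * n + 1) +
    ((4 * m + 1) + (1 + ((4 * i + 1) + (∑ s ∈ Finset.range M, ((f1 s).length + 1) + 1))))))))),
    ?_, g, ?_, ?_⟩
  · have : M * (K + 1) = M * (2 * n + T (2 * n) + 1) := rfl
    omega
  · rw [Function.iterate_add_apply _ tE, Function.iterate_add_apply _ tP,
      Function.iterate_add_apply _ (3 * n + 1), Function.iterate_add_apply _ (3 * m + 1),
      Function.iterate_add_apply _ (3 * i + 1), Function.iterate_add_apply _ (4 * n + 1),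
      Function.iterate_add_apply _ (4 * m + 1), Function.iterate_add_apply _ 1,
      Function.iterate_add_apply _ (4 * i + 1),
      Function.iterate_add_apply _ (∑ s ∈ Finset.range M, ((f1 s).length + 1))]
    change (step O R)^[tE] ((step O R)^[tP] ((step O R)^[3 * n + 1] ((step O R)^[3 * m + 1]
      ((step O R)^[3 * i + 1] ((step O R)^[4 * n + 1] ((step O R)^[4 * m + 1] (step O R
      ((step O R)^[4 * i + 1] ((step O R)^[∑ s ∈ Finset.range M, ((f1 s).length + 1)]
      (step O R ⟨8, f⟩)))))))))) = _
    rw [e0, e1, e2]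
    rw [show 9 + M + 7 = 16 + M by omega, e3, e4]
    rw [show 17 + M + 7 = 24 + M by omega, e5]
    rw [show 24 + M + 7 = 31 + M by omega, e6]
    rw [show 31 + M + 5 = 36 + M by omega, e7]
    rw [show 36 + M + 5 = 41 + M by omega, e8]
    rw [show 41 + M + 5 = 46 + M by omega, e9, e10]
  · refine ⟨?_, ?_, ?_, ?_, ?_, ?_, ?_, ?_, ?_, ?_⟩
    · rw [vg _ (by omega) (by omega) (by omega), v10 _ (by omega), v90]
    · rw [og1, v10 _ (by omega), v9 _ (by omega) (by omega), v8 _ (by omega) (by omega), v71,
        List.replicate_succ]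
    · rw [vg _ (by omega) (by omega) (by omega), v10 _ (by omega), v9 _ (by omega) (by omega),
        v82, show x.length - (i + 1) = m by omega]
    · rw [og3]
      rfl
    · rw [vg _ (by omega) (by omega) (by omega), v10 _ (by omega), v9 _ (by omega) (by omega),
        v8 _ (by omega) (by omega), v74]
    · rw [vg _ (by omega) (by omega) (by omega), v10 _ (by omega), v9 _ (by omega) (by omega),
        v85]
    · rw [vg _ (by omega) (by omega) (by omega), v10 _ (by omega), v96]
    · rw [vg _ (by omega) (by omega) (by omega), v10 _ (by omega), x7]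
    · exact og
    · intro s hs
      by_cases h1s : s = 1
      · rw [h1s, og]
        simp
      · rw [vg _ h1s (by omega) (by omega)]
        exact k10 s hs

end LOOP_

open LOOP_ in
theorem p_LOOP_of (h1 : T_CP) (h2 : T_MV) (h3 : T_CLR) (h4 : T_GROW) : T_LOOP := by
  intro O A P T hP
  obtain ⟨B, hB'⟩ := Pool.Agent.RelB.XOR_.stk_bound P
  set M : ℕ := B + 10 with hMdef
  have hM : 10 ≤ M := by omega
  have hB : ∀ ins ∈ P, stk ins < M := fun ins h => by have := hB' ins h; omega
  have hL := lay M P
  refine ⟨lp M P, 2 * M + 21, fun T' hT' x => ?_⟩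
  set n := x.length with hn
  set R := lp M P with hR
  set W := M * (2 * n + T (2 * n) + 1) + 14 * n + T (2 * n) + 15 with hW
  -- the beginning
  obtain ⟨g0, e0, a0, aM, a2, ao⟩ := run0 O hM hL x (Function.update (fun _ => []) 0 x)
    (by simp) (by rw [Function.update_of_ne (by omega)])
  have i0 : ∀ j, j ≠ 0 → Function.update (fun _ => ([] : List Bool)) 0 x j = [] := fun j hj => by
    rw [Function.update_of_ne hj]
  rw [i0 _ (by omega), List.append_nil] at aM
  rw [i0 _ (by omega), List.append_nil] at a2
  set g1 : ℕ → List Bool := Function.update g0 (M + 3) (false :: g0 (M + 3)) with hg1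
  have e1 : step O R ⟨7, g0⟩ = ⟨8, g1⟩ := by
    have h7 : R[7]? = some (Instr.push (M + 3) false) := hL.a0 7 (by norm_num)
    unfold step
    simp only [h7]
    rfl
  have g1o : ∀ j, j ≠ M + 3 → g1 j = g0 j := fun j hj => by rw [hg1, Function.update_of_ne hj]
  have inv0 : Inv A M (2 * n + T (2 * n)) x 0 g1 := by
    refine ⟨?_, ?_, ?_, ?_, ?_, ?_, ?_, ?_, ?_, ?_⟩
    · rw [g1o _ (by omega), aM]
    · rw [g1o _ (by omega), ao _ (by omega) (by omega) (by omega), i0 _ (by omega)]
      rfl
    · rw [g1o _ (by omega), a2, Nat.sub_zero]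
    · rw [hg1, Function.update_self, ao _ (by omega) (by omega) (by omega), i0 _ (by omega)]
      rfl
    · rw [g1o _ (by omega), ao _ (by omega) (by omega) (by omega), i0 _ (by omega)]
    · rw [g1o _ (by omega), ao _ (by omega) (by omega) (by omega), i0 _ (by omega)]
    · rw [g1o _ (by omega), ao _ (by omega) (by omega) (by omega), i0 _ (by omega)]
    · rw [g1o _ (by omega), ao _ (by omega) (by omega) (by omega), i0 _ (by omega)]
    · rw [g1o _ (by omega), ao _ (by omega) (by omega) (by omega), i0 _ (by omega)]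
    · intro s hs
      rw [g1o _ (by omega)]
      by_cases hs0 : s = 0
      · rw [hs0, a0]
        simp
      · rw [ao _ hs0 (by omega) (by omega), i0 _ hs0]
        simp
  -- the loops
  have hloop : ∀ i, i ≤ n → ∃ t ≤ 4 * n + 2 + i * W, ∃ f : ℕ → List Bool,
      (step O R)^[t] ⟨0, Function.update (fun _ => []) 0 x⟩ = ⟨8, f⟩ ∧
        Inv A M (2 * n + T (2 * n)) x i f := by
    intro i
    induction i with
    | zero =>
      intro _
      refine ⟨1 + (4 * n + 1), by omega, g1, ?_, inv0⟩
      rw [Function.iterate_add_apply, e0]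
      exact e1
    | succ i ih =>
      intro hi
      obtain ⟨t, ht, f, hf1, hf2⟩ := ih (by omega)
      obtain ⟨t', ht', g, hg2, hg3⟩ := loop1 h1 h2 h3 h4 O A hM hL hP hB x i (by omega) f hf2
      refine ⟨t' + t, ?_, g, ?_, hg3⟩
      · have : (i + 1) * W = i * W + W := by ring
        rw [this]
        have : t' ≤ W := ht'
        omega
      · rw [Function.iterate_add_apply, hf1, hg2]
  obtain ⟨t, ht, f, hf1, hf2⟩ := hloop n le_rfl
  -- the output
  have hc2 : f (M + 2) = [] := by
    rw [hf2.c2, Nat.sub_self]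
    rfl
  have e2 : step O R ⟨8, f⟩ = ⟨53 + M + P.length, f⟩ := by
    unfold step
    simp only [hL.a1, hc2]
  obtain ⟨t3, ht3, g, e3, hg⟩ := run2 O hM hL f (XR A x n) hf2.o hf2.c3 hf2.c7
  have hrun : run O R x (t3 + (1 + t)) = ⟨57 + M + P.length, g⟩ := by
    unfold run
    rw [Function.iterate_add_apply, Function.iterate_add_apply, hf1]
    change (step O R)^[t3] (step O R ⟨8, f⟩) = _
    rw [e2, e3]
  have hh : Halts O R x (t3 + (1 + t)) := by
    unfold Halts
    rw [hrun, hL.len]
  have hle : t3 + (1 + t) ≤ T' n := by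
    refine le_trans ?_ (hT' n)
    have h5 : t3 + (1 + t) ≤ 4 * n + 6 + n * W := by omega
    refine h5.trans ?_
    have h6 : W ≤ (2 * M + 15) * (T (2 * n) + n + 1) := by
      rw [hW]
      nlinarith [Nat.zero_le (M * T (2 * n)), Nat.zero_le M]
    have h7 : n * W ≤ n * ((2 * M + 15) * (T (2 * n) + n + 1)) := Nat.mul_le_mul_left _ h6
    have h8 : 4 * n + 6 ≤ 6 * (n + 1) * (T (2 * n) + n + 1) := by nlinarith
    calc 4 * n + 6 + n * W ≤ 6 * (n + 1) * (T (2 * n) + n + 1) +
          n * ((2 * M + 15) * (T (2 * n) + n + 1)) := Nat.add_le_add h8 h7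
      _ ≤ (2 * M + 21) * (n + 1) * (T (2 * n) + n + 1) := by
        have : (2 * M + 21) * (n + 1) * (T (2 * n) + n + 1) =
            6 * (n + 1) * (T (2 * n) + n + 1) + n * ((2 * M + 15) * (T (2 * n) + n + 1)) +
            (2 * M + 15) * (T (2 * n) + n + 1) := by ring
        rw [this]
        exact Nat.le_add_right _ _
  refine ⟨halts_mono _ _ _ _ _ hh hle, ?_⟩
  rw [stay _ _ _ _ _ hh hle, hrun]
  exact hg

end Pool.Agent.RelC
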