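import Pool.Agent.RelC.Mach

/-!
# RelC, target LOOPA: `E`, `E_2` and polynomial time are closed under `XL` (estimates)
-/

set_option autoImplicit false

namespace Pool.Agent.RelC

open Pool.Agent.RelM (Lang Instr Cfg step run Halts Decides E1 E2 NP pair triple)

namespace LOOPA_

theorem time1 (C c n : ℕ) : C * (n + 1) * (2 ^ (c * (2 * n + 1)) + n + 1) ≤
    2 ^ ((C + 2 * c + 3) * (n + 1)) := by
  have h1 : C ≤ 2 ^ (C * (n + 1)) := by
    have g1 : C < 2 ^ C := Nat.lt_two_pow_self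
    have g2 : 2 ^ C ≤ 2 ^ (C * (n + 1)) :=
      Nat.pow_le_pow_right (by norm_num) (Nat.le_mul_of_pos_right C (by omega))
    omega
  have h2 : n + 1 ≤ 2 ^ (n + 1) := le_of_lt Nat.lt_two_pow_self
  have h3 : 2 ^ (c * (2 * n + 1)) ≤ 2 ^ (2 * c * (n + 1)) :=
    Nat.pow_le_pow_right (by norm_num) (by nlinarith)
  set a := 2 * c * (n + 1) with ha
  have h4 : 2 ^ a ≤ 2 ^ (a + (n + 1)) := Nat.pow_le_pow_right (by norm_num) (by omega)
  have h5 : 2 ^ (n + 1) ≤ 2 ^ (a + (n + 1)) := Nat.pow_le_pow_right (by norm_num) (by omega)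
  have h6 : 2 ^ (a + (n + 1) + 1) ≤ 2 ^ (a + (n + 1) + (n + 1)) :=
    Nat.pow_le_pow_right (by norm_num) (by omega)
  rw [pow_succ] at h6
  have h7 : 2 ^ (c * (2 * n + 1)) + n + 1 ≤ 2 ^ (a + (n + 1) + (n + 1)) := by omega
  calc C * (n + 1) * (2 ^ (c * (2 * n + 1)) + n + 1)
      ≤ 2 ^ (C * (n + 1)) * 2 ^ (n + 1) * 2 ^ (a + (n + 1) + (n + 1)) :=
        Nat.mul_le_mul (Nat.mul_le_mul h1 h2) h7
    _ = 2 ^ ((C + 2 * c + 3) * (n + 1)) := by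
        rw [← pow_add, ← pow_add, ha]
        congr 1
        ring

theorem sq (n : ℕ) : 2 * n + 2 ≤ (n + 2) ^ 2 := by nlinarith

theorem base (c n : ℕ) : (2 * n + 2) ^ c ≤ (n + 2) ^ (2 * c) := by
  rw [pow_mul]
  exact Nat.pow_le_pow_left (sq n) c

theorem self (C n : ℕ) : C ≤ (n + 2) ^ C := by
  have g1 : C < 2 ^ C := Nat.lt_two_pow_self
  have g2 : 2 ^ C ≤ (n + 2) ^ C := Nat.pow_le_pow_left (by omega) _
  omega

theorem time2 (C c n : ℕ) : C * (n + 1) * (2 ^ ((2 * n + 2) ^ c) + n + 1) ≤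
    2 ^ ((n + 2) ^ (C + 2 * c + 3)) := by
  have h1 : C ≤ 2 ^ C := le_of_lt Nat.lt_two_pow_self
  have h2 : n + 1 ≤ 2 ^ (n + 1) := le_of_lt Nat.lt_two_pow_self
  have h3 : 2 ^ ((2 * n + 2) ^ c) ≤ 2 ^ ((n + 2) ^ (2 * c)) :=
    Nat.pow_le_pow_right (by norm_num) (base c n)
  set a := (n + 2) ^ (2 * c) with ha
  have h4 : 2 ^ a ≤ 2 ^ (a + (n + 1)) := Nat.pow_le_pow_right (by norm_num) (by omega)
  have h5 : 2 ^ (n + 1) ≤ 2 ^ (a + (n + 1)) := Nat.pow_le_pow_right (by norm_num) (by omega)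
  have h6 : 2 ^ (a + (n + 1) + 1) = 2 ^ (a + (n + 1)) * 2 := pow_succ _ _
  have h7 : 2 ^ ((2 * n + 2) ^ c) + n + 1 ≤ 2 ^ (a + (n + 1) + 1) := by omega
  have h8 : C + (n + 1) + (a + (n + 1) + 1) ≤ (n + 2) ^ (C + 2 * c + 3) := by
    have k1 : C ≤ (n + 2) ^ C := self C n
    set m := n + 2 with hm
    have hm2 : 2 ≤ m := by omega
    have k2 : m ^ C ≤ m ^ (C + 2 * c) := Nat.pow_le_pow_right (by omega) (by omega)
    have k3 : a ≤ m ^ (C + 2 * c) := Nat.pow_le_pow_right (by omega) (by omega)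
    have k4 : 1 ≤ m ^ (C + 2 * c) := Nat.one_le_pow _ _ (by omega)
    have k5 : m ^ (C + 2 * c + 3) = m ^ (C + 2 * c) * m ^ 3 := pow_add _ _ _
    rw [k5]
    set z := m ^ (C + 2 * c) with hz
    have k6 : C + (n + 1) + (a + (n + 1) + 1) ≤ z * (2 + 2 * m) := by
      have : 2 * m ≤ z * (2 * m) := Nat.le_mul_of_pos_left _ (by omega)
      have e : z * (2 + 2 * m) = 2 * z + z * (2 * m) := by ring
      omega
    have k7 : 2 + 2 * m ≤ m ^ 3 := by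
      have : m ^ 3 = m * m * m := by ring
      nlinarith [Nat.mul_le_mul hm2 hm2]
    exact k6.trans (Nat.mul_le_mul_left z k7)
  calc C * (n + 1) * (2 ^ ((2 * n + 2) ^ c) + n + 1)
      ≤ 2 ^ C * 2 ^ (n + 1) * 2 ^ (a + (n + 1) + 1) :=
        Nat.mul_le_mul (Nat.mul_le_mul h1 h2) h7
    _ = 2 ^ (C + (n + 1) + (a + (n + 1) + 1)) := by rw [← pow_add, ← pow_add]
    _ ≤ _ := Nat.pow_le_pow_right (by norm_num) h8

theorem time3 (C c n : ℕ) : C * (n + 1) * ((2 * n + 2) ^ c + n + 1) ≤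
    (n + 2) ^ (C + 2 * c + 3) := by
  have k1 : C ≤ (n + 2) ^ C := self C n
  have k2 := base c n
  set m := n + 2 with hm
  have hm2 : 2 ≤ m := by omega
  have k4 : 1 ≤ m ^ (2 * c) := Nat.one_le_pow _ _ (by omega)
  have k5 : (2 * n + 2) ^ c + n + 1 ≤ m ^ (2 * c) * m ^ 2 := by
    have k6 : 1 + m ≤ m ^ 2 := by nlinarith
    have k7 : m ^ (2 * c) * (1 + m) ≤ m ^ (2 * c) * m ^ 2 := Nat.mul_le_mul_left _ k6
    have k8 : m ≤ m ^ (2 * c) * m := Nat.le_mul_of_pos_left _ (by omega)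
    have e : m ^ (2 * c) * (1 + m) = m ^ (2 * c) + m ^ (2 * c) * m := by ring
    omega
  calc C * (n + 1) * ((2 * n + 2) ^ c + n + 1) ≤ m ^ C * m * (m ^ (2 * c) * m ^ 2) :=
        Nat.mul_le_mul (Nat.mul_le_mul k1 (by omega)) k5
    _ = m ^ (C + 2 * c + 3) := by
        rw [pow_add, pow_add]
        ring

end LOOPA_

open LOOPA_ in
/-- **LOOPA** -/
theorem p_LOOPA_of (h1 : T_LOOP) : T_LOOPA := by
  intro O A
  refine ⟨?_, ?_, ?_⟩
  · rintro ⟨P, c, h⟩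
    obtain ⟨P', C, h'⟩ := h1 O A P _ h
    exact ⟨P', C + 2 * c + 3, h' _ fun n => time1 C c n⟩
  · rintro ⟨P, c, h⟩
    obtain ⟨P', C, h'⟩ := h1 O A P _ h
    exact ⟨P', C + 2 * c + 3, h' _ fun n => time2 C c n⟩
  · rintro ⟨P, c, h⟩
    obtain ⟨P', C, h'⟩ := h1 O A P _ h
    exact ⟨P', C + 2 * c + 3, h' _ fun n => time3 C c n⟩

end Pool.Agent.RelC
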