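import Pool.Agent.RelC.Targets
import Pool.Agent.RelS.STAR

/-!
# The parameters with special words
-/

set_option autoImplicit false

namespace Pool.Agent.RelC

open Pool.Agent.RelS

namespace PAR_

/-- The multiplier of the word number `s`. -/
noncomputable def mu (s : ℕ) : ℝ :=
  Real.exp (-((Nat.log 2 ((s + 1) % 2 ^ (Nat.log 2 (s + 1) / 2)) : ℕ) : ℝ)) * Real.log 2

theorem log2_pos : 0 < Real.log 2 := Real.log_pos (by norm_num)

theorem mu_nonneg (s : ℕ) : 0 ≤ mu s := by
  unfold mu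
  have := log2_pos
  positivity

theorem mu_le (s : ℕ) : mu s ≤ Real.log 2 := by
  unfold mu
  have := log2_pos
  have h : Real.exp (-((Nat.log 2 ((s + 1) % 2 ^ (Nat.log 2 (s + 1) / 2)) : ℕ) : ℝ)) ≤ 1 :=
    Real.exp_le_one_iff.2 (neg_nonpos.2 (Nat.cast_nonneg _))
  nlinarith

theorem mu_wn (t i : ℕ) (hi : i < Nat.log 2 (t + 1)) :
    mu (wn t i) = Real.exp (-(i : ℝ)) * Real.log 2 := by
  set n := Nat.log 2 (t + 1) with hn
  have h1 : 2 ^ n ≤ t + 1 := Nat.pow_log_le_self 2 (by omega)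
  have h2 : t + 1 < 2 ^ (n + 1) := Nat.lt_pow_succ_log_self (by norm_num) (t + 1)
  have h3 : (2 : ℕ) ^ i < 2 ^ n := Nat.pow_lt_pow_right (by norm_num) hi
  have h4 : 1 ≤ 2 ^ i := Nat.one_le_two_pow
  have h5 : wn t i + 1 = (t + 1) * 2 ^ n + 2 ^ i := by
    unfold wn
    rw [← hn]
    omega
  have h6 : Nat.log 2 (wn t i + 1) = 2 * n := by
    rw [h5, Nat.log_eq_iff (Or.inr ⟨by norm_num, by positivity⟩)]
    constructor
    · calc 2 ^ (2 * n) = 2 ^ n * 2 ^ n := by rw [two_mul, pow_add]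
        _ ≤ (t + 1) * 2 ^ n := Nat.mul_le_mul_right _ h1
        _ ≤ _ := Nat.le_add_right _ _
    · calc (t + 1) * 2 ^ n + 2 ^ i < (t + 1) * 2 ^ n + 2 ^ n := by omega
        _ = (t + 1 + 1) * 2 ^ n := by ring
        _ ≤ 2 ^ (n + 1) * 2 ^ n := Nat.mul_le_mul_right _ h2
        _ = 2 ^ (2 * n + 1) := by rw [← pow_add]; congr 1; ring
  have h7 : (wn t i + 1) % 2 ^ n = 2 ^ i := by
    rw [h5, Nat.add_comm, Nat.add_mul_mod_self_right, Nat.mod_eq_of_lt h3]
  unfold mu
  rw [h6, Nat.mul_div_cancel_left _ (by norm_num), h7, Nat.log_pow (by norm_num)]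

end PAR_

open PAR_ in
/-- PAR. -/
theorem p_PAR_of (h1 : T_SUM) : T_PAR := by
  obtain ⟨C, hC⟩ := h1
  have hl : 0 < Real.log 2 := log2_pos
  have hC0 : 0 ≤ C := by simpa using hC 0 0 le_rfl
  have hv : ∀ v : ℕ, (0 : ℝ) < (v : ℝ) + 1 := fun v => by positivity
  refine ⟨{
    K := fun v => v + 1
    av := fun v => C / (((v : ℝ) + 1) * Real.log 2)
    lam := fun i => Real.exp ((i : ℝ) * 1)
    mu := fun _ s => mu s
    B := fun v => ⌈Real.exp ((v : ℝ) + 1) * Real.log 2⌉₊
    pv := fun v _ => 1 / ((v : ℝ) + 1)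
    av0 := fun v => by have := hv v; positivity
    avl := ?_
    K1 := fun v => by omega
    Kl := fun v => le_rfl
    lam0 := fun i => (Real.exp_pos _).le
    mu0 := fun _ s => mu_nonneg s
    bd := ?_
    pv0 := fun v i => by have := hv v; positivity
    pv1 := ?_
    cov := ?_
    sp := ?_ }⟩
  · have h := (tendsto_one_div_add_atTop_nhds_zero_nat (𝕜 := ℝ)).const_mul (C / Real.log 2)
    rw [mul_zero] at h
    refine h.congr fun v => ?_
    have := hv v
    field_simp
  · intro v i κ t hi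
    refine le_trans ?_ (Nat.le_ceil _)
    refine mul_le_mul (Real.exp_le_exp.2 ?_) (mu_le t) (mu_nonneg t) (Real.exp_pos _).le
    rw [mul_one]
    have : (i : ℝ) < ((v + 1 : ℕ) : ℝ) := by exact_mod_cast hi
    push_cast at this
    exact this.le
  · intro v
    rw [Finset.sum_const, Finset.card_range, nsmul_eq_mul]
    push_cast
    exact mul_one_div_cancel (hv v).ne'
  · intro v D _ e A he hA
    rw [Finset.sum_range]
    refine le_trans (low_bound (K := v + 1) (τ := 1) (pv := fun _ => 1 / ((v : ℝ) + 1))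
      (c := C / ((v : ℝ) + 1)) (by omega) zero_le_one (fun i => by have := hv v; positivity)
      (fun u hu => ?_) he hA) (le_of_eq ?_)
    · have h := hC (v + 1) u hu
      rw [Finset.sum_range] at h
      rw [← Finset.mul_sum, div_eq_mul_one_div C, mul_comm C]
      exact mul_le_mul_of_nonneg_left h (by have := hv v; positivity)
    · have := hv v
      field_simp
  · intro κ t i hi
    change Real.exp ((i : ℝ) * 1) * mu (wn t i) = Real.log 2
    rw [mu_wn t i hi, ← mul_assoc, ← Real.exp_add]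
    simp

end Pool.Agent.RelC
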