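import Pool.Agent.RelC.Mach

/-!
# Target PX: closure properties of polynomial time relative to `A`
-/

set_option autoImplicit false

namespace Pool.Agent.RelC

open MeasureTheory Set
open scoped ENNReal
open Pool.Agent.RelM (Lang Instr Cfg step run Halts Decides E1 E2 NP pair triple run_zero run_succ
  stay halts_mono)

namespace PX_

/-- the program that asks the oracle about its input -/
def ask : List Instr :=
  [Instr.ask 0 1 3, Instr.push 1 false, Instr.pop 2 4 4 4, Instr.push 1 true]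

theorem ask_spec (A : Lang) (x : List Bool) :
    Halts A ask x 3 ∧ (run A ask x 3).st 1 = [A x] := by
  have e1 : step A ask ⟨0, Function.update (fun _ => []) 0 x⟩ =
      ⟨if A x then 3 else 1, Function.update (fun _ => []) 0 x⟩ := by
    unfold step ask
    simp
  unfold Halts run
  rw [Function.iterate_succ_apply, e1]
  cases h : A x
  · have e2 : step A ask ⟨1, Function.update (fun _ => []) 0 x⟩ =
        ⟨2, Function.update (Function.update (fun _ => []) 0 x) 1 [false]⟩ := by
      unfold step ask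
      simp
    have e3 : step A ask ⟨2, Function.update (Function.update (fun _ => []) 0 x) 1 [false]⟩ =
        ⟨4, Function.update (Function.update (fun _ => []) 0 x) 1 [false]⟩ := by
      unfold step ask
      simp
    simp only [Bool.false_eq_true, if_false, Function.iterate_succ_apply, Function.iterate_zero,
      id, e2, e3]
    simp [ask]
  · have e2 : step A ask ⟨3, Function.update (fun _ => []) 0 x⟩ =
        ⟨4, Function.update (Function.update (fun _ => []) 0 x) 1 [true]⟩ := by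
      unfold step ask
      simp
    have e3 : step A ask ⟨4, Function.update (Function.update (fun _ => []) 0 x) 1 [true]⟩ =
        ⟨4, Function.update (Function.update (fun _ => []) 0 x) 1 [true]⟩ := by
      unfold step ask
      simp
    simp only [if_true, Function.iterate_succ_apply, Function.iterate_zero, id, e2, e3]
    simp [ask]

theorem empty_spec (A : Lang) (x : List Bool) :
    Halts A [Instr.push 1 false] x 1 ∧ (run A [Instr.push 1 false] x 1).st 1 = [false] := by
  unfold Halts run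
  have e1 : step A [Instr.push 1 false] ⟨0, Function.update (fun _ => []) 0 x⟩ =
      ⟨1, Function.update (Function.update (fun _ => []) 0 x) 1 [false]⟩ := by
    unfold step
    simp
  simp only [Function.iterate_succ_apply, Function.iterate_zero, id, e1]
  simp

theorem mono {O : Lang} {P : List Instr} {x : List Bool} {b : Bool} {s t : ℕ}
    (h : Halts O P x s ∧ (run O P x s).st 1 = [b]) (hst : s ≤ t) :
    Halts O P x t ∧ (run O P x t).st 1 = [b] :=
  ⟨halts_mono _ _ _ _ _ h.1 hst, by rw [stay _ _ _ _ _ h.1 hst]; exact h.2⟩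

theorem timeA (d k n : ℕ) : (3 * n + 1) + (d + (3 * n + 1)) + (n + d + 2) ^ k ≤
    (n + 2) ^ (d + 7 + (d + 1) * k + 1) := by
  have h3 : n + d + 2 ≤ (n + 2) ^ (d + 1) := by
    have h1 : d < 2 ^ d := Nat.lt_two_pow_self
    have h2 : 2 ^ d ≤ (n + 2) ^ d := Nat.pow_le_pow_left (by omega) _
    rw [pow_succ]
    have h4 : (d + 1) * (n + 2) ≤ (n + 2) ^ d * (n + 2) := Nat.mul_le_mul_right _ (by omega)
    have h5 : n + d + 2 ≤ (d + 1) * (n + 2) := by nlinarith
    omega
  have h6 : (n + d + 2) ^ k ≤ (n + 2) ^ ((d + 1) * k) := by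
    rw [pow_mul]
    exact Nat.pow_le_pow_left h3 k
  have h1 : (3 * n + 1) + (d + (3 * n + 1)) ≤ (d + 6) * (n + 1) := by nlinarith
  have h2 : (d + 6) * (n + 1) ≤ (n + 2) ^ (d + 7) := by
    have g1 : d + 6 < 2 ^ (d + 6) := Nat.lt_two_pow_self
    have g2 : 2 ^ (d + 6) ≤ (n + 2) ^ (d + 6) := Nat.pow_le_pow_left (by omega) _
    rw [pow_succ]
    exact Nat.mul_le_mul (by omega) (by omega)
  set e := d + 7 + (d + 1) * k with he
  have k1 : (n + 2) ^ (d + 7) ≤ (n + 2) ^ e := Nat.pow_le_pow_right (by omega) (by omega)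
  have k2 : (n + d + 2) ^ k ≤ (n + 2) ^ e := h6.trans (Nat.pow_le_pow_right (by omega) (by omega))
  rw [pow_succ]
  nlinarith

theorem timeX (c d n : ℕ) : 7 * n + 2 + (n + 2) ^ c + (n + 2) ^ d + 4 ≤
    (n + 2) ^ (c + d + 6) := by
  have h1 : 7 * n + 6 ≤ (n + 2) ^ (c + d + 4) := by
    have g1 : (n + 2) ^ 4 ≤ (n + 2) ^ (c + d + 4) := Nat.pow_le_pow_right (by omega) (by omega)
    have g2 : 7 * n + 6 ≤ (n + 2) ^ 4 := by
      have g3 : 2 ^ 3 ≤ (n + 2) ^ 3 := Nat.pow_le_pow_left (by omega) 3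
      have g4 : (n + 2) ^ 4 = (n + 2) ^ 3 * (n + 2) := pow_succ _ 3
      rw [g4]
      nlinarith
    omega
  have h2 : (n + 2) ^ c ≤ (n + 2) ^ (c + d + 4) := Nat.pow_le_pow_right (by omega) (by omega)
  have h3 : (n + 2) ^ d ≤ (n + 2) ^ (c + d + 4) := Nat.pow_le_pow_right (by omega) (by omega)
  have h4 : (n + 2) ^ (c + d + 6) = (n + 2) ^ (c + d + 4) * (n + 2) ^ 2 := pow_add _ _ 2
  have h5 : 4 ≤ (n + 2) ^ 2 := by nlinarith
  have h6 : (n + 2) ^ (c + d + 4) * 4 ≤ (n + 2) ^ (c + d + 4) * (n + 2) ^ 2 :=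
    Nat.mul_le_mul_left _ h5
  omega

end PX_

open PX_ in
theorem p_PX : T_PX := by
  intro A
  refine ⟨⟨ask, 2, fun x => ?_⟩, ⟨[Instr.push 1 false], 0, fun x => ?_⟩, ?_, ?_⟩
  · exact mono (ask_spec A x)
      ((by norm_num : 3 ≤ 2 ^ 2).trans (Nat.pow_le_pow_left (Nat.le_add_left 2 x.length) 2))
  · exact mono (empty_spec A x) (by simp : 1 ≤ (x.length + 2) ^ 0)
  · rintro L c ⟨P, k, h⟩
    exact ⟨_, _, Pool.Agent.RelB.APP_.decides c h fun n => timeA _ _ _⟩
  · rintro L M ⟨P, k, h⟩ ⟨Q, l, h'⟩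
    obtain ⟨R, hR⟩ := Pool.Agent.RelB.XOR_.main A h h' fun n => timeX k l n
    exact ⟨R, _, hR⟩

end Pool.Agent.RelC
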