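import Pool.Agent.RelC.Mach

/-!
# RelC, targets CP, MV, CLR, GROW: program segments and stack growth
-/

set_option autoImplicit false

namespace Pool.Agent.RelC

open Pool.Agent.RelM (Lang Instr Cfg step run Halts Decides E1 E2 NP pair triple)

namespace SEG_

theorem cp_run (O : Lang) (R : List Instr) (p s t e : ℕ) (hs : s ≠ 0) (ht : t ≠ 0) (he : e ≠ 0)
    (hst : s ≠ t) (hse : s ≠ e) (hte : t ≠ e) (h : ∀ i < 7, R[p + i]? = (cp s t e p)[i]?) :
    ∀ (u : List Bool) (f : ℕ → List Bool), f s = u → f e = [] →
      (step O R)^[4 * u.length + 1] ⟨p, f⟩ = ⟨p + 7, Function.update (Function.update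
        (Function.update f s []) t (u.reverse ++ f t)) 0 (u.reverse ++ f 0)⟩ := by
  have h0 : R[p]? = some (Instr.pop s (p + 1) (p + 4) (p + 7)) := h 0 (by norm_num)
  have h1 : R[p + 1]? = some (Instr.push 0 false) := h 1 (by norm_num)
  have h2 : R[p + 2]? = some (Instr.push t false) := h 2 (by norm_num)
  have h3 : R[p + 3]? = some (Instr.pop e p p p) := h 3 (by norm_num)
  have h4 : R[p + 4]? = some (Instr.push 0 true) := h 4 (by norm_num)
  have h5 : R[p + 5]? = some (Instr.push t true) := h 5 (by norm_num)
  have h6 : R[p + 6]? = some (Instr.pop e p p p) := h 6 (by norm_num)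
  intro u
  induction u with
  | nil =>
    intro f hf _
    have e' : step O R ⟨p, f⟩ = ⟨p + 7, f⟩ := by
      unfold step
      simp only [h0, hf]
    simp only [List.length_nil, mul_zero, zero_add, Function.iterate_one, List.reverse_nil,
      List.nil_append]
    rw [e']
    congr 1
    funext i
    by_cases hi0 : i = 0
    · subst hi0
      simp
    · rw [Function.update_of_ne hi0]
      by_cases hi : i = t
      · subst hi
        simp
      · rw [Function.update_of_ne hi]
        by_cases hi1 : i = s
        · subst hi1
          simp [hf]
        · rw [Function.update_of_ne hi1]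
  | cons b u ih =>
    intro f hf h9
    set g1 : ℕ → List Bool := Function.update f s u with hg1
    set g2 : ℕ → List Bool := Function.update g1 0 (b :: f 0) with hg2
    set g3 : ℕ → List Bool := Function.update g2 t (b :: f t) with hg3
    have e1 : step O R ⟨p, f⟩ = ⟨if b then p + 4 else p + 1, g1⟩ := by
      unfold step
      simp only [h0, hf]
      cases b <;> rfl
    have v0 : g1 0 = f 0 := by rw [hg1, Function.update_of_ne (Ne.symm hs)]
    have vM : g2 t = f t := by
      rw [hg2, Function.update_of_ne ht, hg1, Function.update_of_ne (Ne.symm hst)]
    have v9 : g3 e = [] := by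
      rw [hg3, Function.update_of_ne (Ne.symm hte), hg2, Function.update_of_ne he, hg1,
        Function.update_of_ne (Ne.symm hse), h9]
    have v1 : g3 s = u := by
      rw [hg3, Function.update_of_ne hst, hg2, Function.update_of_ne hs, hg1,
        Function.update_self]
    have w0 : g3 0 = b :: f 0 := by
      rw [hg3, Function.update_of_ne (Ne.symm ht), hg2, Function.update_self]
    have wM : g3 t = b :: f t := by rw [hg3, Function.update_self]
    have e2 : step O R ⟨if b then p + 4 else p + 1, g1⟩ = ⟨if b then p + 5 else p + 2, g2⟩ := by
      cases b
      · unfold step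
        simp only [Bool.false_eq_true, if_false, h1]
        rw [v0]
      · unfold step
        simp only [if_true, h4]
        rw [v0]
    have e3 : step O R ⟨if b then p + 5 else p + 2, g2⟩ = ⟨if b then p + 6 else p + 3, g3⟩ := by
      cases b
      · unfold step
        simp only [Bool.false_eq_true, if_false, h2]
        rw [vM]
      · unfold step
        simp only [if_true, h5]
        rw [vM]
    have e4 : step O R ⟨if b then p + 6 else p + 3, g3⟩ = ⟨p, g3⟩ := by
      cases b
      · unfold step
        simp only [Bool.false_eq_true, if_false, h3, v9]
      · unfold step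
        simp only [if_true, h6, v9]
    have e5 : (step O R)^[4] ⟨p, f⟩ = ⟨p, g3⟩ := by
      change step O R (step O R (step O R (step O R ⟨p, f⟩))) = _
      rw [e1, e2, e3, e4]
    have e6 : 4 * (b :: u).length + 1 = (4 * u.length + 1) + 4 := by
      simp only [List.length_cons]
      ring
    rw [e6, Function.iterate_add_apply, e5, ih g3 v1 v9, w0, wM]
    congr 1
    funext i
    by_cases hi0 : i = 0
    · subst hi0
      simp
    · rw [Function.update_of_ne hi0, Function.update_of_ne hi0]
      by_cases hi : i = t
      · subst hi
        simp
      · rw [Function.update_of_ne hi, Function.update_of_ne hi]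
        by_cases hi1 : i = s
        · subst hi1
          simp
        · rw [Function.update_of_ne hi1, Function.update_of_ne hi1, hg3,
            Function.update_of_ne hi, hg2, Function.update_of_ne hi0, hg1,
            Function.update_of_ne hi1]

theorem mv_run (O : Lang) (Q : List Instr) (p s t e : ℕ) (hst : s ≠ t) (hs : s ≠ e) (ht : t ≠ e)
    (h : ∀ i < 5, Q[p + i]? = (mv s t e p)[i]?) :
    ∀ (u : List Bool) (f : ℕ → List Bool), f s = u → f e = [] →
      (step O Q)^[3 * u.length + 1] ⟨p, f⟩ =
        ⟨p + 5, Function.update (Function.update f s []) t (u.reverse ++ f t)⟩ := by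
  have h0 : Q[p]? = some (Instr.pop s (p + 1) (p + 3) (p + 5)) := h 0 (by norm_num)
  have h1 : Q[p + 1]? = some (Instr.push t false) := h 1 (by norm_num)
  have h2 : Q[p + 2]? = some (Instr.pop e p p p) := h 2 (by norm_num)
  have h3 : Q[p + 3]? = some (Instr.push t true) := h 3 (by norm_num)
  have h4 : Q[p + 4]? = some (Instr.pop e p p p) := h 4 (by norm_num)
  intro u
  induction u with
  | nil =>
    intro f hf _
    have e' : step O Q ⟨p, f⟩ = ⟨p + 5, f⟩ := by
      unfold step
      simp only [h0, hf]
    simp only [List.length_nil, mul_zero, zero_add, Function.iterate_one, List.reverse_nil,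
      List.nil_append]
    rw [e']
    congr 1
    funext i
    by_cases hi : i = t
    · subst hi
      simp
    · by_cases hi2 : i = s
      · subst hi2
        simp [Function.update_of_ne hi, hf]
      · simp [Function.update_of_ne hi, Function.update_of_ne hi2]
  | cons b u ih =>
    intro f hf h9
    have e1 : step O Q ⟨p, f⟩ = ⟨if b then p + 3 else p + 1, Function.update f s u⟩ := by
      unfold step
      simp only [h0, hf]
      cases b <;> rfl
    set g : ℕ → List Bool := Function.update (Function.update f s u) t (b :: f t) with hg
    have hg9 : g e = [] := by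
      rw [hg, Function.update_of_ne ht.symm, Function.update_of_ne hs.symm, h9]
    have hgs : g s = u := by
      rw [hg, Function.update_of_ne hst, Function.update_self]
    have hgt : g t = b :: f t := by rw [hg, Function.update_self]
    have e2 : step O Q ⟨if b then p + 3 else p + 1, Function.update f s u⟩ =
        ⟨if b then p + 4 else p + 2, g⟩ := by
      cases b
      · unfold step
        simp only [Bool.false_eq_true, if_false, h1]
        rw [hg, Function.update_of_ne hst.symm]
      · unfold step
        simp only [if_true, h3]
        rw [hg, Function.update_of_ne hst.symm]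
    have e3 : step O Q ⟨if b then p + 4 else p + 2, g⟩ = ⟨p, g⟩ := by
      cases b
      · unfold step
        simp only [Bool.false_eq_true, if_false, h2, hg9]
      · unfold step
        simp only [if_true, h4, hg9]
    have e4 : 3 * (b :: u).length + 1 = (3 * u.length + 1) + 3 := by
      simp only [List.length_cons]
      ring
    rw [e4, Function.iterate_add_apply]
    have e5 : (step O Q)^[3] ⟨p, f⟩ = ⟨p, g⟩ := by
      change step O Q (step O Q (step O Q ⟨p, f⟩)) = _
      rw [e1, e2, e3]
    rw [e5, ih g hgs hg9, hgt]
    congr 1
    funext i
    by_cases hi : i = t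
    · subst hi
      simp
    · by_cases hi2 : i = s
      · subst hi2
        simp [Function.update_of_ne hi]
      · simp [Function.update_of_ne hi, Function.update_of_ne hi2, hg]

/-- one stack is cleared -/
theorem clr1 (O : Lang) (R : List Instr) (q s : ℕ) (h : R[q]? = some (Instr.pop s q q (q + 1))) :
    ∀ (u : List Bool) (f : ℕ → List Bool), f s = u →
      (step O R)^[u.length + 1] ⟨q, f⟩ = ⟨q + 1, Function.update f s []⟩ := by
  intro u
  induction u with
  | nil =>
    intro f hf
    simp only [List.length_nil, zero_add, Function.iterate_one]
    unfold step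
    simp only [h, hf]
    congr 1
    rw [← hf, Function.update_eq_self]
  | cons b u ih =>
    intro f hf
    have e1 : step O R ⟨q, f⟩ = ⟨q, Function.update f s u⟩ := by
      unfold step
      simp only [h, hf]
      cases b <;> rfl
    rw [List.length_cons, Function.iterate_succ_apply, e1,
      ih (Function.update f s u) (by rw [Function.update_self]), Function.update_idem]

theorem clr_get {M p i : ℕ} (hi : i < M) :
    (clr M p)[i]? = some (Instr.pop i (p + i) (p + i) (p + i + 1)) := by
  unfold clr
  rw [List.getElem?_map, List.getElem?_range hi]
  rfl

theorem step_len (O : Lang) (P : List Instr) (c : Cfg) (s : ℕ) :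
    ((step O P c).st s).length ≤ (c.st s).length + 1 := by
  unfold step
  rcases P[c.pc]? with _ | ins
  · exact Nat.le_succ _
  · cases ins with
    | push r b =>
      by_cases h : s = r
      · subst h
        simp
      · simp only [Function.update_of_ne h]
        exact Nat.le_succ _
    | pop r l₀ l₁ l₂ =>
      rcases hr : c.st r with _ | ⟨b, u⟩
      · simp only [hr]
        exact Nat.le_succ _
      · have key : (Function.update c.st r u s).length ≤ (c.st s).length + 1 := by
          by_cases h : s = r
          · subst h
            rw [Function.update_self, hr, List.length_cons]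
            omega
          · rw [Function.update_of_ne h]
            exact Nat.le_succ _
        cases b
        · simp only [hr]
          exact key
        · simp only [hr]
          exact key
    | ask r l₀ l₁ => exact Nat.le_succ _

end SEG_

open SEG_

/-- **CP** -/
theorem p_CP : T_CP := by
  intro O R p s t e hs ht he hst hse hte h f hf
  exact cp_run O R p s t e hs ht he hst hse hte h (f s) f rfl hf

/-- **MV** -/
theorem p_MV : T_MV := by
  intro O R p s t e hst hs ht h f hf
  exact mv_run O R p s t e hst hs ht h (f s) f rfl hf

/-- **CLR** -/
theorem p_CLR : T_CLR := by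
  intro O R M
  induction M with
  | zero =>
    intro p _ f
    simp
  | succ M ih =>
    intro p h f
    have h' : ∀ i < M, R[p + i]? = (clr M p)[i]? := by
      intro i hi
      rw [h i (by omega), clr_get (show i < M + 1 by omega), clr_get hi]
    rw [Finset.sum_range_succ, add_comm, Function.iterate_add_apply, ih p h' f]
    have hM : R[p + M]? = some (Instr.pop M (p + M) (p + M) (p + M + 1)) := by
      rw [h M (by omega), clr_get (Nat.lt_succ_self M)]
    rw [clr1 O R (p + M) M hM (f M) _ (by simp)]
    congr 1
    funext i
    by_cases hi : i = M
    · subst hi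
      simp
    · rw [Function.update_of_ne hi]
      by_cases hi2 : i < M
      · rw [if_pos hi2, if_pos (by omega)]
      · rw [if_neg hi2, if_neg (by omega)]

/-- **GROW** -/
theorem p_GROW : T_GROW := by
  intro O P c s t
  induction t with
  | zero => exact le_rfl
  | succ t ih =>
    rw [Function.iterate_succ_apply']
    refine (step_len O P _ s).trans ?_
    omega

end Pool.Agent.RelC
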