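import Pool.Agent.RelC.Targets

/-!
# The numbers of the special words (STR)
-/

set_option autoImplicit false

namespace Pool.Agent.RelC

open Pool.Agent.RelM (str)

namespace STR_

theorem bits_shift (a : ℕ) (ha : 0 < a) : ∀ k : ℕ,
    Nat.bits (a * 2 ^ k) = List.replicate k false ++ Nat.bits a
  | 0 => by simp
  | k + 1 => by
    have h1 : a * 2 ^ (k + 1) = Nat.bit false (a * 2 ^ k) := by
      rw [Nat.bit_val, pow_succ]
      simp only [Bool.toNat_false, add_zero]
      ring
    have h2 : 0 < a * 2 ^ k := by positivity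
    rw [h1, Nat.bits_append_bit _ _ (fun h => by omega), bits_shift a ha k]
    rfl

theorem bits_word (m n i : ℕ) (hm : 0 < m) (hi : i < n) :
    Nat.bits (m * 2 ^ n + 2 ^ i) =
      List.replicate i false ++ true :: (List.replicate (n - 1 - i) false ++ Nat.bits m) := by
  have h1 : m * 2 ^ n + 2 ^ i = (Nat.bit true (m * 2 ^ (n - 1 - i))) * 2 ^ i := by
    have e : n = (n - 1 - i) + 1 + i := by omega
    have e2 : (2 : ℕ) ^ n = 2 ^ (n - 1 - i) * 2 * 2 ^ i := by
      calc (2 : ℕ) ^ n = 2 ^ ((n - 1 - i) + 1 + i) := by rw [← e]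
        _ = _ := by rw [pow_add, pow_succ]
    rw [Nat.bit_val, e2]
    simp only [Bool.toNat_true]
    ring
  have h2 : 0 < Nat.bit true (m * 2 ^ (n - 1 - i)) := by
    rw [Nat.bit_val]
    simp
  rw [h1, bits_shift _ h2, Nat.bits_append_bit _ _ (fun _ => rfl), bits_shift m hm]

theorem str_length (t : ℕ) : (str t).length = Nat.log 2 (t + 1) := by
  unfold str
  rw [List.length_reverse, List.length_dropLast, Nat.size_eq_bits_len]
  have h1 : Nat.size (t + 1) = Nat.log 2 (t + 1) + 1 := by
    refine le_antisymm ?_ ?_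
    · rw [Nat.size_le]
      exact Nat.lt_pow_succ_log_self (by norm_num) _
    · rw [Nat.succ_le_iff, Nat.lt_size]
      exact Nat.pow_log_le_self 2 (by omega)
  rw [h1]
  rfl

end STR_

open STR_ in
/-- The numbers of the special words. -/
theorem p_STR : T_STR := by
  intro t i hi
  have hwn : wn t i + 1 = (t + 1) * 2 ^ Nat.log 2 (t + 1) + 2 ^ i := by
    unfold wn
    have : 0 < 2 ^ i := by positivity
    omega
  have h2 : Nat.bits (t + 1) ≠ [] := by
    intro h3
    have h4 := congrArg List.length h3
    rw [Nat.size_eq_bits_len, List.length_nil, Nat.size_eq_zero] at h4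
    omega
  have h3 : str (wn t i) = ((List.replicate i false ++ true :: List.replicate
      (Nat.log 2 (t + 1) - 1 - i) false) ++ (Nat.bits (t + 1)).dropLast).reverse := by
    unfold str
    rw [hwn, bits_word _ _ _ (Nat.succ_pos t) hi, ← List.dropLast_append_of_ne_nil h2]
    simp
  rw [h3, List.reverse_append, str_length]
  unfold sw
  simp [str]

end Pool.Agent.RelC
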