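import Pool.Agent.RelC.Targets

/-!
# RelC, target SUM: the sum of the entropies is bounded
-/

set_option autoImplicit false

namespace Pool.Agent.RelC

open Pool.Agent.RelS (gf)

namespace SUM_

theorem nml_sqrt {x : ℝ} (h0 : 0 ≤ x) : Real.negMulLog x ≤ 2 * √x := by
  rcases h0.eq_or_lt with h | h
  · rw [← h]
    simp
  have hs : 0 < √x := Real.sqrt_pos.2 h
  have h1 : Real.log (√x)⁻¹ ≤ (√x)⁻¹ - 1 := Real.log_le_sub_one_of_pos (inv_pos.2 hs)
  rw [Real.log_inv] at h1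
  have h2 : Real.log x = 2 * Real.log (√x) := by
    rw [Real.log_sqrt h0]
    ring
  have h3 : √x * √x = x := Real.mul_self_sqrt h0
  unfold Real.negMulLog
  rw [h2]
  have h4 : x * (√x)⁻¹ = √x := by
    nth_rewrite 1 [← h3]
    field_simp
  have h5 : x * (-Real.log (√x)) ≤ x * ((√x)⁻¹ - 1) := mul_le_mul_of_nonneg_left h1 h0
  rw [mul_sub, h4, mul_one] at h5
  nlinarith

theorem nml_one {x : ℝ} (h0 : 0 ≤ x) : Real.negMulLog x ≤ 1 - x := by
  rcases h0.eq_or_lt with h | h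
  · rw [← h]
    simp
  have h1 : Real.log x⁻¹ ≤ x⁻¹ - 1 := Real.log_le_sub_one_of_pos (inv_pos.2 h)
  rw [Real.log_inv] at h1
  unfold Real.negMulLog
  have h2 : x * (-Real.log x) ≤ x * (x⁻¹ - 1) := mul_le_mul_of_nonneg_left h1 h0
  rw [mul_sub, mul_inv_cancel₀ h.ne', mul_one] at h2
  linarith

theorem le_sqrt_self {x : ℝ} (h0 : 0 ≤ x) (h1 : x ≤ 1) : x ≤ √x := by
  refine Real.le_sqrt_of_sq_le ?_
  nlinarith

theorem be {p : ℝ} (h0 : 0 ≤ p) (h1 : p ≤ 1) : Real.binEntropy p ≤ 3 * √(1 - p) := by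
  rw [Real.binEntropy_eq_negMulLog_add_negMulLog_one_sub]
  have h2 := nml_one h0
  have h3 := nml_sqrt (x := 1 - p) (by linarith)
  have h4 := le_sqrt_self (x := 1 - p) (by linarith) (by linarith)
  linarith

theorem be' {p : ℝ} (h0 : 0 ≤ p) (h1 : p ≤ 1) : Real.binEntropy p ≤ 3 * √p := by
  have h := be (p := 1 - p) (by linarith) (by linarith)
  rwa [Real.binEntropy_one_sub, sub_sub_cancel] at h

theorem g1 {s : ℝ} (hs : 0 ≤ s) : gf (s ^ 2) ≤ 3 * s := by
  unfold gf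
  have hp : Real.exp (-s ^ 2) ≤ 1 := Real.exp_le_one_iff.2 (by nlinarith)
  refine (be (Real.exp_pos _).le hp).trans ?_
  have h1 : 1 - Real.exp (-s ^ 2) ≤ s ^ 2 := by
    have := Real.add_one_le_exp (-s ^ 2)
    linarith
  have h2 : √(1 - Real.exp (-s ^ 2)) ≤ s := by
    rw [Real.sqrt_le_left hs]
    exact h1
  linarith

theorem g2 {s : ℝ} (hs : 0 < s) : gf (s ^ 2) ≤ 3 / s := by
  unfold gf
  have hp : Real.exp (-s ^ 2) ≤ 1 := Real.exp_le_one_iff.2 (by nlinarith)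
  refine (be' (Real.exp_pos _).le hp).trans ?_
  have h1 : √(Real.exp (-s ^ 2)) = Real.exp (-(s ^ 2 / 2)) := by
    rw [← Real.exp_half]
    congr 1
    ring
  rw [h1, Real.exp_neg]
  have h2 : s ≤ Real.exp (s ^ 2 / 2) := by
    have := Real.add_one_le_exp (s ^ 2 / 2)
    nlinarith [sq_nonneg (s - 1)]
  rw [div_eq_mul_inv 3 s]
  have h3 : (Real.exp (s ^ 2 / 2))⁻¹ ≤ s⁻¹ := inv_anti₀ hs h2
  linarith

theorem g12 {s : ℝ} (hs : 0 ≤ s) : gf (s ^ 2) * (1 + s) ^ 2 ≤ 12 * s := by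
  rcases le_or_gt s 1 with h | h
  · have h1 := g1 hs
    have h2 : (1 + s) ^ 2 ≤ 4 := by nlinarith
    calc gf (s ^ 2) * (1 + s) ^ 2 ≤ 3 * s * (1 + s) ^ 2 :=
          mul_le_mul_of_nonneg_right h1 (sq_nonneg _)
      _ ≤ 3 * s * 4 := mul_le_mul_of_nonneg_left h2 (by positivity)
      _ = _ := by ring
  · have hs0 : 0 < s := by linarith
    have h1 := g2 hs0
    have h2 : (1 + s) ^ 2 ≤ 4 * s ^ 2 := by nlinarith
    calc gf (s ^ 2) * (1 + s) ^ 2 ≤ 3 / s * (1 + s) ^ 2 :=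
          mul_le_mul_of_nonneg_right h1 (sq_nonneg _)
      _ ≤ 3 / s * (4 * s ^ 2) := mul_le_mul_of_nonneg_left h2 (by positivity)
      _ = _ := by
        field_simp
        ring

theorem key {E s : ℝ} (hE : 1 < E) (hs : 0 ≤ s) :
    gf (s ^ 2) ≤ 12 * E / (E - 1) * (E * s / (1 + E * s) - s / (1 + s)) := by
  have hE1 : 0 < E - 1 := by linarith
  have hE0 : 0 < E := by linarith
  have h1 : 0 < 1 + E * s := by positivity
  have h2 : 0 < 1 + s := by positivity
  have e1 : 12 * E / (E - 1) * (E * s / (1 + E * s) - s / (1 + s)) =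
      12 * E * s / ((1 + E * s) * (1 + s)) := by
    field_simp
    ring
  rw [e1, le_div_iff₀ (by positivity)]
  have hg := g12 hs
  have hg0 : 0 ≤ gf (s ^ 2) := by
    unfold gf
    exact Real.binEntropy_nonneg (Real.exp_pos _).le (Real.exp_le_one_iff.2 (by nlinarith))
  have h3 : (1 + E * s) * (1 + s) ≤ E * (1 + s) ^ 2 := by nlinarith
  calc gf (s ^ 2) * ((1 + E * s) * (1 + s)) ≤ gf (s ^ 2) * (E * (1 + s) ^ 2) :=
        mul_le_mul_of_nonneg_left h3 hg0
    _ = E * (gf (s ^ 2) * (1 + s) ^ 2) := by ring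
    _ ≤ E * (12 * s) := mul_le_mul_of_nonneg_left hg hE0.le
    _ = _ := by ring

end SUM_

open SUM_ in
theorem p_SUM : T_SUM := by
  have hE : 1 < Real.exp (1 / 2) := Real.one_lt_exp_iff.2 (by norm_num)
  obtain ⟨E, hEd⟩ : ∃ E : ℝ, E = Real.exp (1 / 2) := ⟨_, rfl⟩
  rw [← hEd] at hE
  have hE1 : 0 < E - 1 := by linarith
  refine ⟨12 * E / (E - 1), fun K u hu => ?_⟩
  have hind : ∀ K : ℕ, ∑ i ∈ Finset.range K, gf (Real.exp ((i : ℝ) * 1) * u) ≤
      12 * E / (E - 1) * (E ^ K * √u / (1 + E ^ K * √u) - √u / (1 + √u)) := by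
    intro K
    induction K with
    | zero => simp
    | succ K ih =>
      rw [Finset.sum_range_succ]
      have hs : 0 ≤ E ^ K * √u := by positivity
      have h1 := key hE hs
      have h2 : (E ^ K * √u) ^ 2 = Real.exp ((K : ℝ) * 1) * u := by
        rw [mul_pow, Real.sq_sqrt hu, ← pow_mul, hEd, ← Real.exp_nat_mul]
        congr 2
        push_cast
        ring
      rw [h2] at h1
      have h3 : E ^ (K + 1) * √u = E * (E ^ K * √u) := by
        rw [pow_succ]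
        ring
      rw [h3]
      have h4 : 12 * E / (E - 1) * (E * (E ^ K * √u) / (1 + E * (E ^ K * √u)) - √u / (1 + √u)) =
          12 * E / (E - 1) * (E ^ K * √u / (1 + E ^ K * √u) - √u / (1 + √u)) +
          12 * E / (E - 1) * (E * (E ^ K * √u) / (1 + E * (E ^ K * √u)) -
            E ^ K * √u / (1 + E ^ K * √u)) := by ring
      rw [h4]
      exact add_le_add ih h1
  refine (hind K).trans ?_
  have hM : 0 ≤ 12 * E / (E - 1) := by positivity
  have h5 : E ^ K * √u / (1 + E ^ K * √u) ≤ 1 := by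
    rw [div_le_one (by positivity)]
    linarith
  have h6 : 0 ≤ √u / (1 + √u) := by positivity
  calc _ ≤ 12 * E / (E - 1) * 1 := mul_le_mul_of_nonneg_left (by linarith) hM
    _ = _ := mul_one _

end Pool.Agent.RelC
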