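import Pool.Agent.RelC.Core

/-!
# The targets of the jobs

THEOREM in preparation (`MP_a0edbc_lc`, extension of the landed result `BooleanHierarchy` to `a = 0`):
there is an oracle relative to which the WHOLE Boolean hierarchy over `NP` has dimension `0` in `E`
and `E_2`, while `Δ_2^p` is NOT null in `E` and NOT null in `E_2`.

The oracle is the one of `Pool.Agent.RelB` (read `RelB/Targets2.lean`); the number `K v` of the options
(factors `lam i = exp i`) depends on the stage and tends to infinity, so the mean entropy tends to `0`;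
`x` has `n = |x|` special words `x ++ 0^(n-1-i) 1 0^i`, the `i`-th of them is fair if the option is `i`; as
soon as `K ≤ n` the symmetric difference `XL (Rl z κ) x` of the bits of the special words is fair.

Every target `T_X` is to be proved as `theorem p_X : T_X` (targets named in brackets may be taken as
hypotheses) in a NEW file `Pool/Agent/RelC/P_X.lean`, namespace `Pool.Agent.RelC`, helper lemmas in
`X_`. The definitions of `RelC/Core.lean` are those of `RelB/Core.lean`, with `K`, `B`, `pv` depending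
on the stage, `Φ.mu κ t` (`t` the number of the word) instead of `Φ.mul κ (t % Φ.dm κ)`.
-/

set_option autoImplicit false

namespace Pool.Agent.RelC

open MeasureTheory Set
open scoped ENNReal
open Pool.Agent.RelM (Lang Instr Cfg step run Halts Decides E1 E2 NP pair triple binVal outVal
  Approx IsDensity str pre IsNullCover Null1 Null2 wq sq0 sq1 Asks hq code qb)
open Pool.Agent.RelO (lev IsGale IsGaleCover GaleNull1 GaleNull2 st)
open Pool.Agent.RelS (Z Rl orcV orc acc Idx Om bern bern_prob Dep mixP gf PF Low)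
open Pool.Agent.RelT (Fast)
open Pool.Agent.RelB (ML lcode mcs xacc qbs BH md md_pos md_spec qf ee Hist ix ix_str seto)

/-! ## Parameters -/

/-- **SUM** (40 min). `gf u = binEntropy (exp (-u))`. There is `c` with `gf u ≤ c * sqrt u` and
`gf u ≤ c / u` for `u > 0`: `gf u = exp (-u) * u - (1 - exp (-u)) * log (1 - exp (-u))` and
`1 - exp (-u) ≤ u`, `-(p log p) ≤ sqrt p` (or `≤ 2 sqrt p`), `binEntropy p = binEntropy (1 - p)`,
`exp (-u) ≤ 2 / u ^ 2`. Then the sum over the `i` with `exp i * u ≤ 1` is at most a geometric series with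
the ratio `exp (-1/2)` (backwards from the last such `i`), the rest at most one with the ratio
`exp (-1)`. (For instance: `∑_{i<K} ψ (exp i * u) ≤ C` for `ψ v = min (sqrt v) (1 / v)` by induction on `K` with
the claim: for `exp (K - 1) u ≤ 1` the sum is `≤ c₁ sqrt (exp (K - 1) u)`; and for `1 ≤ u` the sum is
`≤ c₂ / u` (induction, splitting off the FIRST term).) -/
def T_SUM : Prop := ∃ C : ℝ, ∀ (K : ℕ) (u : ℝ), 0 ≤ u →
  ∑ i ∈ Finset.range K, gf (Real.exp ((i : ℝ) * 1) * u) ≤ C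

/-- **PAR** (30 min; from T_SUM; template `RelB/P_PARF.lean`, `p_PARF`): `K v = v + 1`, `lam i = exp (i * 1)`,
`pv v i = 1 / (v + 1)`, `av v = C / ((v + 1) * log 2)` (with `0 ≤ C`), `B v = ⌈exp (v + 1) * log 2⌉₊`,
`mu κ s = exp (-(Nat.log 2 ((s + 1) % 2 ^ (Nat.log 2 (s + 1) / 2)))) * log 2`; `cov` by `low_bound` with `τ = 1`.
For `sp`: with `n = Nat.log 2 (t + 1)`, `i < n`: `wn t i + 1 = (t + 1) * 2 ^ n + 2 ^ i`, its `Nat.log 2` is `2 n`,
its rest modulo `2 ^ n` is `2 ^ i`. -/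
def T_PAR : Prop := Nonempty Par

/-! ## Stages and histories -/

def T_NNMONO : Prop := ∀ Φ : Par, StrictMono (nn Φ)

def T_NNGE : Prop := ∀ (Φ : Par) (j : ℕ), j + 2 ≤ nn Φ j

/-- The stages are late enough for the intensities. -/
def T_NNB : Prop := ∀ (Φ : Par) (j : ℕ), 2 * Φ.B (j + 1) + 2 ≤ nn Φ j

def T_NNP : Prop := ∀ (Φ : Par) (j : ℕ), 2 ^ j ≤ nn Φ j

def T_JJ : Prop := ∀ (Φ : Par) (m : ℕ), m < nn Φ (jj Φ m) ∧ ∀ j, j < jj Φ m → nn Φ j ≤ m

def T_OLDFIN : Prop := ∀ (Φ : Par) (j : ℕ), (Old Φ j).Finite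

/-- The history before stage `j + 1` depends only on the coins that are old at stage `j`. -/
def T_HSDEP : Prop := ∀ (Φ : Par) (j : ℕ) (ω ω' : Om), (∀ a ∈ Old Φ j, ω a = ω' a) →
  hs Φ ω (j + 1) = hs Φ ω' (j + 1)

/-- The options and the probabilities before stage `m` are final. -/
def T_HSVAL : Prop := ∀ (Φ : Par) (ω : Om) (m : ℕ),
  (∀ j, j ≤ m → (hs Φ ω m).1 j = (hf Φ ω).1 j) ∧ ∀ j, j < m → (hs Φ ω m).2 j = (hf Φ ω).2 j

/-- Options are less than `K`. -/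
def T_OPT : Prop := ∀ (Φ : Par) (ω : Om) (m j : ℕ), (hs Φ ω m).1 j < Φ.K j

/-- The bits of the supergales depend only on the stages that can be read. -/
def T_BLOC : Prop := ∀ (Φ : Par) (η η' : ℕ → ℕ → ℝ) (u : List Bool),
  (∀ j, 2 ^ nn Φ j ≤ u.length → η j = η' j) → bitsOf Φ η u = bitsOf Φ η' u

/-! ## Finding a hidden key (job HIT) -/

/-- The coins visible to a gambler who bets on the word number `t` of `Rl z κ`. -/
def Vis (Φ : Par) (κ t : ℕ) : Set Idx :=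
  {a | a ∈ Old Φ (bl Φ κ (str t)) ∧ ¬ (a.1 = κ ∧ ∃ t', t ≤ t' ∧ a.2.1 = str t')}

/-- A machine that runs for `τ` steps on an input that depends only on the visible coins finds no
hidden key. -/
def T_HIT : Prop := ∀ (Φ : Par) (κ t : ℕ) (Pr : List Instr) (X : Om → List Bool) (τ : ℕ),
  nn Φ 0 ≤ lev κ (str t) → Dep (Vis Φ κ t) X →
  (∀ ω, (X ω).length + τ < 2 ^ lev κ (str t)) →
  coin Φ {ω | ∃ s ≤ τ, run (oo Φ ω) Pr (X ω) s ≠ run (ov Φ κ t ω) Pr (X ω) s}
    ≤ τ * (2⁻¹ : ℝ≥0∞) ^ (lev κ (str t) / 2)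

/-! ## The probability of a bit (job FAIR) -/

/-- Given the visible coins, the word number `t` has no key with the probability `rt Φ κ t`. -/
def T_FAIR : Prop := ∀ (Φ : Par) (κ t : ℕ) (H : Om → ℝ≥0∞),
  nn Φ 0 ≤ lev κ (str t) → Measurable H → Dep (Vis Φ κ t) H →
  ∫⁻ ω in {ω | Rl (zo Φ ω) κ (str t) = false}, H ω ∂(coin Φ) =
      ∫⁻ ω, ENNReal.ofReal (rt Φ κ t ω) * H ω ∂(coin Φ) ∧
    ∫⁻ ω in {ω | Rl (zo Φ ω) κ (str t) = true}, H ω ∂(coin Φ) =
      ∫⁻ ω, ENNReal.ofReal (1 - rt Φ κ t ω) * H ω ∂(coin Φ)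

/-! ## The hidden languages -/

/-- **STR** (30 min; template `RelB/P_STR.lean`, `STR_.bits_block`). -/
def T_STR : Prop := ∀ t i : ℕ, i < Nat.log 2 (t + 1) → str (wn t i) = str t ++ sw (str t).length i

/-- **KB** (30 min). `bl Φ κ x = jj Φ (lev κ x)`; if `jj Φ m = j + 1` then `2 ^ j ≤ nn Φ j ≤ m` (T_JJ, T_NNP), so
`K ≤ j + 2 ≤ Nat.log 2 m + 2` (`Φ.Kl`), and `lev κ (str (wn t 0))` is at most a polynomial in
`n = Nat.log 2 (t + 1)` (`(str (wn t 0)).length = 2 n`; see `RelM.lev`, `RelM/NPR.lean` `levpow`). -/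
def T_KB : Prop := ∀ (Φ : Par) (κ : ℕ), ∃ t₀, ∀ t, t₀ ≤ t → nn Φ 0 ≤ lev κ (str (wn t 0)) ∧
  Φ.K (bl Φ κ (str (wn t 0))) ≤ Nat.log 2 (t + 1)

/-- **FAIRD** (75 min; template `RelB/P_FAIRD.lean`; from T_STR, T_FAIR; `RelC/FAIR.lean`,
`RelC/NONNULL.lean` with `rt_dep`, `bit_dep`, `opt_dep` are landed by helper18). With `n = Nat.log 2 (t + 1)` and
the option `O ω < K ≤ n` of the stage of the block, `rt Φ κ (wn t i) ω = exp (-(lam (O ω) * mu κ (wn t i)))`,
which is `1 / 2` for `O ω = i` (`Φ.sp`). As in the template, `wn t 0 ≤ wn t i < wn t (i + 1)`. -/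
def T_FAIRD : Prop := ∀ (Φ : Par) (κ t : ℕ) (H : Om → ℝ≥0∞) (b : Bool),
  nn Φ 0 ≤ lev κ (str (wn t 0)) → Φ.K (bl Φ κ (str (wn t 0))) ≤ Nat.log 2 (t + 1) →
  Measurable H → Dep (Vis Φ κ (wn t 0)) H →
  ∫⁻ ω in {ω | XL (Rl (zo Φ ω) κ) (str t) = b}, H ω ∂(coin Φ) = 2⁻¹ * ∫⁻ ω, H ω ∂(coin Φ)

/-- **NONB** (75 min; template `RelB/P_NONB.lean`; from T_STR, T_KB, T_HIT, T_FAIRD). As in the template with
the language `RR = XL (Rl (zo Φ ω) κ)` instead of `Dk (zo Φ ω) κ ℓ Φ.K` and `wn t i` instead of `wn ℓ t i`; the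
bits of `RR` on `str s`, `s < t`, depend on `Vis Φ κ (wn t 0)` since `wn s i < wn t 0` (`i < Nat.log 2 (s + 1)`:
`wn s i < (s + 2) * 2 ^ Nat.log 2 (s + 1) ≤ (t + 1) * 2 ^ Nat.log 2 (t + 1) = wn t 0`); all this is used for
`t ≥ t₀` of T_KB only. -/
def T_NONB : Prop := ∀ (Φ : Par) (κ : ℕ) (Pr : List Instr) (T : ℕ → ℕ), Fast κ T →
  ∀ᵐ ω ∂(coin Φ), ¬ ∃ d : ℕ → List Bool → ℝ,
    IsNullCover d {XL (Rl (zo Φ ω) κ)} ∧ Approx (oo Φ ω) Pr T d

/-! ## The covering side -/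

/-- The answer of the machine of stage `j` on a word of stage `j` depends only on the coins that
are old at stage `j + 1`, on the options up to stage `j + 1` and on the probabilities before
stage `j` (job ACC). -/
def T_ACC : Prop := ∀ (Φ : Par) (j t : ℕ) (h h' : Hist) (ω ω' : Om), t ∈ Wd Φ j →
  (∀ i, i ≤ j + 1 → h.1 i = h'.1 i) → (∀ i, i ≤ j + 1 → h.1 i < Φ.K i) →
  (∀ i, i < j → h.2 i = h'.2 i) → (∀ a ∈ Old Φ (j + 1), ω a = ω' a) →
  (ans Φ j h ω t ↔ ans Φ j h' ω' t)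

/-- The mean entropy of an answer (job UNI). -/
def T_UNI : Prop := ∀ (Φ : Par) (j t : ℕ) (h : Hist) (ω : Om), t ∈ Wd Φ j →
  (∀ i, i ≤ j → h.1 i < Φ.K i) →
  ∑ i ∈ Finset.range (Φ.K (j + 1)), Φ.pv (j + 1) i * Real.binEntropy (pa Φ j h ω t i) ≤
    ((mcs j).length : ℝ) * Φ.av (j + 1) * Real.log 2 + 1 / ((j : ℝ) + 1)

/-- The best option (job STG). -/
def T_STG : Prop := ∀ (Φ : Par) (j : ℕ) (ω : Om),
  best Φ j (hs Φ ω j) ω < Φ.K (j + 1) ∧
  He Φ j (hs Φ ω j) ω (best Φ j (hs Φ ω j) ω) ≤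
    (((mcs j).length : ℝ) * Φ.av (j + 1) * Real.log 2 + 1 / ((j : ℝ) + 1)) * 2 ^ (nn Φ j + j)

/-- The language of the machines of stage `j`. -/
noncomputable def Lj (Φ : Par) (j : ℕ) (ω : Om) : Lang := by
  classical exact fun x => decide (xacc (oo Φ ω) (mcs j) x)

/-- The probability given to the language of the machine of stage `j` at stage `j` is large
infinitely often (job IO). -/
def T_IO : Prop := ∀ (Φ : Par) (e : ℕ) (δ : ℝ), 0 < δ → ∀ᵐ ω ∂(coin Φ), ∀ m : ℕ, ∃ j, m ≤ j ∧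
  st j = e ∧
  Real.exp (-(δ * 2 ^ (nn Φ j + j) + 2 ^ nn Φ j)) ≤
    Pw Φ (hf Φ ω).2 j (pre (Lj Φ j ω) (2 ^ (nn Φ j + j)))

/-- The upper half (job UPP). -/
def T_UPP : Prop := ∀ Φ : Par, ∀ᵐ ω ∂(coin Φ), ∀ s : ℝ, 0 < s →
  GaleNull1 s (oo Φ ω) (⋃ m, BH (oo Φ ω) m) ∧ GaleNull2 s (oo Φ ω) (⋃ m, BH (oo Φ ω) m)

end Pool.Agent.RelC
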