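import Pool.Agent.RelC.IO
import Pool.Agent.RelB.UPP
import Pool.Agent.RelS.SHIFT
import Pool.Agent.RelO.FAM
import Pool.Agent.RelO.MAIN
import Pool.Agent.RelM.READ

/-!
# The dimension is at most `a`
-/

set_option autoImplicit false

namespace Pool.Agent.RelC

open MeasureTheory Set
open scoped ENNReal
open Pool.Agent.RelT (Fast)
open Pool.Agent.RelB (ML lcode mcs xacc qbs BH md md_pos md_spec qf ee Hist ix ix_str seto T_ENT T_AFF
  lcode_surj pre_length mg mg_pos bh_list ee_kk)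
open Pool.Agent.RelM (Lang Instr Cfg run Halts NP E1 E2 Approx IsDensity IsNullCover Null1 Null2
  pair triple str pre hq wq sq0 sq1 Asks code qb code_surj)
open Pool.Agent.RelO (lev st IsGale IsGaleCover GaleNull1 GaleNull2)
open Pool.Agent.RelS (Z Rl orcV orc acc Idx Om Dep mixP gf PF Low)

theorem oo_tt (Φ : Par) (ω : Om) (u : List Bool) :
    oo Φ ω (true :: true :: u) = bitsOf Φ (hf Φ ω).2 u := Pool.Agent.RelS.ott _ _ _ _

/-- The supergales can be computed in polynomial time. -/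
theorem appr : ∃ (P : List Instr) (c : ℕ), ∀ (Φ : Par) (ω : Om),
    Approx (oo Φ ω) P (fun l => (l + 2) ^ c) (dd Φ (hf Φ ω).2) := by
  obtain ⟨P, c, h⟩ := Pool.Agent.RelM.read Pool.Agent.RelM.stay
  refine ⟨P, c, fun Φ ω k r w => ?_⟩
  have h1 := h (oo Φ ω) (num Φ (hf Φ ω).2)
    (fun j k r w => by rw [oo_tt]; exact (bits Φ (hf Φ ω).2 j k r w).1)
    (fun j k r w => by rw [oo_tt]; exact (bits Φ (hf Φ ω).2 j k r w).2.1)
    (fun j k r w => by rw [oo_tt]; exact (bits Φ (hf Φ ω).2 j k r w).2.2)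
    (fun k r w => (numok Φ (hf Φ ω).2 k r w).1) k r w
  refine ⟨h1.1, ?_⟩
  rw [h1.2]
  exact (numok Φ (hf Φ ω).2 k r w).2

/-- The supergale number `k` is large on a language of the level `m`. -/
theorem cov {Φ : Par} {ω : Om} (hω : ∀ e n m : ℕ, ∃ j, m ≤ j ∧ st j = e ∧
      Real.exp (-(mg n * 2 ^ (nn Φ j + j) + 2 ^ nn Φ j)) ≤ Pw Φ (hf Φ ω).2 j (pre (Lj Φ j ω) (2 ^ (nn Φ j + j))))
    {m : ℕ} (n : ℕ) {A : Lang} (hA : A ∈ BH (oo Φ ω) m) (k : ℕ) (hk : (ee k).2 = n) : ∃ N, 1 ≤ dd Φ (hf Φ ω).2 k (pre A N) := by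
  classical
  obtain ⟨vs, hvl, hvs⟩ := bh_list hA
  obtain ⟨e, he⟩ := lcode_surj vs
  obtain ⟨n0, hn⟩ := Pool.Agent.RelS.NN_.exp_bound 1 (4 * (n + 1) * (k + 1)) 0
  obtain ⟨j, hjn, hst, hlow⟩ := hω e n n0
  have hmc : mcs j = vs := by
    unfold mcs
    rw [hst, he]
  have hAt : Lj Φ j ω = A := by
    funext x
    unfold Lj
    rw [Bool.eq_iff_iff, hvs x, decide_eq_true_eq, hmc]
  rw [hAt] at hlow
  have hj2 : 4 * (n + 1) * (k + j + 2) ≤ 2 ^ j := by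
    have h1 := hn j hjn
    rw [pow_one] at h1
    have h2 : k + j + 2 ≤ (k + 1) * (j + 2) := by nlinarith
    calc 4 * (n + 1) * (k + j + 2) ≤ 4 * (n + 1) * ((k + 1) * (j + 2)) := by gcongr
      _ = 4 * (n + 1) * (k + 1) * (j + 0 + 2) := by ring
      _ ≤ 2 ^ j := by omega
  refine ⟨2 ^ (nn Φ j + j), ?_⟩
  have hjN : j < (pre A (2 ^ (nn Φ j + j))).length := by
    rw [pre_length]
    have h1 : nn Φ j + j < 2 ^ (nn Φ j + j) := Nat.lt_two_pow_self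
    omega
  refine le_trans ?_ (dlow Φ (hf Φ ω).2 k j _ hjN)
  rw [pre_length]
  obtain ⟨L, hL⟩ : ∃ L, L = Real.log 2 := ⟨_, rfl⟩
  have hL1 : 1 / 2 ≤ L := by rw [hL]; linarith [Real.log_two_gt_d9]
  have hL2 : L ≤ 1 := by rw [hL]; linarith [Real.log_two_lt_d9]
  obtain ⟨M, hM⟩ : ∃ M : ℝ, M = 2 ^ nn Φ j := ⟨_, rfl⟩
  have hM1 : 1 ≤ M := by rw [hM]; exact one_le_pow₀ (by norm_num)
  have hN : (2 : ℝ) ^ (nn Φ j + j) = M * 2 ^ j := by rw [hM, pow_add]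
  have hhalf : ∀ m : ℕ, (1 / 2 : ℝ) ^ m = Real.exp (-(m * L)) := by
    intro m
    rw [hL, ← mul_neg, Real.exp_nat_mul, Real.exp_neg, Real.exp_log (by norm_num), one_div]
  have hpow : (2 : ℝ) ^ (sK Φ k * ((2 ^ (nn Φ j + j) : ℕ) : ℝ)) =
      Real.exp (L * (sK Φ k * (M * 2 ^ j))) := by
    rw [Real.rpow_def_of_pos (by norm_num), ← hL]
    push_cast
    rw [hN]
  rw [hN, ← hM] at hlow
  have hkey : 0 ≤ -(k * L) + L * (sK Φ k * (M * 2 ^ j)) +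
      (-(((j + 1 : ℕ) : ℝ) * L) + -(mg n * (M * 2 ^ j) + M)) := by
    have h1 : sK Φ k = 1 / ((n : ℝ) + 1) := by
      unfold sK
      rw [hk]
      apply min_eq_right
      have : (1 : ℝ) / ((n : ℝ) + 1) ≤ 1 := by
        rw [div_le_one (by positivity)]
        linarith [Nat.cast_nonneg (α := ℝ) n]
      linarith
    have h2 : mg n = L / (2 * ((n : ℝ) + 1)) := by unfold mg; rw [hL]
    have hj3 : 4 * ((n : ℝ) + 1) * (k + j + 2) ≤ 2 ^ j := by exact_mod_cast hj2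
    rw [h1, h2]
    have hk : (0 : ℝ) < (n : ℝ) + 1 := by positivity
    have h3 : L * (1 / ((n : ℝ) + 1) * (M * 2 ^ j)) -
        L / (2 * ((n : ℝ) + 1)) * (M * 2 ^ j) =
        L * M * 2 ^ j / (2 * ((n : ℝ) + 1)) := by
      field_simp
      ring
    have h4 : M * ((k : ℝ) + j + 2) ≤ L * M * 2 ^ j / (2 * ((n : ℝ) + 1)) := by
      rw [le_div_iff₀ (by positivity)]
      calc M * ((k : ℝ) + j + 2) * (2 * (n + 1)) = 1 / 2 * M * (4 * (n + 1) * (k + j + 2)) := by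
            ring
        _ ≤ L * M * 2 ^ j := by gcongr
    have h5 : ((k : ℝ) + (j + 1)) * L + M ≤ M * ((k : ℝ) + j + 2) := by
      have h6 : ((k : ℝ) + (j + 1)) * L ≤ ((k : ℝ) + (j + 1)) * M :=
        mul_le_mul_of_nonneg_left (hL2.trans hM1) (by positivity)
      linarith
    push_cast
    linarith
  calc (1 : ℝ) ≤ Real.exp (-(k * L) + L * (sK Φ k * (M * 2 ^ j)) +
        (-(((j + 1 : ℕ) : ℝ) * L) + -(mg n * (M * 2 ^ j) + M))) :=
        Real.one_le_exp hkey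
    _ = (1 / 2 : ℝ) ^ k * (2 : ℝ) ^ (sK Φ k * ((2 ^ (nn Φ j + j) : ℕ) : ℝ)) *
        ((1 / 2 : ℝ) ^ (j + 1) * Real.exp (-(mg n * (M * 2 ^ j) + M))) := by
        rw [hhalf, hpow, hhalf, ← Real.exp_add, ← Real.exp_add, ← Real.exp_add]
    _ ≤ _ := by gcongr

/-- The dimension of the level `m` is at most `m * a`. -/
theorem upp (hENT : T_ENT) (hAFF : T_AFF) : T_UPP := by
  intro Φ
  have h : ∀ᵐ ω ∂(coin Φ), ∀ e n m : ℕ, ∃ j, m ≤ j ∧ st j = e ∧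
      Real.exp (-(mg n * 2 ^ (nn Φ j + j) + 2 ^ nn Φ j)) ≤ Pw Φ (hf Φ ω).2 j (pre (Lj Φ j ω) (2 ^ (nn Φ j + j))) :=
    ae_all_iff.2 fun e => ae_all_iff.2 fun n => io hENT Φ e (mg n) (mg_pos n)
  filter_upwards [h] with ω hω s hs
  obtain ⟨n, hl⟩ := exists_nat_one_div_lt hs
  obtain ⟨e, he⟩ : ∃ e, e = Nat.pair 0 n := ⟨_, rfl⟩
  have hee : ∀ k, ee (2 ^ (e + 1) * k + (2 ^ e - 1)) = (0, n) := by
    intro k
    rw [ee_kk, he, Nat.unpair_pair]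
  have hcov : IsGaleCover s (fun k => dd Φ (hf Φ ω).2 (2 ^ (e + 1) * k + (2 ^ e - 1)))
      (⋃ m, BH (oo Φ ω) m) := by
    intro k
    refine ⟨Pool.Agent.RelO.MAIN_.gale_mono ?_ (dgale Φ (hf Φ ω).2 _), ?_, ?_⟩
    · unfold sK
      rw [hee]
      refine (min_le_right _ _).trans ?_
      exact hl.le
    · refine (dnil Φ (hf Φ ω).2 _).trans ?_
      refine pow_le_pow_of_le_one (by norm_num) (by norm_num) ?_
      have h1 : 1 ≤ 2 ^ (e + 1) := Nat.one_le_two_pow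
      have h2 : 1 * k ≤ 2 ^ (e + 1) * k := Nat.mul_le_mul_right k h1
      omega
    · intro A hA
      obtain ⟨m, hA⟩ := Set.mem_iUnion.1 hA
      exact cov hω n hA _ (by rw [hee])
  obtain ⟨P, c, hap⟩ := appr
  obtain ⟨P', c', hap'⟩ := hAFF (oo Φ ω) P c (2 ^ (e + 1)) (2 ^ e - 1) _ (hap Φ ω)
  refine ⟨⟨_, hcov, P', c', hap'⟩, ?_⟩
  obtain ⟨c'', hc''⟩ := Pool.Agent.RelO.t12 c'
  exact ⟨_, hcov, P', c'', Pool.Agent.RelO.time _ _ _ _ _ hc'' hap'⟩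

end Pool.Agent.RelC
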